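import Mathlib
import Pool.Agent.Q127.EZ.Core

/-!
# Project ET: the machine for tempered Euler products of full degree (definitions and jobs)

`d = 4 m + 3 = 2 lamH m` is the degree.  Local factor at `p` with parameter `x`, `|x| ≤ 1`:
`(1 - z^d)⁻¹ (1 + x z / (1 - (y0 + x) z + z^2)) = ∏_{j < d} (1 - α_j z)⁻¹`, all `|α_j| = 1`
(the `d`-th roots of unity, one pair of them moved along the unit circle).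
-/

set_option autoImplicit false

open Finset MeasureTheory

namespace Pool.Agent.Q127.ET

open Pool.Agent.H469R10.HO Pool.Agent.H13R3.EM Pool.Agent.Q127.EZ

/-- `Uc y (j + 1) = U_j (y / 2)`, Chebyshev polynomials of the second kind -/
noncomputable def Uc (y : ℝ) : ℕ → ℝ
  | 0 => 0
  | 1 => 1
  | (n + 2) => y * Uc y (n + 1) - Uc y n

/-- `2 cos (2 π (m + 1) / d)`, close to `0` -/
noncomputable def y0 (m : ℕ) : ℝ := 2 * Real.cos (2 * Real.pi * (m + 1) / (4 * m + 3))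

/-- coefficients of `1 + x z / (1 - (y0 + x) z + z^2)` -/
noncomputable def hl (m : ℕ) (x : ℝ) (j : ℕ) : ℝ := if j = 0 then 1 else x * Uc (y0 m + x) j

/-- coefficients of the local factor -/
noncomputable def Al (m : ℕ) (x : ℝ) (k : ℕ) : ℝ :=
  ∑ i ∈ range (k / (4 * m + 3) + 1), hl m x (k - i * (4 * m + 3))

/-- the multiplicative function with local parameters `x p` -/
noncomputable def atc (m : ℕ) (x : ℕ → ℝ) (n : ℕ) : ℝ :=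
  if n = 0 then 0 else ∏ p ∈ n.primeFactors, Al m (x p) (n.factorization p)

/-- JOB ET1, first part: bounds -/
def S_Loc1 : Prop :=
  (∀ y : ℝ, |y| ≤ 2 → ∀ j : ℕ, |Uc y j| ≤ j) ∧
  (∀ y y' : ℝ, |y| ≤ 2 → |y'| ≤ 2 → ∀ j : ℕ, |Uc y j - Uc y' j| ≤ 4 ^ j * |y - y'|) ∧
  (∀ m : ℕ, |y0 m| ≤ 1) ∧
  (∀ (m : ℕ) (x : ℝ), Al m x 0 = 1 ∧ Al m x 1 = x) ∧
  (∀ m k : ℕ, Al m 0 k = if (4 * m + 3) ∣ k then 1 else 0) ∧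
  (∀ (m : ℕ) (x : ℝ), |x| ≤ 1 → ∀ k : ℕ, |Al m x k| ≤ ((k : ℝ) + 1) ^ 2) ∧
  (∀ (m : ℕ) (x : ℝ), |x| ≤ 1 → ∀ k : ℕ, |Al m x k - Al m 0 k| ≤ 4 ^ k * |x|) ∧
  (∀ (m : ℕ) (x x' : ℝ), |x| ≤ 1 → |x'| ≤ 1 → ∀ k : ℕ, |Al m x k - Al m x' k| ≤ 8 ^ k * |x - x'|)

/-- the local factor with coefficients `A` is tempered of full degree `d`: a product of `d` factors
`(1 - α_j z)⁻¹` with `|α_j| = 1`, `∏ α_j = 1`, the set of the `α_j` closed under complex conjugation -/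
def Tempered (d : ℕ) (A : ℕ → ℝ) : Prop :=
  ∃ α : Fin d → ℂ, (∀ j, ‖α j‖ = 1) ∧ ∏ j, α j = 1 ∧
    (∀ z : ℂ, ∏ j, (1 - α j * z) = ∏ j, (1 - starRingEnd ℂ (α j) * z)) ∧
    ∀ z : ℂ, ‖z‖ < 1 → HasSum (fun k : ℕ => ((A k : ℝ) : ℂ) * z ^ k) (∏ j, (1 - α j * z))⁻¹

/-- JOB ET1, second part -/
def S_Loc2 : Prop := ∀ (m : ℕ) (x : ℝ), |x| ≤ 1 → Tempered (4 * m + 3) (Al m x)

/-- JOB ET2: scaling of the frequencies -/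
def S_Scale : Prop := ∀ c : ℝ, 0 < c → c ≤ 1 / 10 → ∀ r : ℝ, 1 ≤ r → ∀ (S : Finset ℕ) (ω β : ℕ → ℝ),
  (∀ i ∈ S, 0 ≤ ω i) →
  QQ (WW c) S (fun i => cell (r * ω i)) β ≤ 200 * r ^ 4 * QQ (WW c) S (fun i => cell (ω i)) β

/-- majorant of the coefficient at `p ^ k`, `k ≥ 2` -/
noncomputable def Gp (m : ℕ) (blk : Set ℕ) (σ : ℝ) (p k : ℕ) : ℝ :=
  ((if (4 * m + 3) ∣ k then 1 else 0) + blk.indicator (fun _ => (1 : ℝ)) p * 16 ^ k) * (p : ℝ) ^ (-(σ * k))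

/-- majorant of the coefficients at the powerful numbers (`0` at the other numbers) -/
noncomputable def Gf (m : ℕ) (blk : Set ℕ) (σ : ℝ) (n : ℕ) : ℝ :=
  if n = 0 then 0 else
    ∏ p ∈ n.primeFactors, (if n.factorization p = 1 then 0 else Gp m blk σ p (n.factorization p))

/-- JOB ET3 -/
def S_Pow1 : Prop := ∀ ε : ℝ, 0 < ε → ∃ m₀ : ℕ, ∀ m : ℕ, m₀ ≤ m → ∃ P₀ : ℕ, ∀ blk : Set ℕ, (∀ p ∈ blk, P₀ ≤ p) →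
  ∀ σ : ℝ, 4 / 5 ≤ σ → ∀ S : Finset ℕ, (∀ n ∈ S, 2 ≤ n) → ∑ n ∈ S, Gf m blk σ n ≤ ε

/-- JOB ET3 -/
def S_Pow2 : Prop := ∀ m : ℕ, ∀ ε : ℝ, 0 < ε → ∃ P₀ : ℕ, ∀ blk : Set ℕ, (∀ p ∈ blk, P₀ ≤ p) →
  ∀ σ : ℝ, 4 / 5 ≤ σ → ∀ S : Finset ℕ, (∀ n ∈ S, n ≠ 0 ∧ ∃ p ∈ n.primeFactors, p ∈ blk) → ∑ n ∈ S, Gf m blk σ n ≤ ε

/-- the source: `∑_{k ≥ 1} k^{-(4m+3/2)} (cos (c k² x) - 1)` -/
noncomputable def sT (c : ℝ) (m : ℕ) (x : ℝ) : ℝ :=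
  ∑' k : ℕ, ((k + 1 : ℕ) : ℝ) ^ (-(4 * (m : ℝ) + 3 / 2)) * s0 (c * ((k + 1 : ℕ) : ℝ) ^ 2) x

/-- JOB ET4 -/
def S_Src : Prop := (∀ (m : ℕ) (c : ℝ), 1 ≤ m → Continuous (sT c m) ∧ ∀ x, |sT c m x| ≤ 6) ∧
  ∀ m : ℕ, 4 ≤ m → ∃ K : ℝ, 0 < K ∧ ∀ c : ℝ, 0 < c → ∀ J : Finset ℕ,
    ∑ j ∈ J, (1 + (j : ℝ)) ^ 2 * (- PP (sT c m) j + PP (DD m (sT c m)) j) ^ 2 ≤ (K * c ^ 2) ^ 2 ∧
    ∑ k ∈ J, (1 + (k : ℝ)) ^ 2 * (EE m (sT c m) k) ^ 2 ≤ (K * c ^ 2) ^ 2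

/-- JOB ET5: the member of the Selberg class (compare `Pool.Agent.Q127.EZ.toSel2`) -/
def S_Sel : Prop := ∀ (m : ℕ) (c : ℝ) (x α : ℕ → ℝ), 1 ≤ m → 0 < c → (∀ p, |x p| ≤ 1) →
  (∀ n : ℕ, 1 ≤ n → α n = atc m x n * (n : ℝ) ^ (-kap m)) → Summable (fun n => |α n|) →
  (∀ y : ℝ, 0 < y → ∑' n, α n * Real.cos (uu c (lamH m) n * y) =
      y ^ (2 * m) * ∑' n, α n * Real.cos (uu c (lamH m) n / y)) →
  ∃ F : Sel, F.m0 = 0 ∧ F.deg = ((4 * m + 3 : ℕ) : ℝ) ∧ (∀ n, F.a n = ((atc m x n : ℝ) : ℂ)) ∧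
    (∀ (j : Fin F.r) (n : ℕ) (s : ℂ), s.im ≠ 0 → (F.lam j : ℂ) * s + F.μ j ≠ -(n : ℂ)) ∧
    F.r = 1 ∧ F.Q = Real.exp (-(lamH m * Real.log c)) ∧ F.ω = (-1) ^ (m + 1) ∧
    ∀ j, F.lam j = lamH m ∧ F.μ j = 1 / 4

end Pool.Agent.Q127.ET
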