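import Mathlib
import Pool.Agent.Q127.ET.Spec

/-!
# Project ET, second part: fixed point, boundary relation, core
-/

set_option autoImplicit false

open Finset MeasureTheory

namespace Pool.Agent.Q127.ET

open Pool.Agent.H469R10.HO Pool.Agent.H13R3.EM Pool.Agent.Q127.EZ
open Pool.Agent.Q284.S (Mm)

/-- column of a non squarefree number -/
noncomputable def T3 (c lam : ℝ) (m n j : ℕ) : ℝ :=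
  - PP (fun t => Real.cos (uu c lam n * t)) j + PP (DD m (fun y => Real.cos (uu c lam n * y))) j

/-- a Lipschitz functional with values on the non squarefree numbers -/
structure Extra (c lam ρ μ : ℝ) (ex : (ℕ → ℝ) → ℕ → ℝ) : Prop where
  zero : ∀ n, ex (fun _ => 0) n = 0
  supp : ∀ (b : ℕ → ℝ) (n : ℕ), (n = 0 ∨ Squarefree n) → ex b n = 0
  lip : ∀ (b b' : ℕ → ℝ) (D : ℝ), 0 ≤ D → (∀ J : ℕ, ∑ j ∈ range J, WW c j * b j ^ 2 ≤ ρ ^ 2) →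
    (∀ J : ℕ, ∑ j ∈ range J, WW c j * b' j ^ 2 ≤ ρ ^ 2) →
    (∀ J : ℕ, ∑ j ∈ range J, WW c j * (b j - b' j) ^ 2 ≤ D ^ 2) →
    ∀ S : Finset ℕ, QQ (WW c) S (jj c lam) (fun n => ex b n - ex b' n) ≤ μ * D ^ 2

/-- JOB ET6: the fixed point with extra coefficients (compare `Pool.Agent.Q127.EZ.fixed_interp`) -/
def S_Fix : Prop := ∀ (c lam e κ CJ CH : ℝ) (B : ℕ → Finset ℕ) (m : ℕ), Hyp c lam e κ CJ CH B m → TaskQ → 4 ≤ m →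
  ∀ κE K0 ρ μ : ℝ, 0 ≤ κE → EBound m κE → 0 < K0 → 2 * (CJ * CU m) ≤ 1 / 8 * K0 ^ 2 → 0 < ρ → 9 * ρ ^ 2 ≤ 1 →
  2 * (CJ * (800 * e ^ 2 + 2 * κ)) + 2 * (CJ * (720 + 2 * κ)) * (CH * 81 * ρ ^ 2) ≤ 1 / 4 →
  K0 ^ 2 * 1024 * (2 * (CJ * κE) * (1 + CH * 81 * ρ ^ 2)) ≤ 1 / 8 →
  0 ≤ μ → μ ≤ 1 / 100000 → CJ * (720 + 2 * κ) * μ ≤ 1 / 100000 →
  ∀ ex : (ℕ → ℝ) → ℕ → ℝ, Extra c lam ρ μ ex →
  ∀ s t : ℕ → ℝ, (∀ J : ℕ, ∑ j ∈ range J, WW c j * s j ^ 2 ≤ (ρ / 16) ^ 2) →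
    (∀ J : ℕ, K0 ^ 2 * ∑ j ∈ range J, WW c j * t j ^ 2 ≤ (ρ / 16) ^ 2) →
    ∃ b g : ℕ → ℝ, (∀ J : ℕ, ∑ j ∈ range J, WW c j * b j ^ 2 ≤ ρ ^ 2) ∧
      (∀ J : ℕ, K0 ^ 2 * ∑ j ∈ range J, WW c j * g j ^ 2 ≤ ρ ^ 2) ∧
      (Summable fun n => |alp c lam B b n|) ∧ (Summable fun k => |g k|) ∧ (Summable fun n => |ex b n|) ∧
      (∀ j, b j = (s j + ∑' k, g k * PP (sk m k) j) + ∑' n, alp c lam B b n * TT c lam m n j +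
        ∑' n, ex b n * T3 c lam m n j) ∧
      (∀ k, g k = t k - 32 * (∑' n, alp c lam B b n * TE c lam m n k + ∑' n, ex b n * TE c lam m n k))

/-- the boundary function -/
noncomputable def hT (c lam : ℝ) (B : ℕ → Finset ℕ) (b : ℕ → ℝ) (s : ℝ → ℝ) (w : ℕ → ℝ) (x : ℝ) : ℝ :=
  s x + ∑' n, (if n = 1 then 0 else alp c lam B b n) * Real.cos (uu c lam n * x) + ∑' n, w n * Real.cos (uu c lam n * x)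

/-- JOB ET7: a fixed point gives the boundary relation (compare `Pool.Agent.Q127.EZ.rel_of_fixed2`) -/
def S_Rel : Prop := ∀ (c lam : ℝ) (m : ℕ) (B : ℕ → Finset ℕ) (b : ℕ → ℝ) (r s : ℝ → ℝ) (M : ℝ) (w : ℕ → ℝ),
  0 < c → 1 ≤ lam → 2 ≤ m → Continuous r → (∀ x, 0 ≤ x → x ≤ 3 / 4 → r x = 0) → (∀ x, 4 / 3 ≤ x → r x = 0) →
  (∀ x, 0 < x → r x = x ^ (2 * m) * r x⁻¹) → Continuous s → (∀ x, |s x| ≤ M) →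
  (∀ j, ∀ p ∈ B j, 1 ≤ j ∧ p.Prime ∧ |uu c lam p - xx j| ≤ 1 / 2) → (∀ j, 1 ≤ j → (B j).Nonempty) →
  Summable (fun n => |alp c lam B b n|) → Summable (fun n => |w n|) →
  (∀ j, b j = ((- PP s j + PP (DD m s) j) + PP r j) + ∑' n, alp c lam B b n * TT c lam m n j +
    ∑' n, w n * T3 c lam m n j) →
  (∀ x : ℝ, 0 < x → hT c lam B b s w x = x ^ (2 * m) * hT c lam B b s w x⁻¹) ∧
  (∀ x : ℝ, 3 / 4 ≤ x → x ≤ 2 → hT c lam B b s w x = r x)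

/-- local parameters -/
noncomputable def xb (c : ℝ) (m : ℕ) (B : ℕ → Finset ℕ) (b : ℕ → ℝ) (p : ℕ) : ℝ :=
  bet c (lamH m) B b p * (p : ℝ) ^ kap m

/-- the coefficients at the non squarefree numbers, up to the constant part -/
noncomputable def exT (c : ℝ) (m : ℕ) (B : ℕ → Finset ℕ) (b : ℕ → ℝ) (n : ℕ) : ℝ :=
  if n = 0 ∨ Squarefree n then 0 else
    (atc m (xb c m B b) n - atc m (fun _ => 0) n) * (n : ℝ) ^ (-kap m)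

/-- the constant part: `k^{-(4m+3/2)}` at `n = k^(4m+3)`, `k ≥ 2` -/
noncomputable def bsT (m n : ℕ) : ℝ :=
  if n = 0 ∨ Squarefree n then 0 else atc m (fun _ => 0) n * (n : ℝ) ^ (-kap m)

/-- JOB ET8: the main estimate -/
def S_Ex : Prop := ∀ ε : ℝ, 0 < ε → ∃ m₀ : ℕ, ∀ m : ℕ, m₀ ≤ m → ∀ CH η ρ : ℝ, 0 < η → 0 < ρ → 9 * ρ ^ 2 ≤ 1 →
  CH * 81 * ρ ^ 2 ≤ 1 → ∃ c₀ : ℝ, 0 < c₀ ∧ ∀ c : ℝ, 0 < c → c ≤ c₀ → ∀ (e κ CJ : ℝ) (B : ℕ → Finset ℕ),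
  Hyp c (lamH m) e κ CJ CH B m →
  (∀ j, 1 ≤ j → (B j).Nonempty ∧ ∀ p ∈ B j, η * p ≤ (B j).card * xx j * Real.log p) →
  Extra c (lamH m) ρ ε (exT c m B) ∧
  ∀ b : ℕ → ℝ, (∀ J : ℕ, ∑ j ∈ range J, WW c j * b j ^ 2 ≤ ρ ^ 2) → ∀ p : ℕ, |xb c m B b p| ≤ 1 / 2

/-- JOB ET9: the constant part -/
def S_Base : Prop :=
  (∀ (c : ℝ) (m : ℕ), 0 < c → c ≤ 1 / 10 → 4 ≤ m → ∃ D : ℝ, 0 ≤ D ∧ ∀ S : Finset ℕ,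
    QQ (WW c) S (jj c (lamH m)) (bsT m) ≤ D) ∧
  ∀ (c : ℝ) (m : ℕ), 0 < c → 4 ≤ m → Summable (fun n => |bsT m n|) ∧ ∀ x : ℝ,
    sT c m x = ((Real.cos (c * x) - 1) + ∑' n, bsT m n * Real.cos (uu c (lamH m) n * x)) - ∑' n, bsT m n

/-- the output of the machine -/
structure OutG (m : ℕ) (c : ℝ) (v x α g : ℕ → ℝ) (D : ℝ) : Prop where
  hc : 0 < c
  hx : ∀ p : ℕ, |x p| ≤ 1
  hα : ∀ n : ℕ, 1 ≤ n → α n = atc m x n * (n : ℝ) ^ (-kap m)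
  hsum : Summable (fun n => |α n|)
  hrel : ∀ x : ℝ, 0 < x → ∑' n, α n * Real.cos (uu c (lamH m) n * x) =
      x ^ (2 * m) * ∑' n, α n * Real.cos (uu c (lamH m) n / x)
  hQ : ∀ S : Finset ℕ, QQ (WW c) S (jj c (lamH m)) α ≤ D
  hgs : Summable (fun k => |g k|)
  hg : ∀ J : ℕ, ∑ k ∈ range J, WW c k * g k ^ 2 ≤ D
  hr : ∀ x : ℝ, 3 / 4 ≤ x → x ≤ 2 → hb c (lamH m) α x = rg m g x
  hnode : ∀ k : ℕ, Mm c (lamH m) m α 0 (tau k) = ((v k : ℝ) : ℂ)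

/-- JOB ET10: the core (compare `Pool.Agent.Q127.EZ.core_interp`), from the other jobs -/
def S_Core : Prop := ∃ m₀ : ℕ, 4 ≤ m₀ ∧ ∀ m : ℕ, m₀ ≤ m → ∃ c₀ ν C : ℝ, 0 < c₀ ∧ c₀ ≤ 1 / 10 ∧ 0 < ν ∧ 0 ≤ C ∧
  ∀ c : ℝ, 0 < c → c ≤ c₀ → JP c C ∧ ∃ D : ℝ, 0 ≤ D ∧
    ∀ v : ℕ → ℝ, (∀ J : ℕ, ∑ k ∈ range J, WW c k * v k ^ 2 ≤ ν ^ 2) → ∃ x α g : ℕ → ℝ, OutG m c v x α g D

/-- JOB ET11: Gauss's multiplication formula in the form used (see `Q95.GM.indep`) -/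
def S_Gam : Prop := ∀ d : ℕ, 1 ≤ d → ∃ C₀ : ℝ, 0 < C₀ ∧ ∀ s : ℂ, (∀ n : ℕ, ((d : ℝ) / 2 : ℂ) * s + 1 / 4 ≠ -(n : ℂ)) →
  ∏ j ∈ range d, Complex.Gamma ((s + (((4 * j + 1 : ℝ) / (2 * d) : ℝ) : ℂ)) / 2) =
    (C₀ : ℂ) * (d : ℂ) ^ (-((d : ℂ) / 2 * s)) * Complex.Gamma (((d : ℝ) / 2 : ℂ) * s + 1 / 4)

end Pool.Agent.Q127.ET
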