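import Mathlib
import Pool.Agent.Q127.ET.Spec2

/-!
# The decomposition `n = (product of the p with p exactly dividing n) * (powerful part)`
-/

set_option autoImplicit false

open Finset

namespace Pool.Agent.Q127.ET

/-- product of the primes dividing `n` exactly once -/
noncomputable def sq1 (n : ℕ) : ℕ := (n.factorization.filter (fun p => n.factorization p = 1)).prod (· ^ ·)

/-- the powerful part -/
noncomputable def pw2 (n : ℕ) : ℕ := (n.factorization.filter (fun p => ¬ n.factorization p = 1)).prod (· ^ ·)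

lemma sq1_mul_pw2 {n : ℕ} (hn : n ≠ 0) : sq1 n * pw2 n = n := by
  unfold sq1 pw2
  rw [Finsupp.prod_filter_mul_prod_filter_not]
  exact Nat.prod_factorization_pow_eq_self hn

lemma sq1_fac (n : ℕ) : (sq1 n).factorization = n.factorization.filter (fun p => n.factorization p = 1) := by
  apply Nat.prod_pow_factorization_eq_self
  intro p hp
  rw [Finsupp.support_filter, mem_filter] at hp
  exact Nat.prime_of_mem_primeFactors hp.1

lemma pw2_fac (n : ℕ) : (pw2 n).factorization = n.factorization.filter (fun p => ¬ n.factorization p = 1) := by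
  apply Nat.prod_pow_factorization_eq_self
  intro p hp
  rw [Finsupp.support_filter, mem_filter] at hp
  exact Nat.prime_of_mem_primeFactors hp.1

lemma sq1_ne {n : ℕ} (hn : n ≠ 0) : sq1 n ≠ 0 := fun h => by
  have := sq1_mul_pw2 hn
  rw [h, zero_mul] at this
  exact hn this.symm

lemma pw2_ne {n : ℕ} (hn : n ≠ 0) : pw2 n ≠ 0 := fun h => by
  have := sq1_mul_pw2 hn
  rw [h, mul_zero] at this
  exact hn this.symm

lemma sq1_pf (n : ℕ) : (sq1 n).primeFactors = n.primeFactors.filter (fun p => n.factorization p = 1) := by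
  rw [← Nat.support_factorization, sq1_fac, Finsupp.support_filter, Nat.support_factorization]

lemma pw2_pf (n : ℕ) : (pw2 n).primeFactors = n.primeFactors.filter (fun p => ¬ n.factorization p = 1) := by
  rw [← Nat.support_factorization, pw2_fac, Finsupp.support_filter, Nat.support_factorization]

lemma sq1_sqf {n : ℕ} (hn : n ≠ 0) : Squarefree (sq1 n) := by
  rw [Nat.squarefree_iff_factorization_le_one (sq1_ne hn)]
  intro p
  rw [sq1_fac, Finsupp.filter_apply]
  split_ifs with h
  · exact h.le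
  · exact Nat.zero_le _

lemma pw2_fac_of {n p : ℕ} (h : p ∈ (pw2 n).primeFactors) : (pw2 n).factorization p = n.factorization p := by
  rw [pw2_pf, mem_filter] at h
  rw [pw2_fac, Finsupp.filter_apply, if_pos h.2]

lemma pw2_two {n : ℕ} (hn : n ≠ 0) (hs : ¬ Squarefree n) : 2 ≤ pw2 n := by
  have h0 := pw2_ne hn
  by_contra h
  have h1 : pw2 n = 1 := by omega
  have h2 := sq1_mul_pw2 hn
  rw [h1, mul_one] at h2
  apply hs
  rw [← h2]
  exact sq1_sqf hn

open Classical in
/-- the majorant splits -/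
lemma maj_split (m : ℕ) (blk : Set ℕ) (σ : ℝ) (w : ℕ → ℝ) {n : ℕ} (hn : n ≠ 0) :
    ∏ p ∈ n.primeFactors, (if n.factorization p = 1 then w p else Gp m blk σ p (n.factorization p)) =
      (∏ p ∈ (sq1 n).primeFactors, w p) * Gf m blk σ (pw2 n) := by
  rw [← prod_filter_mul_prod_filter_not n.primeFactors (fun p => n.factorization p = 1)]
  congr 1
  · rw [sq1_pf]
    refine prod_congr rfl fun p hp => ?_
    rw [if_pos (mem_filter.1 hp).2]
  · unfold Gf
    rw [if_neg (pw2_ne hn)]
    rw [pw2_pf]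
    refine prod_congr rfl fun p hp => ?_
    have h1 : (pw2 n).factorization p = n.factorization p := pw2_fac_of (by rw [pw2_pf]; exact hp)
    rw [if_neg (mem_filter.1 hp).2, h1, if_neg (mem_filter.1 hp).2]

lemma Gp_nonneg (m : ℕ) (blk : Set ℕ) (σ : ℝ) (p k : ℕ) : 0 ≤ Gp m blk σ p k := by
  unfold Gp
  apply mul_nonneg
  · apply add_nonneg
    · split_ifs <;> norm_num
    · apply mul_nonneg (Set.indicator_nonneg (fun _ _ => zero_le_one) _) (by positivity)
  · positivity

lemma Gf_nonneg (m : ℕ) (blk : Set ℕ) (σ : ℝ) (n : ℕ) : 0 ≤ Gf m blk σ n := by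
  unfold Gf
  split_ifs
  · exact le_rfl
  · refine prod_nonneg fun p _ => ?_
    split_ifs
    · exact le_rfl
    · exact Gp_nonneg _ _ _ _ _

lemma Gp_shift (m : ℕ) (blk : Set ℕ) (σ t : ℝ) {p : ℕ} (hp : 0 < p) (k : ℕ) :
    Gp m blk σ p k * (p : ℝ) ^ (t * k) = Gp m blk (σ - t) p k := by
  unfold Gp
  have hp' : (0:ℝ) < p := by exact_mod_cast hp
  rw [mul_assoc, ← Real.rpow_add hp']
  congr 2
  ring

lemma rpow_eq_prod {n : ℕ} (hn : n ≠ 0) (t : ℝ) : (n : ℝ) ^ t = ∏ p ∈ n.primeFactors, (p : ℝ) ^ (t * n.factorization p) := by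
  have h1 : n = ∏ p ∈ n.primeFactors, p ^ n.factorization p := (Nat.prod_factorization_pow_eq_self hn).symm
  have h2 : (n : ℝ) = ∏ p ∈ n.primeFactors, (p : ℝ) ^ n.factorization p := by
    conv_lhs => rw [h1]
    push_cast
    rfl
  rw [h2, ← Real.finsetProd_rpow]
  · refine prod_congr rfl fun p _ => ?_
    rw [← Real.rpow_natCast, ← Real.rpow_mul (Nat.cast_nonneg p)]
    congr 1
    ring
  · intro p _
    positivity

lemma Gf_shift (m : ℕ) (blk : Set ℕ) (σ t : ℝ) {n : ℕ} (hn : n ≠ 0) :
    Gf m blk σ n * (n : ℝ) ^ t = Gf m blk (σ - t) n := by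
  rw [rpow_eq_prod hn]
  unfold Gf
  rw [if_neg hn, if_neg hn, ← prod_mul_distrib]
  refine prod_congr rfl fun p hp => ?_
  split_ifs
  · rw [zero_mul]
  · exact Gp_shift m blk σ t (Nat.pos_of_mem_primeFactors hp) _

end Pool.Agent.Q127.ET
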