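import Mathlib
import Pool.Agent.Q127.ET.Dec

/-!
# Cell norms of products
-/

set_option autoImplicit false

open Finset MeasureTheory

namespace Pool.Agent.Q127.ET

open Pool.Agent.H469R10.HO Pool.Agent.H13R3.EM Pool.Agent.Q127.EZ

/-- more values `y` do not matter -/
lemma QQ_ge {w : ℕ → ℝ} (hw : ∀ y, 0 ≤ w y) (S : Finset ℕ) (cl : ℕ → ℕ) (β : ℕ → ℝ) (Y : Finset ℕ) :
    ∑ y ∈ Y, w y * (∑ i ∈ S.filter (fun i => cl i = y), |β i|) ^ 2 ≤ QQ w S cl β := by
  classical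
  unfold QQ
  have h1 : ∑ y ∈ Y, w y * (∑ i ∈ S.filter (fun i => cl i = y), |β i|) ^ 2 =
      ∑ y ∈ Y.filter (fun y => y ∈ S.image cl), w y * (∑ i ∈ S.filter (fun i => cl i = y), |β i|) ^ 2 := by
    symm
    apply sum_subset (filter_subset _ _)
    intro y hy hn
    have h2 : y ∉ S.image cl := fun h => hn (mem_filter.2 ⟨hy, h⟩)
    have h3 : S.filter (fun i => cl i = y) = ∅ := by
      rw [filter_eq_empty_iff]
      intro i hi h
      exact h2 (mem_image.2 ⟨i, hi, h⟩)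
    rw [h3, sum_empty]
    ring
  rw [h1]
  apply sum_le_sum_of_subset_of_nonneg
  · intro y hy
    exact (mem_filter.1 hy).2
  · intro y _ _
    exact mul_nonneg (hw y) (sq_nonneg _)

lemma sum_sq_le_sq {ι : Type*} (S : Finset ι) (a : ι → ℝ) (ha : ∀ i ∈ S, 0 ≤ a i) : ∑ i ∈ S, a i ^ 2 ≤ (∑ i ∈ S, a i) ^ 2 := by
  classical
  induction S using Finset.induction_on with
  | empty => simp
  | insert i S hi ih =>
    rw [sum_insert hi, sum_insert hi]
    have h1 := ih fun j hj => ha j (mem_insert_of_mem hj)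
    have h2 := ha i (mem_insert_self i S)
    have h3 : 0 ≤ ∑ j ∈ S, a j := sum_nonneg fun j hj => ha j (mem_insert_of_mem hj)
    nlinarith [mul_nonneg h2 h3]

/-- a crude bound -/
lemma partA {w : ℕ → ℝ} (hw : ∀ y, 0 ≤ w y) (S : Finset ℕ) (cl : ℕ → ℕ) (g s : ℕ → ℝ) (hg : ∀ n ∈ S, 0 ≤ g n)
    (hs0 : ∀ n ∈ S, 0 ≤ s n) (hs : ∀ n ∈ S, w (cl n) ≤ s n ^ 2) : QQ w S cl g ≤ (∑ n ∈ S, g n * s n) ^ 2 := by
  classical
  unfold QQ
  have h1 : ∀ y ∈ S.image cl, w y * (∑ i ∈ S.filter (fun i => cl i = y), |g i|) ^ 2 ≤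
      (∑ i ∈ S.filter (fun i => cl i = y), g i * s i) ^ 2 := by
    intro y _
    have e1 : w y * (∑ i ∈ S.filter (fun i => cl i = y), |g i|) ^ 2 =
        (∑ i ∈ S.filter (fun i => cl i = y), |g i| * Real.sqrt (w y)) ^ 2 := by
      rw [← sum_mul, mul_pow, Real.sq_sqrt (hw y)]
      ring
    rw [e1]
    apply pow_le_pow_left₀ (sum_nonneg fun i _ => mul_nonneg (abs_nonneg _) (Real.sqrt_nonneg _))
    apply sum_le_sum
    intro i hi
    rw [mem_filter] at hi
    rw [abs_of_nonneg (hg i hi.1)]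
    apply mul_le_mul_of_nonneg_left _ (hg i hi.1)
    rw [Real.sqrt_le_left (hs0 i hi.1), ← hi.2]
    exact hs i hi.1
  refine (sum_le_sum h1).trans ?_
  refine (sum_sq_le_sq _ _ fun y _ => ?_).trans (le_of_eq ?_)
  · exact sum_nonneg fun i hi => mul_nonneg (hg i (mem_filter.1 hi).1) (hs0 i (mem_filter.1 hi).1)
  · congr 1
    exact sum_fiberwise_of_maps_to (fun i hi => mem_image_of_mem _ hi) _

/-- products -/
lemma partB {w : ℕ → ℝ} (hw : ∀ y, 0 ≤ w y) (S : Finset ℕ) (cl : ℕ → ℕ) (F V G r : ℕ → ℝ) (n1 n2 : ℕ → ℕ)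
    (clm : ℕ → ℕ → ℕ) (Qb : ℝ) (hV : ∀ a ∈ S.image n1, 0 ≤ V a) (hG : ∀ k ∈ S.image n2, 0 ≤ G k)
    (hr : ∀ k ∈ S.image n2, 0 < r k)
    (hinj : ∀ n ∈ S, ∀ n' ∈ S, n1 n = n1 n' → n2 n = n2 n' → n = n')
    (hF : ∀ n ∈ S, |F n| ≤ V (n1 n) * G (n2 n)) (hcl : ∀ n ∈ S, cl n = clm (n2 n) (n1 n))
    (hQb : ∀ k ∈ S.image n2, QQ w (S.image n1) (clm k) V ≤ r k ^ 2 * Qb) :
    QQ w S cl F ≤ (∑ k ∈ S.image n2, G k * r k) ^ 2 * Qb := by
  classical
  obtain ⟨K, hK⟩ : ∃ K, K = S.image n2 := ⟨_, rfl⟩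
  obtain ⟨A, hA⟩ : ∃ A, A = S.image n1 := ⟨_, rfl⟩
  rw [← hA] at hV hQb
  rw [← hK] at hG hr hQb ⊢
  obtain ⟨I, hI⟩ : ∃ I : ℕ → ℕ → ℝ, I = fun k y => ∑ a ∈ A.filter (fun a => clm k a = y), |V a| := ⟨_, rfl⟩
  have hI0 : ∀ k y, 0 ≤ I k y := fun k y => by rw [hI]; exact sum_nonneg fun _ _ => abs_nonneg _
  have h1 : ∀ y, ∑ n ∈ S.filter (fun n => cl n = y), |F n| ≤ ∑ k ∈ K, G k * I k y := by
    intro y
    have e1 : ∑ k ∈ K, G k * I k y = ∑ x ∈ (K ×ˢ A).filter (fun x => clm x.1 x.2 = y), G x.1 * |V x.2| := by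
      rw [sum_filter, sum_product]
      refine sum_congr rfl fun k _ => ?_
      rw [hI, mul_sum, sum_filter]
    rw [e1]
    have e2 : ∑ n ∈ S.filter (fun n => cl n = y), |F n| ≤ ∑ n ∈ S.filter (fun n => cl n = y), G (n2 n) * |V (n1 n)| := by
      apply sum_le_sum
      intro n hn
      rw [mem_filter] at hn
      refine (hF n hn.1).trans (le_of_eq ?_)
      rw [abs_of_nonneg (hV _ (by rw [hA]; exact mem_image_of_mem _ hn.1)), mul_comm]
    refine e2.trans ?_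
    have e3 : ∑ n ∈ S.filter (fun n => cl n = y), G (n2 n) * |V (n1 n)| =
        ∑ x ∈ (S.filter (fun n => cl n = y)).image (fun n => (n2 n, n1 n)), G x.1 * |V x.2| := by
      rw [sum_image]
      intro n hn n' hn' h
      simp only [Prod.mk.injEq] at h
      have a1 := (mem_filter.1 (mem_coe.1 hn)).1
      have a2 := (mem_filter.1 (mem_coe.1 hn')).1
      exact hinj n a1 n' a2 h.2 h.1
    rw [e3]
    apply sum_le_sum_of_subset_of_nonneg
    · intro x hx
      rw [mem_image] at hx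
      obtain ⟨n, hn, rfl⟩ := hx
      rw [mem_filter] at hn
      rw [mem_filter, mem_product]
      refine ⟨⟨?_, ?_⟩, ?_⟩
      · rw [hK]; exact mem_image_of_mem n2 hn.1
      · rw [hA]; exact mem_image_of_mem n1 hn.1
      · simp only
        rw [← hcl n hn.1]
        exact hn.2
    · intro x hx _
      rw [mem_filter, mem_product] at hx
      exact mul_nonneg (hG _ hx.1.1) (abs_nonneg _)
  have h2 : ∀ y, (∑ k ∈ K, G k * I k y) ^ 2 ≤ (∑ k ∈ K, G k * r k) * ∑ k ∈ K, G k / r k * I k y ^ 2 := by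
    intro y
    apply sum_sq_le_sum_mul_sum_of_sq_le_mul
    · intro k hk
      exact mul_nonneg (hG k hk) (hr k hk).le
    · intro k hk
      exact mul_nonneg (div_nonneg (hG k hk) (hr k hk).le) (sq_nonneg _)
    · intro k hk
      have := (hr k hk).ne'
      apply le_of_eq
      field_simp
  have hs0 : 0 ≤ ∑ k ∈ K, G k * r k := sum_nonneg fun k hk => mul_nonneg (hG k hk) (hr k hk).le
  calc QQ w S cl F ≤ ∑ y ∈ S.image cl, w y * ((∑ k ∈ K, G k * r k) * ∑ k ∈ K, G k / r k * I k y ^ 2) := by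
        unfold QQ
        apply sum_le_sum
        intro y _
        apply mul_le_mul_of_nonneg_left _ (hw y)
        refine le_trans ?_ (h2 y)
        exact pow_le_pow_left₀ (sum_nonneg fun _ _ => abs_nonneg _) (h1 y) 2
    _ = (∑ k ∈ K, G k * r k) * ∑ k ∈ K, G k / r k * ∑ y ∈ S.image cl, w y * I k y ^ 2 := by
        rw [mul_sum]
        have : ∀ k ∈ K, (∑ k ∈ K, G k * r k) * (G k / r k * ∑ y ∈ S.image cl, w y * I k y ^ 2) =
            ∑ y ∈ S.image cl, (∑ k ∈ K, G k * r k) * (w y * (G k / r k * I k y ^ 2)) := by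
          intro k _
          rw [mul_sum, mul_sum]
          exact sum_congr rfl fun y _ => by ring
        rw [sum_congr rfl this, sum_comm]
        refine sum_congr rfl fun y _ => ?_
        rw [← mul_sum, ← mul_sum]
        ring
    _ ≤ (∑ k ∈ K, G k * r k) * ∑ k ∈ K, G k / r k * (r k ^ 2 * Qb) := by
        apply mul_le_mul_of_nonneg_left _ hs0
        apply sum_le_sum
        intro k hk
        apply mul_le_mul_of_nonneg_left _ (div_nonneg (hG k hk) (hr k hk).le)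
        refine le_trans ?_ (hQb k hk)
        have := QQ_ge hw A (clm k) V (S.image cl)
        rw [hI]
        exact this
    _ = (∑ k ∈ K, G k * r k) * ((∑ k ∈ K, G k * r k) * Qb) := by
        congr 1
        rw [sum_mul]
        refine sum_congr rfl fun k hk => ?_
        have := (hr k hk).ne'
        field_simp
    _ = _ := by ring

end Pool.Agent.Q127.ET
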