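import Mathlib
import Pool.Agent.Q127.ET.Sums

/-!
# The main estimate: differences of the coefficients at the non squarefree numbers
-/

set_option autoImplicit false

open Finset MeasureTheory

namespace Pool.Agent.Q127.ET

open Pool.Agent.H469R10.HO Pool.Agent.H13R3.EM Pool.Agent.Q127.EZ

/-- primes in blocks -/
def blk (B : ℕ → Finset ℕ) : Set ℕ := {p | ∃ j, p ∈ B j}

section

variable {m : ℕ} {c lam e κ CJ CH : ℝ} {B : ℕ → Finset ℕ}

lemma bet_of_not_blk {b : ℕ → ℝ} {p : ℕ} (hp : p ∉ blk B) : bet c lam B b p = 0 := by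
  unfold bet
  rw [if_neg]
  exact fun h => hp ⟨_, h⟩

lemma bet_smul (t : ℝ) (b : ℕ → ℝ) (p : ℕ) : bet c lam B (fun j => t * b j) p = t * bet c lam B b p := by
  unfold bet
  split_ifs <;> ring

lemma bet_sub (b b' : ℕ → ℝ) (p : ℕ) : bet c lam B b p - bet c lam B b' p = bet c lam B (fun j => b j - b' j) p := by
  unfold bet
  split_ifs <;> ring

lemma abs_bet (x : ℕ → ℝ) (p : ℕ) : |bet c lam B x p| = bet c lam B (fun j => |x j|) p := by
  unfold bet
  split_ifs
  · rw [abs_div, Nat.abs_cast]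
  · simp

/-- the combined size -/
noncomputable def bt (τ : ℝ) (b b' : ℕ → ℝ) (j : ℕ) : ℝ := |b j| + |b' j| + τ * |b j - b' j|

lemma bet_bt (τ : ℝ) (b b' : ℕ → ℝ) (p : ℕ) : bet c lam B (bt τ b b') p =
    (|bet c lam B b p| + |bet c lam B b' p|) + τ * |bet c lam B b p - bet c lam B b' p| := by
  rw [bet_sub, abs_bet, abs_bet, abs_bet]
  unfold bet bt
  split_ifs
  · ring
  · ring

lemma bt_nonneg {τ : ℝ} (hτ : 0 ≤ τ) (b b' : ℕ → ℝ) (j : ℕ) : 0 ≤ bt τ b b' j := by
  unfold bt
  positivity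

lemma bet_nonneg {x : ℕ → ℝ} (hx : ∀ j, 0 ≤ x j) (p : ℕ) : 0 ≤ bet c lam B x p := by
  unfold bet
  split_ifs
  · exact div_nonneg (hx _) (Nat.cast_nonneg _)
  · exact le_rfl

lemma bt_ball (hc : 0 < c) (hc1 : c ≤ 1 / 10) {b b' : ℕ → ℝ} {ρ D τ : ℝ} (hτ : 0 < τ) (hD0 : 0 ≤ D) (hτD : τ * D ≤ ρ)
    (hb : ∀ J : ℕ, ∑ j ∈ range J, WW c j * b j ^ 2 ≤ ρ ^ 2) (hb' : ∀ J : ℕ, ∑ j ∈ range J, WW c j * b' j ^ 2 ≤ ρ ^ 2)
    (hD : ∀ J : ℕ, ∑ j ∈ range J, WW c j * (b j - b' j) ^ 2 ≤ D ^ 2) (J : ℕ) :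
    ∑ j ∈ range J, WW c j * bt τ b b' j ^ 2 ≤ 9 * ρ ^ 2 := by
  have hW := WW_pos hc hc1
  have h1 : ∀ j, WW c j * bt τ b b' j ^ 2 ≤ 3 * (WW c j * b j ^ 2) + 3 * (WW c j * b' j ^ 2) + 3 * τ ^ 2 * (WW c j * (b j - b' j) ^ 2) := by
    intro j
    have hw := (hW j).le
    have : bt τ b b' j ^ 2 ≤ 3 * b j ^ 2 + 3 * b' j ^ 2 + 3 * τ ^ 2 * (b j - b' j) ^ 2 := by
      unfold bt
      rw [← sq_abs (b j), ← sq_abs (b' j), ← sq_abs (b j - b' j)]
      nlinarith [sq_nonneg (|b j| - |b' j|), sq_nonneg (|b j| - τ * |b j - b' j|), sq_nonneg (|b' j| - τ * |b j - b' j|)]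
    calc WW c j * bt τ b b' j ^ 2 ≤ WW c j * (3 * b j ^ 2 + 3 * b' j ^ 2 + 3 * τ ^ 2 * (b j - b' j) ^ 2) :=
          mul_le_mul_of_nonneg_left this hw
      _ = _ := by ring
  refine (sum_le_sum fun j _ => h1 j).trans ?_
  rw [sum_add_distrib, sum_add_distrib, ← mul_sum, ← mul_sum, ← mul_sum]
  have a1 := hb J
  have a2 := hb' J
  have a3 := hD J
  have a4 : τ ^ 2 * D ^ 2 ≤ ρ ^ 2 := by
    rw [← mul_pow]
    exact pow_le_pow_left₀ (by positivity) hτD 2
  have a5 : 3 * τ ^ 2 * ∑ j ∈ range J, WW c j * (b j - b' j) ^ 2 ≤ 3 * τ ^ 2 * D ^ 2 :=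
    mul_le_mul_of_nonneg_left a3 (by positivity)
  nlinarith

/-- termwise bound in a ball -/
lemma ball_term (hc : 0 < c) (hc1 : c ≤ 1 / 10) {b : ℕ → ℝ} {ρ : ℝ}
    (hb : ∀ J : ℕ, ∑ j ∈ range J, WW c j * b j ^ 2 ≤ ρ ^ 2) (j : ℕ) : WW c j * b j ^ 2 ≤ ρ ^ 2 := by
  have h1 := hb (j + 1)
  rw [sum_range_succ] at h1
  have h2 : 0 ≤ ∑ i ∈ range j, WW c i * b i ^ 2 :=
    sum_nonneg fun i _ => mul_nonneg (WW_pos hc hc1 i).le (sq_nonneg _)
  linarith

/-- the bound of the prime coefficients -/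
def PB (c : ℝ) (m : ℕ) (B : ℕ → Finset ℕ) : Prop := ∀ b : ℕ → ℝ, (∀ j, WW c j * b j ^ 2 ≤ 1) → ∀ p : ℕ, p.Prime →
    |bet c (lamH m) B b p| ≤ (p : ℝ) ^ (-(1 / 2 + m / lamH m))

lemma xb_le (hP : PB c m B) (hB : ∀ j, ∀ p ∈ B j, p.Prime) (hc : 0 < c) (hc1 : c ≤ 1 / 10) {b : ℕ → ℝ} {ρ : ℝ}
    (hρ : 9 * ρ ^ 2 ≤ 1) (hb : ∀ J : ℕ, ∑ j ∈ range J, WW c j * b j ^ 2 ≤ ρ ^ 2) (p : ℕ) : |xb c m B b p| ≤ 1 / 3 := by
  by_cases hp : p.Prime
  · have h1 := hP (fun j => 3 * b j) (fun j => by
      have := ball_term hc hc1 hb j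
      have e : WW c j * (3 * b j) ^ 2 = 9 * (WW c j * b j ^ 2) := by ring
      rw [e]
      linarith) p hp
    rw [bet_smul, abs_mul, abs_of_pos (show (0:ℝ) < 3 by norm_num)] at h1
    have hp0 : (0:ℝ) < p := by exact_mod_cast hp.pos
    unfold xb
    rw [abs_mul, abs_of_pos (Real.rpow_pos_of_pos hp0 _)]
    have h2 : (p:ℝ) ^ (-(1 / 2 + m / lamH m)) * (p:ℝ) ^ kap m = 1 := by
      rw [← Real.rpow_add hp0]
      have : -(1 / 2 + m / lamH m) + kap m = 0 := by unfold kap; ring
      rw [this, Real.rpow_zero]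
    have h3 := mul_le_mul_of_nonneg_right h1 (Real.rpow_nonneg hp0.le (kap m))
    rw [h2] at h3
    linarith
  · have : bet c (lamH m) B b p = 0 := by
      apply bet_of_not_blk
      rintro ⟨j, hj⟩
      exact hp (hB j p hj)
    unfold xb
    rw [this]
    norm_num

/-- the majorant of a difference -/
lemma diff_le (h1 : S_Loc1) (hS : TaskS) (b b' : ℕ → ℝ) {τ : ℝ} (hτ : 0 < τ)
    (hx : ∀ p, |xb c m B b p| ≤ 1) (hx' : ∀ p, |xb c m B b' p| ≤ 1) (hd : ∀ p, τ * |xb c m B b p - xb c m B b' p| ≤ 1)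
    {n : ℕ} (hn : n ≠ 0) :
    τ * |(atc m (xb c m B b) n - atc m (xb c m B b') n) * (n : ℝ) ^ (-kap m)| ≤
      (∏ p ∈ (sq1 n).primeFactors, bet c (lamH m) B (bt τ b b') p) * Gf m (blk B) (kap m) (pw2 n) := by
  classical
  obtain ⟨-, -, -, h4, h5, -, h7, h8⟩ := h1
  rw [← maj_split m (blk B) (kap m) _ hn]
  have e1 : ∀ x : ℕ → ℝ, atc m x n * (n : ℝ) ^ (-kap m) =
      ∏ p ∈ n.primeFactors, Al m (x p) (n.factorization p) * (p : ℝ) ^ (-kap m * n.factorization p) := by
    intro x
    unfold atc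
    rw [if_neg hn, rpow_eq_prod hn, ← prod_mul_distrib]
  rw [sub_mul, e1, e1]
  obtain ⟨M, hM⟩ : ∃ M : ℕ → ℝ, M = fun p => if n.factorization p = 1 then |bet c (lamH m) B b p| + |bet c (lamH m) B b' p|
      else ((if (4 * m + 3) ∣ n.factorization p then 1 else 0) + (blk B).indicator (fun _ => (1 : ℝ)) p * 4 ^ n.factorization p) *
        (p : ℝ) ^ (-kap m * n.factorization p) := ⟨_, rfl⟩
  obtain ⟨Dd, hDd⟩ : ∃ Dd : ℕ → ℝ, Dd = fun p => if n.factorization p = 1 then |bet c (lamH m) B b p - bet c (lamH m) B b' p|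
      else (8 ^ n.factorization p * |xb c m B b p - xb c m B b' p|) * (p : ℝ) ^ (-kap m * n.factorization p) := ⟨_, rfl⟩
  have hone : ∀ (x : ℕ → ℝ) (p : ℕ), p ∈ n.primeFactors → n.factorization p = 1 →
      Al m (xb c m B x p) (n.factorization p) * (p : ℝ) ^ (-kap m * n.factorization p) = bet c (lamH m) B x p := by
    intro x p hp hv
    have hp0 : (0:ℝ) < p := by exact_mod_cast Nat.pos_of_mem_primeFactors hp
    rw [hv, (h4 m _).2]
    unfold xb
    rw [mul_assoc, ← Real.rpow_add hp0]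
    have : kap m + -kap m * ((1:ℕ) : ℝ) = 0 := by push_cast; ring
    rw [this, Real.rpow_zero, mul_one]
  have hbd : ∀ (x : ℕ → ℝ), (∀ p, |xb c m B x p| ≤ 1) → ∀ p ∈ n.primeFactors, ¬ n.factorization p = 1 →
      |Al m (xb c m B x p) (n.factorization p) * (p : ℝ) ^ (-kap m * n.factorization p)| ≤ M p := by
    intro x hx p hp hv
    have hp0 : (0:ℝ) < p := by exact_mod_cast Nat.pos_of_mem_primeFactors hp
    rw [abs_mul, abs_of_pos (Real.rpow_pos_of_pos hp0 _), hM]
    simp only
    rw [if_neg hv]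
    apply mul_le_mul_of_nonneg_right _ (Real.rpow_nonneg hp0.le _)
    have g1 := h7 m (xb c m B x p) (hx p) (n.factorization p)
    have g2 : |xb c m B x p| ≤ (blk B).indicator (fun _ => (1 : ℝ)) p := by
      by_cases hb : p ∈ blk B
      · rw [Set.indicator_of_mem hb]; exact hx p
      · rw [Set.indicator_of_notMem hb]
        unfold xb
        rw [bet_of_not_blk hb]
        simp
    have g3 : |Al m 0 (n.factorization p)| ≤ if (4 * m + 3) ∣ n.factorization p then 1 else 0 := by
      rw [h5]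
      split_ifs <;> simp
    have g4 : |Al m (xb c m B x p) (n.factorization p)| ≤
        |Al m (xb c m B x p) (n.factorization p) - Al m 0 (n.factorization p)| + |Al m 0 (n.factorization p)| := by
      have := abs_add_le (Al m (xb c m B x p) (n.factorization p) - Al m 0 (n.factorization p)) (Al m 0 (n.factorization p))
      rwa [sub_add_cancel] at this
    have g5 : (4:ℝ) ^ n.factorization p * |xb c m B x p| ≤ (blk B).indicator (fun _ => (1 : ℝ)) p * 4 ^ n.factorization p := by
      rw [mul_comm]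
      exact mul_le_mul_of_nonneg_right g2 (by positivity)
    linarith
  have key := hS n.primeFactors (fun p => Al m (xb c m B b p) (n.factorization p) * (p : ℝ) ^ (-kap m * n.factorization p))
    (fun p => Al m (xb c m B b' p) (n.factorization p) * (p : ℝ) ^ (-kap m * n.factorization p)) M Dd τ hτ ?_ ?_ ?_
  · refine key.trans ?_
    apply prod_le_prod
    · intro p hp
      rw [hM, hDd]
      simp only
      split_ifs with hv
      · positivity
      · have hp0 : (0:ℝ) < p := by exact_mod_cast Nat.pos_of_mem_primeFactors hp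
        have : 0 ≤ (blk B).indicator (fun _ => (1 : ℝ)) p := Set.indicator_nonneg (fun _ _ => zero_le_one) _
        positivity
      · have hp0 : (0:ℝ) < p := by exact_mod_cast Nat.pos_of_mem_primeFactors hp
        have : 0 ≤ (blk B).indicator (fun _ => (1 : ℝ)) p := Set.indicator_nonneg (fun _ _ => zero_le_one) _
        positivity
    · intro p hp
      rw [hM, hDd]
      simp only
      by_cases hv : n.factorization p = 1
      · rw [if_pos hv, if_pos hv, if_pos hv, bet_bt]
      · rw [if_neg hv, if_neg hv, if_neg hv]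
        have hp0 : (0:ℝ) < p := by exact_mod_cast Nat.pos_of_mem_primeFactors hp
        have hv0 : n.factorization p ≠ 0 := by
          have := Nat.support_factorization n
          rw [← this, Finsupp.mem_support_iff] at hp
          exact hp
        unfold Gp
        have e2 : -kap m * (n.factorization p : ℝ) = -(kap m * (n.factorization p : ℝ)) := by ring
        rw [e2]
        have g1 : τ * (8 ^ n.factorization p * |xb c m B b p - xb c m B b' p|) ≤
            (blk B).indicator (fun _ => (1 : ℝ)) p * 8 ^ n.factorization p := by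
          by_cases hb : p ∈ blk B
          · rw [Set.indicator_of_mem hb]
            have := hd p
            calc τ * (8 ^ n.factorization p * |xb c m B b p - xb c m B b' p|) =
                8 ^ n.factorization p * (τ * |xb c m B b p - xb c m B b' p|) := by ring
              _ ≤ 8 ^ n.factorization p * 1 := by gcongr
              _ = _ := by ring
          · rw [Set.indicator_of_notMem hb]
            unfold xb
            rw [bet_of_not_blk hb, bet_of_not_blk hb]
            simp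
        have g2 : (4:ℝ) ^ n.factorization p + 8 ^ n.factorization p ≤ 16 ^ n.factorization p := by
          have h8 : (0:ℝ) < 8 ^ n.factorization p := by positivity
          have h48 : (4:ℝ) ^ n.factorization p ≤ 8 ^ n.factorization p := pow_le_pow_left₀ (by norm_num) (by norm_num) _
          have h16 : (16:ℝ) ^ n.factorization p = 2 ^ n.factorization p * 8 ^ n.factorization p := by
            rw [← mul_pow]; norm_num
          have h2 : (2:ℝ) ≤ 2 ^ n.factorization p := by
            calc (2:ℝ) = 2 ^ 1 := by norm_num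
              _ ≤ _ := pow_le_pow_right₀ (by norm_num) (by omega)
          rw [h16]
          nlinarith
        have g3 : 0 ≤ (blk B).indicator (fun _ => (1 : ℝ)) p := Set.indicator_nonneg (fun _ _ => zero_le_one) _
        have g4 := mul_le_mul_of_nonneg_left g2 g3
        have g5 : ((if (4 * m + 3) ∣ n.factorization p then (1:ℝ) else 0) + (blk B).indicator (fun _ => (1 : ℝ)) p * 4 ^ n.factorization p) +
            τ * (8 ^ n.factorization p * |xb c m B b p - xb c m B b' p|) ≤
            (if (4 * m + 3) ∣ n.factorization p then (1:ℝ) else 0) + (blk B).indicator (fun _ => (1 : ℝ)) p * 16 ^ n.factorization p := by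
          linarith
        have g6 := mul_le_mul_of_nonneg_right g5 (Real.rpow_nonneg hp0.le (-(kap m * (n.factorization p : ℝ))))
        refine le_trans (le_of_eq ?_) g6
        ring
  · intro p hp
    by_cases hv : n.factorization p = 1
    · rw [hone b p hp hv, hM]
      simp only
      rw [if_pos hv]
      exact le_add_of_nonneg_right (abs_nonneg _)
    · exact hbd b hx p hp hv
  · intro p hp
    by_cases hv : n.factorization p = 1
    · rw [hone b' p hp hv, hM]
      simp only
      rw [if_pos hv]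
      exact le_add_of_nonneg_left (abs_nonneg _)
    · exact hbd b' hx' p hp hv
  · intro p hp
    by_cases hv : n.factorization p = 1
    · rw [hone b p hp hv, hone b' p hp hv, hDd]
      simp only
      rw [if_pos hv]
    · have hp0 : (0:ℝ) < p := by exact_mod_cast Nat.pos_of_mem_primeFactors hp
      rw [← sub_mul, abs_mul, abs_of_pos (Real.rpow_pos_of_pos hp0 _), hDd]
      simp only
      rw [if_neg hv]
      exact mul_le_mul_of_nonneg_right (h8 m _ _ (hx p) (hx' p) _) (Real.rpow_nonneg hp0.le _)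

end

end Pool.Agent.Q127.ET
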