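import Mathlib
import Pool.Agent.Q127.ET.Ex

/-!
# The main estimate, conclusion
-/

set_option autoImplicit false

open Finset MeasureTheory

namespace Pool.Agent.Q127.ET

open Pool.Agent.H469R10.HO Pool.Agent.H13R3.EM Pool.Agent.Q127.EZ

section

variable {m : ℕ} {c e κ CJ CH : ℝ} {B : ℕ → Finset ℕ}

lemma QQ_filter {w : ℕ → ℝ} (hw : ∀ y, 0 ≤ w y) (S : Finset ℕ) (cl : ℕ → ℕ) (F : ℕ → ℝ) (T : ℕ → Prop) [DecidablePred T] :
    QQ w S cl (fun n => if T n then F n else 0) ≤ QQ w (S.filter T) cl F := by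
  classical
  refine le_trans (le_of_eq ?_) (QQ_ge hw (S.filter T) cl F (S.image cl))
  unfold QQ
  refine sum_congr rfl fun y _ => ?_
  congr 2
  rw [filter_comm, sum_filter (s := S.filter (fun i => cl i = y))]
  refine sum_congr rfl fun i _ => ?_
  show |if T i then F i else 0| = if T i then |F i| else 0
  split_ifs
  · rfl
  · exact abs_zero

lemma QQ_zero {w : ℕ → ℝ} (S : Finset ℕ) (cl : ℕ → ℕ) : QQ w S cl (fun _ => 0) = 0 := by
  unfold QQ
  simp

lemma QQ_le_of {w : ℕ → ℝ} (hw : ∀ y, 0 ≤ w y) (S : Finset ℕ) (cl : ℕ → ℕ) {F G : ℕ → ℝ} (h : ∀ n ∈ S, |F n| ≤ G n) :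
    QQ w S cl F ≤ QQ w S cl G := by
  have := QQ_mono (β := G) (γ := F) (C := 1) hw S cl (fun i hi => by
    rw [one_mul]
    exact (h i hi).trans (le_abs_self _))
  rwa [one_pow, one_mul] at this

/-- the squarefree part -/
lemma partV (h : Hyp c (lamH m) e κ CJ CH B m) {x : ℕ → ℝ} (hx0 : ∀ j, 0 ≤ x j) {ρ : ℝ} (hρ : 9 * ρ ^ 2 ≤ 1)
    (hCH : CH * 81 * ρ ^ 2 ≤ 1) (hx : ∀ J : ℕ, ∑ j ∈ range J, WW c j * x j ^ 2 ≤ 9 * ρ ^ 2) (N : Finset ℕ)
    (hN : ∀ a ∈ N, Squarefree a ∧ a ≠ 1) :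
    QQ (WW c) N (jj c (lamH m)) (fun a => ∏ p ∈ a.primeFactors, bet c (lamH m) B x p) ≤ 30 * ρ ^ 2 := by
  classical
  have hW := fun j => (WW_pos h.hc h.hc1 j).le
  have hx' : ∀ J : ℕ, ∑ j ∈ range J, WW c j * (x j - (fun _ => (0:ℝ)) j) ^ 2 ≤ (3 * ρ) ^ 2 := by
    intro J
    have := hx J
    simp only [sub_zero]
    linarith
  have g1 := h.QQ_gg hx' N
  obtain ⟨W, hWd⟩ : ∃ W : ℕ → ℝ, W = fun a => ∏ p ∈ a.primeFactors, bet c (lamH m) B x p := ⟨_, rfl⟩
  have hW0 : ∀ a, 0 ≤ W a := fun a => by rw [hWd]; exact prod_nonneg fun p _ => bet_nonneg hx0 p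
  have g2 : QQ (WW c) N (jj c (lamH m)) (fun a => if 2 ≤ a.primeFactors.card then W a else 0) ≤ CH * (9 * ρ ^ 2) ^ 2 := by
    refine (QQ_filter hW N _ W (fun a => 2 ≤ a.primeFactors.card)).trans ?_
    have hkey := h.hH x (bet c (lamH m) B x) hx0 (fun j p hp => h.bet_mem x hp) (fun p hp => Hyp.bet_not x hp)
      (9 * ρ ^ 2) hρ hx (N.filter (fun a => 2 ≤ a.primeFactors.card)) (fun n hn => by
        rw [mem_filter] at hn
        exact ⟨(hN n hn.1).1, hn.2⟩)
    set N2 := N.filter (fun a => 2 ≤ a.primeFactors.card) with hN2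
    refine le_trans ?_ (hkey ((N2.image (jj c (lamH m))).sup id + 1))
    unfold QQ
    refine le_trans (le_of_eq ?_) (sum_le_sum_of_subset_of_nonneg (s := N2.image (jj c (lamH m))) ?_ ?_)
    · refine sum_congr rfl fun y _ => ?_
      congr 2
      change ∑ i ∈ N2.filter (fun i => jj c (lamH m) i = y), |W i| = ∑ i ∈ N2.filter (fun i => jj c (lamH m) i = y), _
      refine sum_congr rfl fun a _ => ?_
      rw [abs_of_nonneg (hW0 a), hWd]
    · intro y hy
      rw [mem_range]
      have : id y ≤ (N2.image (jj c (lamH m))).sup id := le_sup hy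
      simp only [id] at this
      omega
    · intro y _ _
      exact mul_nonneg (hW y) (sq_nonneg _)
  have g4 := QQ_add3 (γ := W) (a := Hyp.gg c (lamH m) B x (fun _ => 0))
    (b := fun a => if 2 ≤ a.primeFactors.card then W a else 0) (d := fun _ => 0) hW N (jj c (lamH m)) ?_
  · rw [QQ_zero] at g4
    rw [← hWd]
    have e1 : CH * (9 * ρ ^ 2) ^ 2 = (CH * 81 * ρ ^ 2) * ρ ^ 2 := by ring
    have e2 : (CH * 81 * ρ ^ 2) * ρ ^ 2 ≤ 1 * ρ ^ 2 := mul_le_mul_of_nonneg_right hCH (sq_nonneg _)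
    linarith
  · intro a ha
    obtain ⟨hs, ha1⟩ := hN a ha
    have ha0 : a ≠ 0 := hs.ne_zero
    simp only [abs_zero, add_zero]
    by_cases hc2 : 2 ≤ a.primeFactors.card
    · rw [if_pos hc2]
      exact le_add_of_nonneg_left (abs_nonneg _)
    · rw [if_neg hc2, abs_zero, add_zero]
      have h3 : ∏ p ∈ a.primeFactors, p = a := Nat.prod_primeFactors_of_squarefree hs
      have h4 : a.primeFactors.card ≠ 0 := by
        intro h4
        rw [card_eq_zero] at h4
        rw [h4] at h3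
        simp at h3
        exact ha1 h3.symm
      have h5 : a.primeFactors.card = 1 := by omega
      obtain ⟨p, hp2⟩ := card_eq_one.1 h5
      rw [hp2, prod_singleton] at h3
      have hp : p ∈ a.primeFactors := by rw [hp2]; exact mem_singleton_self p
      have hpp := Nat.prime_of_mem_primeFactors hp
      subst h3
      have e1 : W p = bet c (lamH m) B x p := by rw [hWd]; simp only; rw [hp2, prod_singleton]
      rw [e1]
      by_cases hB : p ∈ B (jj c (lamH m) p)
      · unfold Hyp.gg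
        rw [if_pos (Or.inr hB), Hyp.alp_prime x hpp, Hyp.alp_prime _ hpp]
        have : bet c (lamH m) B (fun _ => 0) p = 0 := by unfold bet; split_ifs <;> simp
        rw [this, sub_zero]
      · have : bet c (lamH m) B x p = 0 := by unfold bet; rw [if_neg hB]
        rw [this, abs_zero]
        exact abs_nonneg _

lemma WW_big (hc : 0 < c) (hc1 : c ≤ 1 / 10) {y : ℝ} (hy : 1 / c ≤ y) : WW c (cell (c * y)) ≤ (32 * y ^ 2) ^ 2 := by
  have hy10 : 10 ≤ y := by
    refine le_trans ?_ hy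
    rw [le_div_iff₀ hc]
    linarith
  have hcy : 0 ≤ c * y := by positivity
  have h1 : (cell (c * y) : ℝ) ≤ 2 / Real.pi * (c * y) + 1 / 2 := by
    unfold cell
    exact Nat.floor_le (by have := Real.pi_pos; positivity)
  have h2 : 2 / Real.pi ≤ 1 := by
    rw [div_le_one Real.pi_pos]
    linarith [Real.pi_gt_three]
  have h3 : c * y ≤ 1 / 10 * y := mul_le_mul_of_nonneg_right hc1 (by linarith)
  have h4 : (1 + (cell (c * y) : ℝ)) ≤ y := by
    have : 2 / Real.pi * (c * y) ≤ 1 * (c * y) := mul_le_mul_of_nonneg_right h2 hcy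
    linarith
  have h0 : (0:ℝ) ≤ cell (c * y) := Nat.cast_nonneg _
  unfold WW
  have h5 : (1 + (cell (c * y) : ℝ)) / c ≤ y * y := by
    calc (1 + (cell (c * y) : ℝ)) / c = (1 + (cell (c * y) : ℝ)) * (1 / c) := by ring
      _ ≤ y * y := mul_le_mul h4 hy (by positivity) (by linarith)
  have h6 : 0 ≤ Real.log ((1 + (cell (c * y) : ℝ)) / c) := by
    apply Real.log_nonneg
    rw [le_div_iff₀ hc]
    linarith
  have h7 : Real.log ((1 + (cell (c * y) : ℝ)) / c) ≤ 4 * (y * y) ^ (1 / 4 : ℝ) := by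
    refine (Real.log_le_log (by positivity) h5).trans ?_
    have := Real.log_le_rpow_div (x := y * y) (by positivity) (ε := 1 / 4) (by norm_num)
    linarith
  have h8 : Real.log ((1 + (cell (c * y) : ℝ)) / c) ^ 4 ≤ 256 * (y * y) := by
    refine (pow_le_pow_left₀ h6 h7 4).trans (le_of_eq ?_)
    rw [mul_pow, ← Real.rpow_natCast ((y * y) ^ (1 / 4 : ℝ)), ← Real.rpow_mul (by positivity)]
    norm_num
  calc (1 + (cell (c * y) : ℝ)) * Real.log ((1 + (cell (c * y) : ℝ)) / c) ^ 4 ≤ y * (256 * (y * y)) :=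
        mul_le_mul h4 h8 (by positivity) (by linarith)
    _ = 256 * y ^ 3 * 1 := by ring
    _ ≤ 256 * y ^ 3 * (4 * y) := by
        apply mul_le_mul_of_nonneg_left _ (by positivity)
        linarith
    _ = (32 * y ^ 2) ^ 2 := by ring

/-- **the main estimate** -/
theorem ex_main (h1 : S_Loc1) (h2 : S_Scale) (h3 : S_Pow1) (h4 : S_Pow2) : S_Ex := by
  classical
  intro ε hε
  set ε₁ : ℝ := Real.sqrt (ε / 36000) with hε₁
  have hε₁0 : 0 < ε₁ := Real.sqrt_pos.2 (by positivity)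
  have hε₁2 : ε₁ ^ 2 = ε / 36000 := Real.sq_sqrt (by positivity)
  obtain ⟨m₁, hm₁⟩ := h3 ε₁ hε₁0
  refine ⟨max m₁ 7, fun m hm CH η ρ hη hρ0 hρ hCH => ?_⟩
  have hm1 : m₁ ≤ m := (le_max_left _ _).trans hm
  have hm7 : 7 ≤ m := (le_max_right _ _).trans hm
  have hmR : (7:ℝ) ≤ m := by exact_mod_cast hm7
  have hl := lam_pos m
  have hl1 : 1 ≤ lamH m := by linarith [lam_ge m]
  obtain ⟨P₁, hP₁⟩ := hm₁ m hm1
  set ε₂ : ℝ := Real.sqrt (ε * ρ ^ 2 / 6144) with hε₂
  have hε₂0 : 0 < ε₂ := Real.sqrt_pos.2 (by positivity)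
  have hε₂2 : ε₂ ^ 2 = ε * ρ ^ 2 / 6144 := Real.sq_sqrt (by positivity)
  obtain ⟨P₂, hP₂⟩ := h4 m ε₂ hε₂0
  obtain ⟨cP, hcP, hP⟩ := primeH m (by omega) η hη
  set P : ℕ := max P₁ P₂ with hPdef
  refine ⟨min (1 / (2 * ((P : ℝ) + 1))) cP, lt_min (by positivity) hcP, fun c hc hcc e κ CJ B h hB2 => ?_⟩
  have hcc1 : c ≤ 1 / (2 * ((P : ℝ) + 1)) := hcc.trans (min_le_left _ _)
  have hcc2 : c ≤ cP := hcc.trans (min_le_right _ _)
  have hc1 := h.hc1
  have hW := fun j => (WW_pos hc hc1 j).le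
  have hBh : ∀ j, ∀ p ∈ B j, 1 ≤ j ∧ p.Prime ∧ |uu c (lamH m) p - xx j| ≤ 1 / 2 :=
    fun j p hp => ⟨(h.hB j p hp).1, (h.hB j p hp).2.1, (h.hB j p hp).2.2.trans h.he⟩
  have hBp : ∀ j, ∀ p ∈ B j, p.Prime := fun j p hp => (hBh j p hp).2.1
  have hPB : PB c m B := fun b hb p hp => hP c hc hcc2 B hBh hB2 b hb p hp
  -- the primes in the blocks are large
  have hub : ∀ p ∈ blk B, 1 ≤ uu c (lamH m) p := by
    rintro p ⟨j, hj⟩
    obtain ⟨hj1, -, hj3⟩ := hBh j p hj
    have h5 : xx 1 ≤ xx j := by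
      unfold xx
      have : ((1:ℕ):ℝ) ≤ j := by exact_mod_cast hj1
      have := Real.pi_pos
      gcongr
    have h6 : (3:ℝ) / 2 ≤ xx 1 := by
      unfold xx
      have := Real.pi_gt_three
      push_cast
      linarith
    rw [abs_le] at hj3
    linarith [hj3.1]
  have hPb : ∀ p ∈ blk B, P ≤ p := by
    intro p hp
    by_contra hcon
    push Not at hcon
    have h5 := hub p hp
    unfold uu at h5
    obtain ⟨j, hj⟩ := hp
    have hp1 : (1:ℝ) ≤ p := by exact_mod_cast (hBp j p hj).one_lt.le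
    have h6 : (p:ℝ) ^ (1 / lamH m) ≤ p := by
      calc (p:ℝ) ^ (1 / lamH m) ≤ (p:ℝ) ^ (1:ℝ) :=
            Real.rpow_le_rpow_of_exponent_le hp1 (by rw [div_le_one hl]; exact hl1)
        _ = p := Real.rpow_one _
    have h7 : (p:ℝ) ≤ P := by exact_mod_cast hcon.le
    have h8 : c * (p:ℝ) ^ (1 / lamH m) ≤ 1 / (2 * ((P : ℝ) + 1)) * (P + 1) := by
      apply mul_le_mul hcc1 (by linarith) (by positivity) (by positivity)
    have h9 : 1 / (2 * ((P : ℝ) + 1)) * (P + 1) = 1 / 2 := by field_simp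
    linarith
  -- exponents
  obtain ⟨σ, hσ⟩ : ∃ σ : ℝ, σ = kap m - 2 / lamH m := ⟨_, rfl⟩
  have hσ4 : 4 / 5 ≤ σ := by
    rw [hσ]
    unfold kap
    have e1 : 1 / 2 + (m:ℝ) / lamH m - 2 / lamH m = 1 / 2 + ((m:ℝ) - 2) / lamH m := by ring
    rw [e1]
    have : 3 / 10 ≤ ((m:ℝ) - 2) / lamH m := by
      rw [le_div_iff₀ hl]
      unfold lamH
      linarith
    linarith
  have hxb : ∀ b : ℕ → ℝ, (∀ J : ℕ, ∑ j ∈ range J, WW c j * b j ^ 2 ≤ ρ ^ 2) → ∀ p : ℕ, |xb c m B b p| ≤ 1 / 3 :=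
    fun b hb p => xb_le hPB hBp hc hc1 hρ hb p
  refine ⟨⟨?_, ?_, ?_⟩, fun b hb p => (hxb b hb p).trans (by norm_num)⟩
  · intro n
    unfold exT
    split_ifs
    · rfl
    · have : xb c m B (fun _ => 0) = fun _ => 0 := by
        funext p
        unfold xb bet
        split_ifs <;> simp
      rw [this, sub_self, zero_mul]
  · intro b n hn
    unfold exT
    rw [if_pos hn]
  · intro b b' D hD0 hb hb' hD S
    rcases hD0.eq_or_lt with hD00 | hDpos
    · have hbb : b = b' := by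
        funext j
        have h1 := hD (j + 1)
        rw [← hD00] at h1
        have h2 : WW c j * (b j - b' j) ^ 2 ≤ ∑ i ∈ range (j + 1), WW c i * (b i - b' i) ^ 2 :=
          single_le_sum (f := fun i => WW c i * (b i - b' i) ^ 2) (fun i _ => mul_nonneg (hW i) (sq_nonneg _))
            (mem_range.2 (Nat.lt_succ_self j))
        have h3 : (b j - b' j) ^ 2 ≤ 0 := by
          have := WW_pos hc hc1 j
          nlinarith
        have h4 : b j - b' j = 0 := by nlinarith
        linarith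
      subst hbb
      simp only [sub_self]
      rw [QQ_zero]
      positivity
    set τ : ℝ := ρ / D with hτ
    have hτ0 : 0 < τ := by positivity
    have hτD : τ * D = ρ := by rw [hτ]; field_simp
    have hx : ∀ p, |xb c m B b p| ≤ 1 := fun p => (hxb b hb p).trans (by norm_num)
    have hx' : ∀ p, |xb c m B b' p| ≤ 1 := fun p => (hxb b' hb' p).trans (by norm_num)
    have hd : ∀ p, τ * |xb c m B b p - xb c m B b' p| ≤ 1 := by
      intro p
      have g1 := hxb (fun j => τ * (b j - b' j)) (fun J => by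
        have e1 : ∀ j, WW c j * (τ * (b j - b' j)) ^ 2 = τ ^ 2 * (WW c j * (b j - b' j) ^ 2) := fun j => by ring
        simp_rw [e1]
        rw [← mul_sum]
        calc τ ^ 2 * ∑ j ∈ range J, WW c j * (b j - b' j) ^ 2 ≤ τ ^ 2 * D ^ 2 :=
              mul_le_mul_of_nonneg_left (hD J) (sq_nonneg _)
          _ = ρ ^ 2 := by rw [← mul_pow, hτD]) p
      have e2 : xb c m B (fun j => τ * (b j - b' j)) p = τ * (xb c m B b p - xb c m B b' p) := by
        unfold xb
        rw [bet_smul, ← bet_sub]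
        ring
      rw [e2, abs_mul, abs_of_pos hτ0] at g1
      linarith
    have hmaj := fun (n : ℕ) (hn : n ≠ 0) => diff_le (c := c) (B := B) h1 h.hS b b' hτ0 hx hx' hd hn
    obtain ⟨V, hV⟩ : ∃ V : ℕ → ℝ, V = fun a => ∏ p ∈ a.primeFactors, bet c (lamH m) B (bt τ b b') p := ⟨_, rfl⟩
    have hV0 : ∀ a, 0 ≤ V a := fun a => by
      rw [hV]; exact prod_nonneg fun p _ => bet_nonneg (bt_nonneg hτ0.le b b') p
    obtain ⟨F, hF⟩ : ∃ F : ℕ → ℝ, F = fun n => τ * (exT c m B b n - exT c m B b' n) := ⟨_, rfl⟩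
    -- where the difference lives
    have hF1 : ∀ n, (n = 0 ∨ Squarefree n) → F n = 0 := by
      intro n hn
      rw [hF]
      simp only
      unfold exT
      rw [if_pos hn, if_pos hn]
      ring
    have hF2 : ∀ n, ¬ (n = 0 ∨ Squarefree n) → |F n| ≤ V (sq1 n) * Gf m (blk B) (kap m) (pw2 n) := by
      intro n hn
      rw [hF, hV]
      simp only
      unfold exT
      rw [if_neg hn, if_neg hn, abs_mul, abs_of_pos hτ0]
      have e1 : (atc m (xb c m B b) n - atc m (fun _ => 0) n) * (n : ℝ) ^ (-kap m) -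
          (atc m (xb c m B b') n - atc m (fun _ => 0) n) * (n : ℝ) ^ (-kap m) =
          (atc m (xb c m B b) n - atc m (xb c m B b') n) * (n : ℝ) ^ (-kap m) := by ring
      rw [e1]
      exact hmaj n (by tauto)
    have hF3 : ∀ n, (∀ p ∈ n.primeFactors, p ∉ blk B) → F n = 0 := by
      intro n hn
      by_cases hn0 : n = 0 ∨ Squarefree n
      · exact hF1 n hn0
      · rw [hF]
        simp only
        have e1 : ∀ x : ℕ → ℝ, atc m (xb c m B x) n = atc m (fun _ => 0) n := by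
          intro x
          unfold atc
          rw [if_neg (by tauto), if_neg (by tauto)]
          refine prod_congr rfl fun p hp => ?_
          have : xb c m B x p = 0 := by
            unfold xb
            rw [bet_of_not_blk (hn p hp), zero_mul]
          rw [this]
        unfold exT
        rw [if_neg hn0, if_neg hn0, e1, e1]
        ring
    -- the two parts
    set SA := S.filter (fun n => ¬ (n = 0 ∨ Squarefree n) ∧ (∃ p ∈ n.primeFactors, p ∈ blk B) ∧ sq1 n = 1) with hSA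
    set SB := S.filter (fun n => ¬ (n = 0 ∨ Squarefree n) ∧ sq1 n ≠ 1) with hSB
    have hadd := QQ_add3 (γ := F)
      (a := fun n => if ¬ (n = 0 ∨ Squarefree n) ∧ (∃ p ∈ n.primeFactors, p ∈ blk B) ∧ sq1 n = 1 then F n else 0)
      (b := fun n => if ¬ (n = 0 ∨ Squarefree n) ∧ sq1 n ≠ 1 then F n else 0) (d := fun _ => 0) hW S (jj c (lamH m)) ?_
    swap
    · intro n _
      rw [abs_zero, add_zero]
      by_cases c1 : n = 0 ∨ Squarefree n
      · rw [hF1 n c1, abs_zero]; positivity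
      by_cases c2 : sq1 n = 1
      · by_cases c3 : ∃ p ∈ n.primeFactors, p ∈ blk B
        · rw [if_pos ⟨c1, c3, c2⟩]
          exact le_add_of_nonneg_right (abs_nonneg _)
        · have : F n = 0 := hF3 n (fun p hp hpb => c3 ⟨p, hp, hpb⟩)
          rw [this, abs_zero]; positivity
      · rw [if_pos (⟨c1, c2⟩ : ¬ (n = 0 ∨ Squarefree n) ∧ sq1 n ≠ 1)]
        exact le_add_of_nonneg_left (abs_nonneg _)
    rw [QQ_zero] at hadd
    -- part A
    have hA : QQ (WW c) S (jj c (lamH m))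
        (fun n => if ¬ (n = 0 ∨ Squarefree n) ∧ (∃ p ∈ n.primeFactors, p ∈ blk B) ∧ sq1 n = 1 then F n else 0) ≤
        1024 * ε₂ ^ 2 := by
      refine (QQ_filter hW S _ F _).trans ?_
      rw [← hSA]
      refine (QQ_le_of hW SA _ (G := Gf m (blk B) (kap m)) ?_).trans ?_
      · intro n hn
        rw [hSA, mem_filter] at hn
        have g1 := hF2 n hn.2.1
        have g2 := sq1_mul_pw2 (n := n) (by tauto)
        rw [hn.2.2.2, one_mul] at g2
        rw [hn.2.2.2, g2] at g1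
        have g3 : V 1 = 1 := by rw [hV]; simp
        rw [g3, one_mul] at g1
        exact g1
      refine (partA hW SA _ _ (fun n => 32 * ((n:ℝ) ^ (1 / lamH m)) ^ 2) (fun n _ => Gf_nonneg _ _ _ _)
        (fun n _ => by positivity) ?_).trans ?_
      · intro n hn
        rw [hSA, mem_filter] at hn
        obtain ⟨p, hp, hpb⟩ := hn.2.2.1
        have g1 := hub p hpb
        have g2 : (p:ℝ) ≤ n := by exact_mod_cast Nat.le_of_mem_primeFactors hp
        have g3 : (p:ℝ) ^ (1 / lamH m) ≤ (n:ℝ) ^ (1 / lamH m) := Real.rpow_le_rpow (by positivity) g2 (by positivity)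
        unfold jj uu
        apply WW_big hc hc1
        rw [div_le_iff₀ hc]
        unfold uu at g1
        calc (1:ℝ) ≤ c * (p:ℝ) ^ (1 / lamH m) := g1
          _ ≤ c * (n:ℝ) ^ (1 / lamH m) := mul_le_mul_of_nonneg_left g3 hc.le
          _ = _ := mul_comm _ _
      · have e1 : ∑ n ∈ SA, Gf m (blk B) (kap m) n * (32 * ((n:ℝ) ^ (1 / lamH m)) ^ 2) = 32 * ∑ n ∈ SA, Gf m (blk B) σ n := by
          rw [mul_sum]
          refine sum_congr rfl fun n hn => ?_
          rw [hSA, mem_filter] at hn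
          have hn0 : n ≠ 0 := by tauto
          rw [hσ, ← Gf_shift m (blk B) (kap m) (2 / lamH m) hn0, ← Real.rpow_natCast, ← Real.rpow_mul (Nat.cast_nonneg n)]
          have : 1 / lamH m * ((2:ℕ):ℝ) = 2 / lamH m := by push_cast; ring
          rw [this]
          ring
        rw [e1, mul_pow]
        have g1 := hP₂ (blk B) (fun p hp => (le_max_right _ _).trans (hPb p hp)) σ hσ4 SA (fun n hn => by
          rw [hSA, mem_filter] at hn
          exact ⟨by tauto, hn.2.2.1⟩)
        have g2 : 0 ≤ ∑ n ∈ SA, Gf m (blk B) σ n := sum_nonneg fun n _ => Gf_nonneg _ _ _ _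
        have g3 := pow_le_pow_left₀ g2 g1 2
        linarith
    -- part B
    have hB : QQ (WW c) S (jj c (lamH m)) (fun n => if ¬ (n = 0 ∨ Squarefree n) ∧ sq1 n ≠ 1 then F n else 0) ≤
        6000 * ρ ^ 2 * ε₁ ^ 2 := by
      refine (QQ_filter hW S _ F _).trans ?_
      rw [← hSB]
      have hN1 : ∀ a ∈ SB.image sq1, Squarefree a ∧ a ≠ 1 := by
        intro a ha
        rw [mem_image] at ha
        obtain ⟨n, hn, rfl⟩ := ha
        rw [hSB, mem_filter] at hn
        exact ⟨sq1_sqf (by tauto), hn.2.2⟩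
      have hK2 : ∀ k ∈ SB.image pw2, 2 ≤ k := by
        intro k hk
        rw [mem_image] at hk
        obtain ⟨n, hn, rfl⟩ := hk
        rw [hSB, mem_filter] at hn
        exact pw2_two (by tauto) (by tauto)
      have hball := bt_ball hc hc1 hτ0 hD0 hτD.le hb hb' hD
      have hQV := partV h (bt_nonneg hτ0.le b b') hρ hCH hball (SB.image sq1) hN1
      rw [← hV] at hQV
      have hpB := partB hW SB (jj c (lamH m)) F V (Gf m (blk B) (kap m)) (fun k => ((k:ℝ) ^ (1 / lamH m)) ^ 2) sq1 pw2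
        (fun k a => cell ((k:ℝ) ^ (1 / lamH m) * uu c (lamH m) a)) (200 * (30 * ρ ^ 2)) (fun a _ => hV0 a)
        (fun k _ => Gf_nonneg _ _ _ _) (fun k hk => by
          have := hK2 k hk
          have : (0:ℝ) < k := by exact_mod_cast (by omega : 0 < k)
          positivity) ?_ ?_ ?_ ?_
      · refine hpB.trans ?_
        have e1 : ∑ k ∈ SB.image pw2, Gf m (blk B) (kap m) k * ((k:ℝ) ^ (1 / lamH m)) ^ 2 =
            ∑ k ∈ SB.image pw2, Gf m (blk B) σ k := by
          refine sum_congr rfl fun n hn => ?_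
          have hn0 : n ≠ 0 := by have := hK2 n hn; omega
          rw [hσ, ← Gf_shift m (blk B) (kap m) (2 / lamH m) hn0, ← Real.rpow_natCast, ← Real.rpow_mul (Nat.cast_nonneg n)]
          have : 1 / lamH m * ((2:ℕ):ℝ) = 2 / lamH m := by push_cast; ring
          rw [this]
        rw [e1]
        have g1 := hP₁ (blk B) (fun p hp => (le_max_left _ _).trans (hPb p hp)) σ hσ4 (SB.image pw2) hK2
        have g2 : 0 ≤ ∑ k ∈ SB.image pw2, Gf m (blk B) σ k := sum_nonneg fun n _ => Gf_nonneg _ _ _ _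
        have g3 := pow_le_pow_left₀ g2 g1 2
        have g4 : 0 ≤ 200 * (30 * ρ ^ 2) := by positivity
        have g5 := mul_le_mul_of_nonneg_right g3 g4
        linarith
      · intro n hn n' hn' e1 e2
        rw [hSB, mem_filter] at hn hn'
        rw [← sq1_mul_pw2 (n := n) (by tauto), ← sq1_mul_pw2 (n := n') (by tauto), e1, e2]
      · intro n hn
        rw [hSB, mem_filter] at hn
        exact hF2 n hn.2.1
      · intro n hn
        rw [hSB, mem_filter] at hn
        have hn0 : n ≠ 0 := by tauto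
        have g1 := sq1_mul_pw2 hn0
        unfold jj
        congr 1
        unfold uu
        conv_lhs => rw [← g1]
        push_cast
        rw [Real.mul_rpow (Nat.cast_nonneg _) (Nat.cast_nonneg _)]
        ring
      · intro k hk
        have hk2 := hK2 k hk
        have hk1 : (1:ℝ) ≤ (k:ℝ) ^ (1 / lamH m) := Real.one_le_rpow (by exact_mod_cast (by omega : 1 ≤ k)) (by positivity)
        have g1 := h2 c hc hc1 ((k:ℝ) ^ (1 / lamH m)) hk1 (SB.image sq1) (uu c (lamH m)) V (fun i _ => uu_nonneg hc.le i)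
        have g2 : (200:ℝ) * ((k:ℝ) ^ (1 / lamH m)) ^ 4 * QQ (WW c) (SB.image sq1) (fun i => cell (uu c (lamH m) i)) V ≤
            200 * ((k:ℝ) ^ (1 / lamH m)) ^ 4 * (30 * ρ ^ 2) := mul_le_mul_of_nonneg_left hQV (by positivity)
        refine (g1.trans g2).trans (le_of_eq ?_)
        ring
    -- conclusion
    have hQF : QQ (WW c) S (jj c (lamH m)) F ≤ ε * ρ ^ 2 := by
      have e1 : 3 * (1024 * ε₂ ^ 2 + 6000 * ρ ^ 2 * ε₁ ^ 2 + 0) = ε * ρ ^ 2 := by
        rw [hε₁2, hε₂2]; ring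
      linarith
    have hQF2 : QQ (WW c) S (jj c (lamH m)) F = τ ^ 2 * QQ (WW c) S (jj c (lamH m)) (fun n => exT c m B b n - exT c m B b' n) := by
      unfold QQ
      rw [mul_sum]
      refine sum_congr rfl fun y _ => ?_
      have : ∑ i ∈ S.filter (fun i => jj c (lamH m) i = y), |F i| =
          τ * ∑ i ∈ S.filter (fun i => jj c (lamH m) i = y), |exT c m B b i - exT c m B b' i| := by
        rw [mul_sum]
        refine sum_congr rfl fun i _ => ?_
        rw [hF, abs_mul, abs_of_pos hτ0]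
      rw [this]
      ring
    rw [hQF2] at hQF
    have e3 : τ ^ 2 * (ε * D ^ 2) = ε * ρ ^ 2 := by rw [← hτD]; ring
    rw [← e3] at hQF
    exact le_of_mul_le_mul_left hQF (by positivity)

end

end Pool.Agent.Q127.ET
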