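import Mathlib
import Pool.Agent.Q127.ET.Ex2

/-!
# The core: boundary functions of tempered Euler products with prescribed Mellin transform at the nodes
-/

set_option autoImplicit false

open Finset MeasureTheory Filter Topology

namespace Pool.Agent.Q127.ET

open Pool.Agent.H469R10.HO Pool.Agent.H99R3.M469 Pool.Agent.H13R3.EM Pool.Agent.Q127.EZ
open Pool.Agent.Q284.S (Bd Mm)

/-- the sum of the constant part -/
noncomputable def ZT (m : ℕ) : ℝ := ∑' n, bsT m n

/-- all coefficients -/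
noncomputable def aT (c : ℝ) (m : ℕ) (B : ℕ → Finset ℕ) (b : ℕ → ℝ) (n : ℕ) : ℝ :=
  if n = 0 then b 0 - 1 - ZT m else alp c (lamH m) B b n + exT c m B b n + bsT m n

lemma alp_xb {c : ℝ} {m : ℕ} {B : ℕ → Finset ℕ} {b : ℕ → ℝ} (h1 : S_Loc1) {n : ℕ} (hn : n ≠ 0) :
    alp c (lamH m) B b n + exT c m B b n + bsT m n = atc m (xb c m B b) n * (n : ℝ) ^ (-kap m) := by
  obtain ⟨-, -, -, h4, -⟩ := h1
  by_cases hs : Squarefree n
  · unfold exT bsT
    rw [if_pos (Or.inr hs), if_pos (Or.inr hs), add_zero, add_zero]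
    unfold alp atc
    rw [if_neg hn, if_pos hs, if_neg hn, rpow_eq_prod hn, ← prod_mul_distrib]
    refine prod_congr rfl fun p hp => ?_
    have hv : n.factorization p = 1 := by
      have h5 := (Nat.squarefree_iff_factorization_le_one hn).1 hs p
      have h6 : n.factorization p ≠ 0 := by
        rw [← Nat.support_factorization, Finsupp.mem_support_iff] at hp
        exact hp
      omega
    have hp0 : (0:ℝ) < p := by exact_mod_cast Nat.pos_of_mem_primeFactors hp
    rw [hv, (h4 m _).2]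
    unfold xb
    rw [mul_assoc, ← Real.rpow_add hp0]
    have : kap m + -kap m * ((1:ℕ) : ℝ) = 0 := by push_cast; ring
    rw [this, Real.rpow_zero, mul_one]
  · unfold exT bsT
    rw [if_neg (by tauto), if_neg (by tauto)]
    unfold alp
    rw [if_neg hn, if_neg hs]
    ring

lemma QQ_scale {w : ℕ → ℝ} (hw : ∀ y, 0 ≤ w y) (S : Finset ℕ) (cl : ℕ → ℕ) (F G : ℕ → ℝ) (C : ℝ) (h : ∀ n ∈ S, |F n| ≤ C * |G n|) :
    QQ w S cl F ≤ C ^ 2 * QQ w S cl G := QQ_mono hw S cl h

/-- **the core** -/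
theorem coreT (h1 : S_Loc1) (hsrc : S_Src) (hfix : S_Fix) (hrel : S_Rel) (hex : S_Ex) (hbase : S_Base) : S_Core := by
  obtain ⟨CJ, hCJ0, m₁, lam₀, hlam8, hH⟩ := exists_hyp2 Pool.Agent.H469R10.HO.hoheisel
  obtain ⟨K, hKn, hKb⟩ := chi_bd
  obtain ⟨m₂, hm₂⟩ := CU_kE_small (16 * CJ) K (1 / (16384 * (CJ + 1))) (by positivity)
  obtain ⟨μ, hμ⟩ : ∃ μ : ℝ, μ = 1 / (100000 * (720 * CJ + 2)) := ⟨_, rfl⟩
  have hμ0 : 0 < μ := by rw [hμ]; positivity
  have hμ1 : μ ≤ 1 / 100000 := by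
    rw [hμ, div_le_div_iff₀ (by positivity) (by norm_num)]
    nlinarith
  obtain ⟨m₃, hm₃⟩ := hex μ hμ0
  refine ⟨max (max m₁ m₂) (max (max 4 ⌈lam₀⌉₊) m₃), (le_max_left 4 _).trans ((le_max_left _ _).trans (le_max_right _ _)), fun m hm => ?_⟩
  have hm1 : m₁ ≤ m := ((le_max_left _ _).trans (le_max_left _ _)).trans hm
  have hm2' : m₂ ≤ m := ((le_max_right _ _).trans (le_max_left _ _)).trans hm
  have hm4 : 4 ≤ m := ((le_max_left 4 _).trans ((le_max_left _ _).trans (le_max_right _ _))).trans hm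
  have hm3 : lam₀ ≤ m := Nat.ceil_le.mp (((le_max_right 4 _).trans ((le_max_left _ _).trans (le_max_right _ _))).trans hm)
  have hmm3 : m₃ ≤ m := ((le_max_right _ _).trans (le_max_right _ _)).trans hm
  have hm2 : 2 ≤ m := by omega
  have hmR : (4:ℝ) ≤ m := by exact_mod_cast hm4
  have hlam : lam₀ ≤ lamH m := by unfold lamH; linarith
  obtain ⟨e, κ, CH, η, ρ0, c₁, he0, he, hη, hρ00, hρ90, hκ, hfin0, hc₁, hyp⟩ := hH m hm1 (lamH m) hlam
  obtain ⟨B1, h1', -⟩ := hyp c₁ hc₁ le_rfl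
  have hCH := h1'.hCH
  -- a smaller radius
  obtain ⟨ρ, hρd⟩ : ∃ ρ : ℝ, ρ = min ρ0 (1 / (9 * (CH + 1))) := ⟨_, rfl⟩
  have hρ0 : 0 < ρ := by rw [hρd]; exact lt_min hρ00 (by positivity)
  have hρρ : ρ ≤ ρ0 := by rw [hρd]; exact min_le_left _ _
  have hρsq : ρ ^ 2 ≤ ρ0 ^ 2 := pow_le_pow_left₀ hρ0.le hρρ 2
  have hρ9 : 9 * ρ ^ 2 ≤ 1 := by linarith
  have hCHρ : CH * 81 * ρ ^ 2 ≤ 1 := by
    have g1 : ρ ≤ 1 / (9 * (CH + 1)) := by rw [hρd]; exact min_le_right _ _
    have g2 : ρ ^ 2 ≤ (1 / (9 * (CH + 1))) ^ 2 := pow_le_pow_left₀ hρ0.le g1 2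
    calc CH * 81 * ρ ^ 2 ≤ CH * 81 * (1 / (9 * (CH + 1))) ^ 2 := mul_le_mul_of_nonneg_left g2 (by positivity)
      _ = CH / (CH + 1) ^ 2 := by field_simp; norm_num
      _ ≤ 1 := by
          rw [div_le_one (by positivity)]
          nlinarith
  have hfin : 2 * (CJ * (800 * e ^ 2 + 2 * κ)) + 2 * (CJ * (720 + 2 * κ)) * (CH * 81 * ρ ^ 2) ≤ 1 / 4 := by
    refine le_trans ?_ hfin0
    have : CH * 81 * ρ ^ 2 ≤ CH * 81 * ρ0 ^ 2 := mul_le_mul_of_nonneg_left hρsq (by positivity)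
    have := mul_le_mul_of_nonneg_left this (show 0 ≤ 2 * (CJ * (720 + 2 * κ)) by positivity)
    linarith
  set κE : ℝ := kE K m with hκE
  have hκE0 : 0 ≤ κE := kE_nonneg K m
  have hsm := hm₂ m hm2'
  rw [← hκE] at hsm
  have hCU := CU_pos m
  set K0 : ℝ := Real.sqrt (16 * CJ * CU m + 1) with hK0def
  have hK0sq : K0 ^ 2 = 16 * CJ * CU m + 1 := Real.sq_sqrt (by positivity)
  have hK0 : 0 < K0 := Real.sqrt_pos.2 (by positivity)
  have hK1 : 2 * (CJ * CU m) ≤ 1 / 8 * K0 ^ 2 := by rw [hK0sq]; linarith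
  have hCJκ : CJ * κ ≤ 1 / 16 := by
    have g1 : 0 ≤ 2 * (CJ * (720 + 2 * κ)) * (CH * 81 * ρ ^ 2) := by positivity
    have g2 : 0 ≤ CJ * (800 * e ^ 2) := by positivity
    nlinarith
  have hCH81 : CJ * (CH * 81 * ρ ^ 2) ≤ 1 := by
    have g1 : 0 ≤ 2 * (CJ * (800 * e ^ 2 + 2 * κ)) := by positivity
    have g2 : 2 * (CJ * (720 + 2 * κ)) * (CH * 81 * ρ ^ 2) = 1440 * (CJ * (CH * 81 * ρ ^ 2)) + 4 * κ * (CJ * (CH * 81 * ρ ^ 2)) := by
      ring
    have g3 : 0 ≤ 4 * κ * (CJ * (CH * 81 * ρ ^ 2)) := by positivity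
    linarith
  have hK2 : K0 ^ 2 * 1024 * (2 * (CJ * κE) * (1 + CH * 81 * ρ ^ 2)) ≤ 1 / 8 := by
    rw [hK0sq]
    have g1 : 2 * (CJ * κE) * (1 + CH * 81 * ρ ^ 2) = 2 * κE * (CJ + CJ * (CH * 81 * ρ ^ 2)) := by ring
    rw [g1]
    calc (16 * CJ * CU m + 1) * 1024 * (2 * κE * (CJ + CJ * (CH * 81 * ρ ^ 2)))
        ≤ (16 * CJ * CU m + 1) * 1024 * (2 * κE * (CJ + 1)) := by gcongr
      _ = ((16 * CJ * CU m + 1) * κE) * (2048 * (CJ + 1)) := by ring
      _ ≤ (1 / (16384 * (CJ + 1))) * (2048 * (CJ + 1)) := by gcongr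
      _ = 1 / 8 := by field_simp; norm_num
  have hμJ : CJ * (720 + 2 * κ) * μ ≤ 1 / 100000 := by
    have g1 : CJ * (720 + 2 * κ) ≤ 720 * CJ + 2 := by linarith
    calc CJ * (720 + 2 * κ) * μ ≤ (720 * CJ + 2) * μ := mul_le_mul_of_nonneg_right g1 hμ0.le
      _ = 1 / 100000 := by rw [hμ]; field_simp
  obtain ⟨cE, hcE, hE⟩ := hm₃ m hmm3 CH η ρ hη hρ0 hρ9 hCHρ
  obtain ⟨hsrc1, hsrc2⟩ := hsrc
  obtain ⟨KS, hKS, hS⟩ := hsrc2 m hm4
  obtain ⟨KT, hKT⟩ : ∃ KT : ℝ, KT = (K0 ^ 2 + 1) * 256 * 2048 * KS ^ 2 := ⟨_, rfl⟩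
  have hKT0 : 0 < KT := by rw [hKT]; positivity
  obtain ⟨c₀, hc₀⟩ : ∃ c₀ : ℝ, c₀ = min (min c₁ cE) (min (1 / 10) (ρ ^ 2 / (512 * KT))) := ⟨_, rfl⟩
  have hc₀0 : 0 < c₀ := by rw [hc₀]; exact lt_min (lt_min hc₁ hcE) (lt_min (by norm_num) (by positivity))
  obtain ⟨ν, hν⟩ : ∃ ν : ℝ, ν = Real.sqrt (ρ ^ 2 / (512 * (512 * K0 ^ 2))) := ⟨_, rfl⟩
  have hν0 : 0 < ν := by rw [hν]; exact Real.sqrt_pos.2 (by positivity)
  have hνsq : ν ^ 2 = ρ ^ 2 / (512 * (512 * K0 ^ 2)) := by rw [hν]; exact Real.sq_sqrt (by positivity)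
  refine ⟨c₀, ν, CJ, hc₀0, ?_, hν0, hCJ0.le, fun c hc hcc => ?_⟩
  · rw [hc₀]; exact (min_le_right _ _).trans (min_le_left _ _)
  rw [hc₀] at hcc
  have hcc₁ : c ≤ c₁ := hcc.trans ((min_le_left _ _).trans (min_le_left _ _))
  have hccE : c ≤ cE := hcc.trans ((min_le_left _ _).trans (min_le_right _ _))
  have hcc10 : c ≤ 1 / 10 := hcc.trans ((min_le_right _ _).trans (min_le_left _ _))
  have hcc1 : c ≤ 1 := by linarith
  have hccK : c * KT ≤ ρ ^ 2 / 512 := by
    have : c ≤ ρ ^ 2 / (512 * KT) := hcc.trans ((min_le_right _ _).trans (min_le_right _ _))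
    rw [le_div_iff₀ (by positivity)] at this
    linarith
  obtain ⟨B, h, hB2⟩ := hyp c hc hcc₁
  obtain ⟨hextra, hxb⟩ := hE c hc hccE e κ CJ B h hB2
  have hWp := fun j => (WW_pos h.hc h.hc1 j)
  have hW := fun j => (hWp j).le
  obtain ⟨hbase1, hbase2⟩ := hbase
  obtain ⟨Db, hDb0, hDb⟩ := hbase1 c m hc hcc10 hm4
  obtain ⟨hbs, hsT⟩ := hbase2 c m hc hm4
  obtain ⟨D, hD⟩ : ∃ D : ℝ, D = 3 * (3 * (ρ ^ 2 + CH * (9 * ρ ^ 2) ^ 2 + 2 * (WW c (jj c (lamH m) 0) + WW c (jj c (lamH m) 1))) +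
      μ * ρ ^ 2 + 3 * (Db + ZT m ^ 2 * (2 * (WW c (jj c (lamH m) 0) + WW c (jj c (lamH m) 1))) + 0)) + ρ ^ 2 / K0 ^ 2 := ⟨_, rfl⟩
  have hw0 := hW (jj c (lamH m) 0)
  have hw1 := hW (jj c (lamH m) 1)
  refine ⟨?_, D, by rw [hD]; positivity, fun v hv => ?_⟩
  · intro cl T κ' hκ' h1 h2 S β J
    refine h.hJ cl T κ' hκ' (fun S β J => ?_) (fun S β J => ?_) S β J
    · have := h1 S β J
      simpa [QQ] using this
    · have := h2 S β J
      simpa [QQ] using this
  obtain ⟨hsTc, hsTb⟩ := hsrc1 m c (by omega)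
  obtain ⟨s, hs⟩ : ∃ s : ℕ → ℝ, s = fun j => - PP (sT c m) j + PP (DD m (sT c m)) j := ⟨_, rfl⟩
  have hc3 : 256 / c * (KS * c ^ 2) ^ 2 ≤ c * (256 * KS ^ 2) := by
    have g1 : 256 / c * (KS * c ^ 2) ^ 2 = c * (256 * KS ^ 2) * c ^ 2 := by field_simp
    have g2 : c ^ 2 ≤ 1 := pow_le_one₀ hc.le hcc1
    rw [g1]
    exact mul_le_of_le_one_right (by positivity) g2
  have hWle := fun j => Pool.Agent.H5R3.T469N.WW_le hc hcc1 j
  have hsb : ∀ J : ℕ, ∑ j ∈ range J, WW c j * s j ^ 2 ≤ (ρ / 16) ^ 2 := by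
    intro J
    have g1 : ∑ j ∈ range J, WW c j * s j ^ 2 ≤ 256 / c * (KS * c ^ 2) ^ 2 := by
      calc ∑ j ∈ range J, WW c j * s j ^ 2 ≤ ∑ j ∈ range J, 256 / c * ((1 + (j:ℝ)) ^ 2 * s j ^ 2) := by
            apply sum_le_sum
            intro j _
            have := mul_le_mul_of_nonneg_right (hWle j) (sq_nonneg (s j))
            linarith
        _ = 256 / c * ∑ j ∈ range J, (1 + (j:ℝ)) ^ 2 * s j ^ 2 := by rw [mul_sum]
        _ ≤ _ := by
            apply mul_le_mul_of_nonneg_left _ (by positivity)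
            have := (hS c hc (range J)).1
            rw [hs]
            exact this
    have g2 : c * (256 * KS ^ 2) ≤ c * KT := by
      apply mul_le_mul_of_nonneg_left _ hc.le
      rw [hKT]
      nlinarith [sq_nonneg K0, sq_nonneg KS, mul_nonneg (sq_nonneg K0) (sq_nonneg KS)]
    have e1 : (ρ / 16) ^ 2 = ρ ^ 2 / 256 := by ring
    rw [e1]
    have g3 : 0 ≤ ρ ^ 2 := sq_nonneg _
    linarith
  obtain ⟨t, ht⟩ : ∃ t : ℕ → ℝ, t = fun k => 16 * v k - 32 * EE m (sT c m) k := ⟨_, rfl⟩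
  have htb : ∀ J : ℕ, K0 ^ 2 * ∑ j ∈ range J, WW c j * t j ^ 2 ≤ (ρ / 16) ^ 2 := by
    intro J
    have e0 : ∀ j, WW c j * t j ^ 2 ≤ 512 * (WW c j * v j ^ 2) +
        256 / c * (2048 * ((1 + (j:ℝ)) ^ 2 * (EE m (sT c m) j) ^ 2)) := by
      intro j
      have g1 := hWle j
      have g2 : t j ^ 2 ≤ 512 * v j ^ 2 + 2048 * (EE m (sT c m) j) ^ 2 := by
        rw [ht]
        simp only
        nlinarith [sq_nonneg (16 * v j + 32 * EE m (sT c m) j)]
      have g3 : WW c j * (2048 * (EE m (sT c m) j) ^ 2) ≤ (256 / c * (1 + (j:ℝ)) ^ 2) * (2048 * (EE m (sT c m) j) ^ 2) :=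
        mul_le_mul_of_nonneg_right g1 (by positivity)
      have g4 := mul_le_mul_of_nonneg_left g2 (hW j)
      linarith
    have e1 := hv J
    have e2 := (hS c hc (range J)).2
    have e3 : ∑ j ∈ range J, WW c j * t j ^ 2 ≤ 512 * ν ^ 2 + 256 / c * (2048 * (KS * c ^ 2) ^ 2) := by
      refine (sum_le_sum fun j _ => e0 j).trans ?_
      rw [sum_add_distrib, ← mul_sum, ← mul_sum, ← mul_sum]
      have : 0 ≤ 256 / c := by positivity
      gcongr
    have e4 : K0 ^ 2 * (512 * ν ^ 2) = ρ ^ 2 / 512 := by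
      rw [hνsq]
      field_simp
    have e5 : K0 ^ 2 * (256 / c * (2048 * (KS * c ^ 2) ^ 2)) ≤ ρ ^ 2 / 512 := by
      have g1 : K0 ^ 2 * (256 / c * (2048 * (KS * c ^ 2) ^ 2)) = K0 ^ 2 * 2048 * (256 / c * (KS * c ^ 2) ^ 2) := by ring
      rw [g1]
      have g2 : K0 ^ 2 * 2048 * (256 / c * (KS * c ^ 2) ^ 2) ≤ K0 ^ 2 * 2048 * (c * (256 * KS ^ 2)) :=
        mul_le_mul_of_nonneg_left hc3 (by positivity)
      have g3 : K0 ^ 2 * 2048 * (c * (256 * KS ^ 2)) ≤ c * KT := by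
        rw [hKT]
        have : 0 ≤ c * (256 * 2048 * KS ^ 2) := by positivity
        nlinarith
      linarith
    calc K0 ^ 2 * ∑ j ∈ range J, WW c j * t j ^ 2 ≤ K0 ^ 2 * (512 * ν ^ 2 + 256 / c * (2048 * (KS * c ^ 2) ^ 2)) := by gcongr
      _ = K0 ^ 2 * (512 * ν ^ 2) + K0 ^ 2 * (256 / c * (2048 * (KS * c ^ 2) ^ 2)) := by ring
      _ ≤ ρ ^ 2 / 512 + ρ ^ 2 / 512 := by linarith
      _ = (ρ / 16) ^ 2 := by ring
  obtain ⟨b, g, hb1, hg1, hb2, hg2, hex2, hb3, hg3⟩ := hfix c (lamH m) e κ CJ CH B m h Pool.Agent.H180R3.Q469.taskQ hm4 κE K0 ρ μ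
    hκE0 (eBound hm4 hKn hKb) hK0 hK1 hρ0 hρ9 hfin hK2 hμ0.le hμ1 hμJ (exT c m B) hextra s t hsb htb
  have hBh : ∀ j, ∀ p ∈ B j, 1 ≤ j ∧ p.Prime ∧ |uu c (lamH m) p - xx j| ≤ 1 / 2 :=
    fun j p hp => ⟨(h.hB j p hp).1, (h.hB j p hp).2.1, (h.hB j p hp).2.2.trans he⟩
  obtain ⟨hrel1, hr⟩ := hrel c (lamH m) m B b (rg m g) (sT c m) 6 (exT c m B b) hc h.hlam hm2 (rg_cont hg2 (by omega))
    (fun x h0 h1 => rg_low (by omega) x h0 h1) (fun x h1 => rg_high x h1) (fun x hx => rg_symm x hx)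
    hsTc hsTb hBh h.hBne hb2 hex2 (by
      intro j
      rw [PP_rg hg2 (by omega)]
      have := hb3 j
      rw [hs] at this
      exact this)
  obtain ⟨α, hα⟩ : ∃ α : ℕ → ℝ, α = aT c m B b := ⟨_, rfl⟩
  -- the series
  have ha : Summable (fun n => |if n = 1 then 0 else alp c (lamH m) B b n|) := by
    refine Summable.of_nonneg_of_le (fun _ => abs_nonneg _) (fun n => ?_) hb2
    split_ifs
    · rw [abs_zero]; exact abs_nonneg _
    · exact le_rfl
  have hcs : ∀ (a : ℕ → ℝ), Summable (fun n => |a n|) → ∀ x : ℝ, Summable fun n => a n * Real.cos (uu c (lamH m) n * x) := by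
    intro a ha x
    refine Summable.of_norm_bounded ha fun n => ?_
    rw [Real.norm_eq_abs, abs_mul]
    exact mul_le_of_le_one_right (abs_nonneg _) (Real.abs_cos_le_one _)
  have hhb : ∀ x : ℝ, hb c (lamH m) α x = hT c (lamH m) B b (sT c m) (exT c m B b) x := by
    intro x
    unfold hb hT
    rw [hsT x]
    have q1 := (hcs _ ha x).hasSum
    have q2 := (hcs _ hex2 x).hasSum
    have q3 := (hcs _ hbs x).hasSum
    have q4 : HasSum (fun n : ℕ => if n = 0 then (-1 - ZT m) else 0) (-1 - ZT m) := hasSum_ite_eq 0 _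
    have q5 : HasSum (fun n : ℕ => if n = 1 then Real.cos (c * x) else 0) (Real.cos (c * x)) := hasSum_ite_eq 1 _
    have q6 := (((q1.add q2).add q3).add q4).add q5
    have q7 : (fun n => α n * Real.cos (uu c (lamH m) n * x)) = fun n =>
        (if n = 1 then 0 else alp c (lamH m) B b n) * Real.cos (uu c (lamH m) n * x) +
        exT c m B b n * Real.cos (uu c (lamH m) n * x) + bsT m n * Real.cos (uu c (lamH m) n * x) +
        (if n = 0 then (-1 - ZT m) else 0) + (if n = 1 then Real.cos (c * x) else 0) := by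
      funext n
      rw [hα]
      unfold aT
      by_cases hn0 : n = 0
      · subst hn0
        have e1 : exT c m B b 0 = 0 := by unfold exT; simp
        have e2 : bsT m 0 = 0 := by unfold bsT; simp
        have e3 : alp c (lamH m) B b 0 = b 0 := by unfold alp; simp
        rw [if_pos rfl, if_neg (by norm_num), if_pos rfl, if_neg (by norm_num), e1, e2, e3,
          Pool.Agent.H469R10.HO.uu_zero h.hlam, zero_mul, Real.cos_zero]
        ring
      · by_cases hn1 : n = 1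
        · subst hn1
          have e1 : exT c m B b 1 = 0 := by unfold exT; simp
          have e2 : bsT m 1 = 0 := by unfold bsT; simp
          have e3 : alp c (lamH m) B b 1 = 1 := by unfold alp; simp
          have e4 : uu c (lamH m) 1 = c := by unfold uu; simp
          rw [if_neg (by norm_num), if_pos rfl, if_neg (by norm_num), if_pos rfl, e1, e2, e3, e4]
          ring
        · rw [if_neg hn0, if_neg hn1, if_neg hn0, if_neg hn1]
          ring
    rw [q7, q6.tsum_eq]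
    unfold ZT
    ring
  have hαsum : Summable fun n => |α n| := by
    have q1 : Summable fun n : ℕ => (if n = 0 then |b 0 - 1 - ZT m| else 0) := (hasSum_ite_eq 0 _).summable
    refine Summable.of_nonneg_of_le (fun _ => abs_nonneg _) (fun n => ?_) (((hb2.add hex2).add hbs).add q1)
    rw [hα]
    unfold aT
    by_cases hn0 : n = 0
    · rw [if_pos hn0, if_pos hn0]
      have := abs_nonneg (alp c (lamH m) B b n)
      have := abs_nonneg (exT c m B b n)
      have := abs_nonneg (bsT m n)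
      linarith
    · rw [if_neg hn0, if_neg hn0, add_zero]
      exact (abs_add_le _ _).trans (add_le_add_left (abs_add_le _ _) _)
  have hrel2 : ∀ x : ℝ, 0 < x → ∑' n, α n * Real.cos (uu c (lamH m) n * x) =
      x ^ (2 * m) * ∑' n, α n * Real.cos (uu c (lamH m) n / x) := by
    intro x hx
    have g1 := hhb x
    have g2 := hhb x⁻¹
    unfold hb at g1 g2
    have h8 : ∀ n, uu c (lamH m) n / x = uu c (lamH m) n * x⁻¹ := fun n => div_eq_mul_inv _ _
    simp_rw [h8]
    rw [g1, g2]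
    exact hrel1 x hx
  have hr2 : ∀ x : ℝ, 3 / 4 ≤ x → x ≤ 2 → hb c (lamH m) α x = rg m g x := fun x hx1 hx2 => by
    rw [hhb x]
    exact hr x hx1 hx2
  have hBd : Bd c (lamH m) m α :=
    { hc := hc
      hlam := h.hlam
      hm := by omega
      hα := hαsum
      hrel := fun x hx => by
        have := hrel2 x hx
        simpa [hb, div_eq_mul_inv] using this }
  refine ⟨xb c m B b, α, g, ⟨hc, fun p => (hxb b hb1 p).trans (by norm_num), ?_, hαsum, hrel2, ?_, hg2, ?_, hr2, ?_⟩⟩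
  · intro n hn
    rw [hα]
    unfold aT
    rw [if_neg (by omega)]
    exact alp_xb h1 (by omega)
  · intro S
    obtain ⟨α', hα'⟩ : ∃ α' : ℕ → ℝ, α' = fun n => if n = 0 then b 0 - 1 else alp c (lamH m) B b n := ⟨_, rfl⟩
    have q1 := QQ_alp h hρ0 hρ9 hb1 (α := α') (fun n hn => by rw [hα']; simp only; rw [if_neg hn]) (by rw [hα']; simp) S
    have q2 : QQ (WW c) S (jj c (lamH m)) (exT c m B b) ≤ μ * ρ ^ 2 := by
      have := hextra.lip b (fun _ => 0) ρ hρ0.le hb1 (fun J => by simp; positivity) (fun J => by simpa using hb1 J) S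
      have e1 : (fun n => exT c m B b n - exT c m B (fun _ => 0) n) = exT c m B b := by
        funext n
        rw [hextra.zero n, sub_zero]
      rwa [e1] at this
    have q3 := QQ_add3 (γ := fun n => bsT m n + if n = 0 then -ZT m else 0) (a := bsT m)
      (b := fun n => if n = 0 then -ZT m else 0) (d := fun _ => 0) hW S (jj c (lamH m)) (fun n _ => by
        rw [abs_zero, add_zero]
        exact abs_add_le _ _)
    have q4 : QQ (WW c) S (jj c (lamH m)) (fun n => if n = 0 then -ZT m else 0) ≤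
        ZT m ^ 2 * (2 * (WW c (jj c (lamH m) 0) + WW c (jj c (lamH m) 1))) := by
      have g1 := QQ_delta hW S (jj c (lamH m))
      have g2 := QQ_scale hW S (jj c (lamH m)) (fun n => if n = 0 then -ZT m else 0) (fun n => if n ≤ 1 then 1 else 0) |ZT m| (fun n _ => by
        by_cases hn : n = 0
        · subst hn
          rw [if_pos rfl, if_pos (by norm_num), abs_neg, abs_one, mul_one]
        · rw [if_neg hn, abs_zero]
          positivity)
      rw [sq_abs] at g2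
      exact g2.trans (mul_le_mul_of_nonneg_left g1 (sq_nonneg _))
    rw [QQ_zero] at q3
    have q5 := QQ_add3 (γ := α) (a := α') (b := exT c m B b) (d := fun n => bsT m n + if n = 0 then -ZT m else 0) hW S
      (jj c (lamH m)) (fun n _ => by
        have e1 : α n = α' n + exT c m B b n + (bsT m n + if n = 0 then -ZT m else 0) := by
          rw [hα, hα']
          unfold aT
          simp only
          by_cases hn0 : n = 0
          · subst hn0
            have e1 : exT c m B b 0 = 0 := by unfold exT; simp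
            have e2 : bsT m 0 = 0 := by unfold bsT; simp
            rw [if_pos rfl, if_pos rfl, if_pos rfl, e1, e2]
            ring
          · rw [if_neg hn0, if_neg hn0, if_neg hn0]
            ring
        rw [e1]
        exact (abs_add_le _ _).trans (add_le_add_left (abs_add_le _ _) _))
    have q6 := hDb S
    have q7 : 0 ≤ ρ ^ 2 / K0 ^ 2 := by positivity
    rw [hD]
    linarith
  · intro J
    have g1 := hg1 J
    have g2 : ∑ k ∈ range J, WW c k * g k ^ 2 ≤ ρ ^ 2 / K0 ^ 2 := by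
      rw [le_div_iff₀ (by positivity), mul_comm]
      exact g1
    refine g2.trans ?_
    rw [hD]
    have : 0 ≤ 3 * (3 * (ρ ^ 2 + CH * (9 * ρ ^ 2) ^ 2 + 2 * (WW c (jj c (lamH m) 0) + WW c (jj c (lamH m) 1))) +
      μ * ρ ^ 2 + 3 * (Db + ZT m ^ 2 * (2 * (WW c (jj c (lamH m) 0) + WW c (jj c (lamH m) 1))) + 0)) := by positivity
    linarith
  · intro k
    rw [node hBd (by omega) hg2 hr2 k]
    congr 1
    have hcc : ∀ (a : ℕ → ℝ), Summable (fun n => |a n|) → Continuous fun x : ℝ => ∑' n, a n * Real.cos (uu c (lamH m) n * x) := by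
      intro a ha
      refine continuous_tsum (fun n => by fun_prop) ha fun n x => ?_
      rw [Real.norm_eq_abs, abs_mul]
      exact mul_le_of_le_one_right (abs_nonneg _) (Real.abs_cos_le_one _)
    have hcb : ∀ (a : ℕ → ℝ), Summable (fun n => |a n|) → ∀ y, |∑' n, a n * Real.cos (uu c (lamH m) n * y)| ≤ ∑' n, |a n| := by
      intro a ha y
      rw [← Real.norm_eq_abs]
      refine tsum_of_norm_bounded ha.hasSum fun n => ?_
      rw [Real.norm_eq_abs, abs_mul]
      exact mul_le_of_le_one_right (abs_nonneg _) (Real.abs_cos_le_one _)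
    have e1 : EE m (hb c (lamH m) α) k = EE m (sT c m) k + (∑' n, alp c (lamH m) B b n * TE c (lamH m) m n k +
        ∑' n, exT c m B b n * TE c (lamH m) m n k) := by
      have g0 : hb c (lamH m) α = fun x => (sT c m x + ∑' n, (if n = 1 then 0 else alp c (lamH m) B b n) *
          Real.cos (uu c (lamH m) n * x)) + ∑' n, exT c m B b n * Real.cos (uu c (lamH m) n * x) := by
        funext x
        rw [hhb x]
        rfl
      have cA := hcc _ ha
      have bA := hcb _ ha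
      have cE' := hcc _ hex2
      have bE := hcb _ hex2
      have hm3' : 3 ≤ m := by omega
      have cS : Continuous fun x => sT c m x + ∑' n, (if n = 1 then 0 else alp c (lamH m) B b n) *
          Real.cos (uu c (lamH m) n * x) := hsTc.add cA
      have bS : ∀ y, |sT c m y + ∑' n, (if n = 1 then 0 else alp c (lamH m) B b n) *
          Real.cos (uu c (lamH m) n * y)| ≤ 6 + ∑' n, |if n = 1 then 0 else alp c (lamH m) B b n| :=
        fun y => (abs_add_le _ _).trans (add_le_add (hsTb y) (bA y))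
      rw [g0, EE_add hm3' cS bS cE' bE, EE_add hm3' hsTc hsTb cA bA,
        EE_tsum hm3' ha, EE_tsum hm3' hex2, add_assoc]
      congr 2
      · refine tsum_congr fun n => ?_
        unfold TE
        split_ifs with h1
        · simp
        · rfl
      · refine tsum_congr fun n => ?_
        unfold TE
        split_ifs with h1
        · subst h1
          have : exT c m B b 1 = 0 := by unfold exT; simp
          rw [this]
          simp
        · rfl
    rw [e1, hg3 k, ht]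
    simp only
    ring

end Pool.Agent.Q127.ET
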