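import Mathlib
import Pool.Agent.Q127.ET.Spec2

/-!
# Project ET, third part: order one
-/

set_option autoImplicit false

open Finset MeasureTheory

namespace Pool.Agent.Q127.ET

open Pool.Agent.H469R10.HO Pool.Agent.H13R3.EM Pool.Agent.Q127.EZ

/-- JOB ET12: the members have order one -/
def S_Ord : Prop := ∀ (m : ℕ) (F : Sel) (K : ℝ), 2 ≤ m → F.m0 = 0 → F.r = 1 →
  (∀ j, F.lam j = lamH m ∧ F.μ j = 1 / 4) →
  (∀ s : ℂ, 1 / 2 ≤ s.re → ‖F.G s‖ ≤ K * ‖s + 1‖ ^ (m + 2)) →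
  ∀ ε : ℝ, 0 < ε → ∃ C : ℝ, ∀ s : ℂ, ‖F.G s‖ ≤ C * Real.exp (‖s‖ ^ (1 + ε))

end Pool.Agent.Q127.ET
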