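import Mathlib
import Pool.Agent.Q127.EZ.Fin
import Pool.Agent.Q127.ET.Spec2

/-!
# Zeros of the members produced by the machine: port of `EZ/Wt, Up, Sel, Low, Main` to general coefficients
-/

set_option autoImplicit false

open Finset MeasureTheory Metric Filter

namespace Pool.Agent.Q127.ET

open Pool.Agent.H469R10.HO Pool.Agent.H99R3.M469 Pool.Agent.H13R3.EM Pool.Agent.Q127.EZ
open Pool.Agent.Q284.S (Bd Mm mel_diff GG GG_diff connect)

/-- the part of the output of the machine used for the zeros -/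
structure OutR (m : ℕ) (c : ℝ) (v α g : ℕ → ℝ) (D : ℝ) : Prop where
  hc : 0 < c
  hsum : Summable (fun n => |α n|)
  hrel : ∀ x : ℝ, 0 < x → ∑' n, α n * Real.cos (uu c (lamH m) n * x) =
      x ^ (2 * m) * ∑' n, α n * Real.cos (uu c (lamH m) n / x)
  hQ : ∀ S : Finset ℕ, QQ (WW c) S (jj c (lamH m)) α ≤ D
  hgs : Summable (fun k => |g k|)
  hg : ∀ J : ℕ, ∑ k ∈ range J, WW c k * g k ^ 2 ≤ D
  hr : ∀ x : ℝ, 3 / 4 ≤ x → x ≤ 2 → hb c (lamH m) α x = rg m g x
  hnode : ∀ k : ℕ, Mm c (lamH m) m α 0 (tau k) = ((v k : ℝ) : ℂ)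

lemma OutG.toR {m : ℕ} {c D : ℝ} {v x α g : ℕ → ℝ} (h : OutG m c v x α g D) : OutR m c v α g D :=
  ⟨h.hc, h.hsum, h.hrel, h.hQ, h.hgs, h.hg, h.hr, h.hnode⟩

/-- `a n = α n n^{kap m}`, the coefficients of the Dirichlet series -/
structure CoefA (m : ℕ) (α : ℕ → ℝ) (a : ℕ → ℂ) : Prop where
  eq : ∀ n : ℕ, 1 ≤ n → a n = ((α n * (n : ℝ) ^ kap m : ℝ) : ℂ)
  sum : ∀ s : ℂ, 1 < s.re → LSeriesSummable a s

/-- **weighted square sums of the Mellin transform over shifted nodes** -/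
theorem sq_nodes {m : ℕ} {c C D : ℝ} {v α g : ℕ → ℝ} (hc1 : c ≤ 1 / 10) (hJP : JP c C) (hC : 0 ≤ C) (hD : 0 ≤ D)
    (hO : OutR m c v α g D) (hm : 6 ≤ m) : ∃ D' : ℝ, 0 ≤ D' ∧ ∀ z : ℂ, |z.re| < m - 5 → ‖z‖ ≤ 2 * m →
      ∀ J : ℕ, ∑ k ∈ range J, WW c k * ‖HM c (lamH m) m α (z + tau k * Complex.I)‖ ^ 2 ≤ D' := by
  obtain ⟨K0, hK0, hK⟩ := chi_bd
  have hc := hO.hc
  have hW := fun j => (WW_pos hc hc1 j).le
  have hlam : (1:ℝ) ≤ lamH m := by linarith [lam_ge m]
  have hm1 : 1 ≤ m := by omega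
  have hBd : Bd c (lamH m) m α :=
    { hc := hc
      hlam := hlam
      hm := hm1
      hα := hO.hsum
      hrel := fun x hx => by
        have := hO.hrel x hx
        simpa [hb, div_eq_mul_inv] using this }
  set κJ : ℝ := 270 * (K0 ^ 2 + (3 * m) ^ 2 + 4) + 90 with hκJ
  have hκJ0 : 0 ≤ κJ := by positivity
  set κM : ℝ := Real.exp (m / 4) * (230 + (2 * m) ^ 2) with hκM
  have hκM0 : 0 ≤ κM := by positivity
  have hmR : (6:ℝ) ≤ m := by exact_mod_cast hm
  have hnear : ∀ S : Finset ℕ, ∀ i ∈ S, |uu c (lamH m) i - xx (jj c (lamH m) i)| ≤ 1 := fun S i _ => cell_near (uu_nonneg hc.le i)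
  -- tails
  have hJJ : ∀ (ξ : ℂ), 0 < ξ.re → ‖ξ + 5‖ ≤ 3 * m → ∀ e : ℕ → ℝ → ℝ, e = ec ∨ e = es → ∀ J : ℕ,
      ∑ k ∈ range J, WW c k * ‖JJ ξ e (hb c (lamH m) α) k‖ ^ 2 ≤ 2 * (C * κJ) * D := by
    intro ξ hξ hξ5 e he J
    have hec : ∀ j, Continuous (e j) := by rcases he with rfl | rfl; exacts [ec_cont, es_cont]
    have he1 : ∀ k y, 0 ≤ y → |e k y| ≤ y := by
      rcases he with rfl | rfl
      · exact fun k y h0 => abs_ec_le h0
      · exact fun k y h0 => abs_es_le h0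
    have hosc : ∀ (S : Finset ℕ) (A : ℕ → ℝ), ∫ y in (0:ℝ)..1, (∑ k ∈ S, A k * e k y) ^ 2 ≤ ∑ k ∈ S, A k ^ 2 := by
      rcases he with rfl | rfl; exacts [osc_cos, osc_sin]
    have hsq : ‖ξ + 5‖ ^ 2 ≤ (3 * m) ^ 2 := pow_le_pow_left₀ (norm_nonneg _) hξ5 2
    refine JP_lim (cl := jj c (lamH m)) (T := fun n k => JJ ξ e (fun x => Real.cos (uu c (lamH m) n * x)) k) hJP hC hκJ0 ?_ ?_
      (fun k => JJ_tsum hξ hec he1 hO.hsum k) hO.hQ J
    · intro S β J
      simp_rw [← JJ_sum hξ hec]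
      refine (JJ_one hec hosc (hnear S) hξ (range J)).trans ?_
      have hQ0 : 0 ≤ QQ (fun _ => 1) S (jj c (lamH m)) β := QQ_nonneg (fun _ => zero_le_one) S _ β
      apply mul_le_mul_of_nonneg_right _ hQ0
      rw [hκJ]
      have : 0 ≤ 270 * (K0 ^ 2 + (3 * (m:ℝ)) ^ 2 + 4) := by positivity
      linarith
    · intro S β J
      simp_rw [← JJ_sum hξ hec]
      have hQ0 : 0 ≤ QQ (fun y => (1 + (y : ℝ)) ^ 2) S (jj c (lamH m)) β := QQ_nonneg (fun _ => by positivity) S _ β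
      have h2 := JJ_two (β := β) (hnear S) hξ hK (range J)
      have h3 : ∑ k ∈ range J, (1 + (k : ℝ)) ^ 2 * ‖JJ ξ e (f0 S β (uu c (lamH m))) k‖ ^ 2 ≤
        270 * (K0 ^ 2 + ‖ξ + 5‖ ^ 2 + 4) * QQ (fun y => (1 + (y : ℝ)) ^ 2) S (jj c (lamH m)) β := by
        rcases he with rfl | rfl
        · exact h2.1
        · exact h2.2
      refine h3.trans (mul_le_mul_of_nonneg_right ?_ hQ0)
      rw [hκJ]
      linarith
  -- the middle
  have hMM : ∀ (z : ℂ), |z.re| ≤ m → ‖z‖ ≤ 2 * m → ∀ q : ℝ → ℝ, q = Real.cos ∨ q = Real.sin → ∀ J : ℕ,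
      ∑ k ∈ range J, WW c k * ‖MM z q (Th g) k‖ ^ 2 ≤ 2 * (C * κM) * D := by
    intro z hz1 hz2 q hq J
    have hqc : Continuous q := by rcases hq with rfl | rfl; exacts [Real.continuous_cos, Real.continuous_sin]
    have hq1 : ∀ t, |q t| ≤ 1 := by rcases hq with rfl | rfl; exacts [Real.abs_cos_le_one, Real.abs_sin_le_one]
    have hE : Real.exp (|z.re| / 4) ≤ Real.exp (m / 4) := Real.exp_le_exp.2 (by linarith)
    have hsq : ‖z‖ ^ 2 ≤ (2 * m) ^ 2 := pow_le_pow_left₀ (norm_nonneg _) hz2 2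
    refine JP_lim (cl := id) (T := fun n k => MM z q (fun v => Real.cos (tau n * v)) k) hJP hC hκM0 ?_ ?_
      (fun k => MM_tsum hqc hq1 hO.hgs k) ?_ J
    · intro S β J
      simp_rw [MM_fin hqc]
      rw [QQ_id]
      refine (MM_one z hq S β (range J)).trans ?_
      simp only [one_mul]
      apply mul_le_mul_of_nonneg_right _ (sum_nonneg fun _ _ => sq_nonneg _)
      rw [hκM]
      have h2 : (1:ℝ) ≤ 230 + (2 * (m:ℝ)) ^ 2 := by nlinarith
      have h3 := Real.exp_pos ((m:ℝ) / 4)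
      nlinarith
    · intro S β J
      simp_rw [MM_fin hqc]
      rw [QQ_id]
      refine (MM_two z hq S β (range J)).trans ?_
      apply mul_le_mul_of_nonneg_right _ (sum_nonneg fun _ _ => by positivity)
      rw [hκM]
      apply mul_le_mul hE (by linarith) (by positivity) (Real.exp_pos _).le
    · intro S
      rw [QQ_id]
      refine le_trans ?_ (hO.hg (S.sup id + 1))
      apply sum_le_sum_of_subset_of_nonneg
      · intro y hy
        rw [mem_range]
        have : id y ≤ S.sup id := le_sup hy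
        simp only [id] at this
        omega
      · intro y _ _
        exact mul_nonneg (hW y) (sq_nonneg _)
  refine ⟨6 * (4 * (2 * (C * κJ) * D) + 2 * (2 * (C * κM) * D)), by positivity, fun z hz1 hz2 J => ?_⟩
  rw [abs_lt] at hz1
  have hzm : |z.re| < m := abs_lt.2 ⟨by linarith, by linarith⟩
  have x1 : 0 < ((m : ℂ) - 5 + z).re := by simp; linarith
  have x2 : 0 < ((m : ℂ) - 5 + -z).re := by simp; linarith
  have y1 : ‖(m : ℂ) - 5 + z + 5‖ ≤ 3 * m := by
    have e : (m : ℂ) - 5 + z + 5 = m + z := by ring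
    rw [e]
    refine (norm_add_le _ _).trans ?_
    rw [Complex.norm_natCast]
    linarith
  have y2 : ‖(m : ℂ) - 5 + -z + 5‖ ≤ 3 * m := by
    have e : (m : ℂ) - 5 + -z + 5 = m + -z := by ring
    rw [e]
    refine (norm_add_le _ _).trans ?_
    rw [Complex.norm_natCast, norm_neg]
    linarith
  have b1 := hJJ _ x2 y2 ec (Or.inl rfl) J
  have b2 := hJJ _ x2 y2 es (Or.inr rfl) J
  have b3 := hMM (-z) (by simpa using hzm.le) (by rwa [norm_neg]) Real.cos (Or.inl rfl) J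
  have b4 := hMM (-z) (by simpa using hzm.le) (by rwa [norm_neg]) Real.sin (Or.inr rfl) J
  have b5 := hJJ _ x1 y1 ec (Or.inl rfl) J
  have b6 := hJJ _ x1 y1 es (Or.inr rfl) J
  have hsix : ∀ k, WW c k * ‖HM c (lamH m) m α (z + tau k * Complex.I)‖ ^ 2 ≤
      6 * (WW c k * ‖JJ ((m : ℂ) - 5 + -z) ec (hb c (lamH m) α) k‖ ^ 2) +
      6 * (WW c k * ‖JJ ((m : ℂ) - 5 + -z) es (hb c (lamH m) α) k‖ ^ 2) +
      6 * (WW c k * ‖MM (-z) Real.cos (Th g) k‖ ^ 2) + 6 * (WW c k * ‖MM (-z) Real.sin (Th g) k‖ ^ 2) +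
      6 * (WW c k * ‖JJ ((m : ℂ) - 5 + z) ec (hb c (lamH m) α) k‖ ^ 2) +
      6 * (WW c k * ‖JJ ((m : ℂ) - 5 + z) es (hb c (lamH m) α) k‖ ^ 2) := by
    intro k
    rw [HM_dec hBd hO.hgs hO.hr z hzm k]
    set a1 := JJ ((m : ℂ) - 5 + -z) ec (hb c (lamH m) α) k
    set a2 := JJ ((m : ℂ) - 5 + -z) es (hb c (lamH m) α) k
    set a3 := MM (-z) Real.cos (Th g) k
    set a4 := MM (-z) Real.sin (Th g) k
    set a5 := JJ ((m : ℂ) - 5 + z) ec (hb c (lamH m) α) k
    set a6 := JJ ((m : ℂ) - 5 + z) es (hb c (lamH m) α) k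
    have n1 : ‖(a1 - Complex.I * a2) + (a3 - Complex.I * a4) + (a5 + Complex.I * a6)‖ ≤
        ‖a1‖ + ‖a2‖ + ‖a3‖ + ‖a4‖ + ‖a5‖ + ‖a6‖ := by
      have t1 := norm_add_le ((a1 - Complex.I * a2) + (a3 - Complex.I * a4)) (a5 + Complex.I * a6)
      have t2 := norm_add_le (a1 - Complex.I * a2) (a3 - Complex.I * a4)
      have t3 := norm_sub_le a1 (Complex.I * a2)
      have t4 := norm_sub_le a3 (Complex.I * a4)
      have t5 := norm_add_le a5 (Complex.I * a6)
      rw [norm_mul, Complex.norm_I, one_mul] at t3 t4 t5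
      linarith
    have n2 := pow_le_pow_left₀ (norm_nonneg _) n1 2
    have n3 : (‖a1‖ + ‖a2‖ + ‖a3‖ + ‖a4‖ + ‖a5‖ + ‖a6‖) ^ 2 ≤
        6 * (‖a1‖ ^ 2 + ‖a2‖ ^ 2 + ‖a3‖ ^ 2 + ‖a4‖ ^ 2 + ‖a5‖ ^ 2 + ‖a6‖ ^ 2) := by
      have := sq_sum_le_card_mul_sum_sq (s := (univ : Finset (Fin 6))) (f := ![‖a1‖, ‖a2‖, ‖a3‖, ‖a4‖, ‖a5‖, ‖a6‖])
      simp [Fin.sum_univ_six] at this
      linarith
    have := mul_le_mul_of_nonneg_left (n2.trans n3) (hW k)
    refine this.trans (le_of_eq ?_)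
    ring
  refine (sum_le_sum fun k _ => hsix k).trans ?_
  rw [sum_add_distrib, sum_add_distrib, sum_add_distrib, sum_add_distrib, sum_add_distrib, ← mul_sum, ← mul_sum, ← mul_sum,
    ← mul_sum, ← mul_sum, ← mul_sum]
  linarith

section

variable {m : ℕ} {c C D ν : ℝ} {α g : ℕ → ℝ}

lemma bd_of_outR {v : ℕ → ℝ} (hm : 1 ≤ m) (hO : OutR m c v α g D) : Bd c (lamH m) m α :=
  { hc := hO.hc
    hlam := by linarith [lam_ge m]
    hm := hm
    hα := hO.hsum
    hrel := fun x hx => by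
      have := hO.hrel x hx
      simpa [hb, div_eq_mul_inv] using this }

lemma HM_diff {v : ℕ → ℝ} (hm : 1 ≤ m) (hO : OutR m c v α g D) {s : ℂ} (hs : |s.re| < m) :
    DifferentiableAt ℂ (HM c (lamH m) m α) s := by
  rw [abs_lt] at hs
  have h1 := mel_diff (bd_of_outR hm hO) (w := -(m : ℂ) + s) (by simp; linarith) (by simp; linarith)
  exact DifferentiableAt.comp (g := mellin (fun x : ℝ => (hb c (lamH m) α x : ℂ))) (f := fun s : ℂ => -(m : ℂ) + s) s h1
    (by fun_prop)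

lemma HM_ana {v : ℕ → ℝ} (hm : 1 ≤ m) (hO : OutR m c v α g D) : AnalyticOnNhd ℂ (HM c (lamH m) m α) {s : ℂ | |s.re| < m} := by
  apply DifferentiableOn.analyticOnNhd
  · intro s hs
    exact (HM_diff hm hO hs).differentiableWithinAt
  · exact isOpen_lt (by fun_prop) continuous_const

lemma HM_node {v : ℕ → ℝ} (hO : OutR m c v α g D) (k : ℕ) :
    HM c (lamH m) m α (tau k * Complex.I) = ((v k : ℝ) : ℂ) := by
  rw [← hO.hnode k]
  unfold HM Mm
  congr 1
  push_cast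
  ring

/-- circle averages over the nodes -/
lemma avg_nodes {v : ℕ → ℝ} (hm : 6 ≤ m) (hO : OutR m c v α g D) {D' : ℝ}
    (hD' : ∀ z : ℂ, |z.re| < m - 5 → ‖z‖ ≤ 2 * m →
      ∀ J : ℕ, ∑ k ∈ range J, WW c k * ‖HM c (lamH m) m α (z + tau k * Complex.I)‖ ^ 2 ≤ D')
    {R : ℝ} (hR0 : 0 < R) (hR : R < m - 5) (J : ℕ) :
    ∑ k ∈ range J, WW c k * Real.circleAverage (fun z => ‖HM c (lamH m) m α z‖ ^ 2) (tau k * Complex.I) R ≤ D' := by
  have hcm : ∀ k θ, circleMap ((tau k : ℂ) * Complex.I) R θ = circleMap 0 R θ + tau k * Complex.I := by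
    intro k θ
    unfold circleMap
    ring
  have hre : ∀ θ, |(circleMap 0 R θ).re| < m - 5 := by
    intro θ
    have h1 := Complex.abs_re_le_norm (circleMap 0 R θ)
    have h2 : ‖circleMap 0 R θ‖ = R := by rw [norm_circleMap_zero, abs_of_pos hR0]
    linarith
  have hnm : ∀ θ, ‖circleMap 0 R θ‖ ≤ 2 * m := by
    intro θ
    rw [norm_circleMap_zero, abs_of_pos hR0]
    have : (0:ℝ) ≤ m := Nat.cast_nonneg m
    linarith
  have hcont : ∀ k, Continuous fun θ : ℝ => ‖HM c (lamH m) m α (circleMap 0 R θ + tau k * Complex.I)‖ ^ 2 := by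
    intro k
    rw [continuous_iff_continuousAt]
    intro θ
    have h1 : ContinuousAt (HM c (lamH m) m α) (circleMap 0 R θ + tau k * Complex.I) := by
      apply (HM_diff (by omega) hO _).continuousAt
      have := hre θ
      simp only [Complex.add_re, Complex.mul_re, Complex.ofReal_re, Complex.I_re, mul_zero, Complex.ofReal_im, Complex.I_im,
        zero_mul, sub_zero, add_zero]
      linarith
    have h2 : ContinuousAt (fun θ : ℝ => circleMap 0 R θ + tau k * Complex.I) θ := by fun_prop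
    exact (ContinuousAt.comp (f := fun θ : ℝ => circleMap 0 R θ + tau k * Complex.I) h1 h2).norm.pow 2
  have e1 : ∀ k, Real.circleAverage (fun z => ‖HM c (lamH m) m α z‖ ^ 2) (tau k * Complex.I) R =
      (2 * Real.pi)⁻¹ * ∫ θ in (0:ℝ)..(2 * Real.pi), ‖HM c (lamH m) m α (circleMap 0 R θ + tau k * Complex.I)‖ ^ 2 := by
    intro k
    rw [Real.circleAverage_def, smul_eq_mul]
    simp_rw [hcm]
  simp_rw [e1]
  have e2 : ∑ k ∈ range J, WW c k * ((2 * Real.pi)⁻¹ * ∫ θ in (0:ℝ)..(2 * Real.pi),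
      ‖HM c (lamH m) m α (circleMap 0 R θ + tau k * Complex.I)‖ ^ 2) =
      (2 * Real.pi)⁻¹ * ∫ θ in (0:ℝ)..(2 * Real.pi), ∑ k ∈ range J, WW c k *
        ‖HM c (lamH m) m α (circleMap 0 R θ + tau k * Complex.I)‖ ^ 2 := by
    rw [intervalIntegral.integral_finsetSum, mul_sum]
    · refine sum_congr rfl fun k _ => ?_
      rw [intervalIntegral.integral_const_mul]
      ring
    · intro k _
      exact ((hcont k).const_mul _).intervalIntegrable _ _
  rw [e2]
  have hp := Real.pi_pos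
  have h3 : ∫ θ in (0:ℝ)..(2 * Real.pi), ∑ k ∈ range J, WW c k *
        ‖HM c (lamH m) m α (circleMap 0 R θ + tau k * Complex.I)‖ ^ 2 ≤ ∫ θ in (0:ℝ)..(2 * Real.pi), D' := by
    apply intervalIntegral.integral_mono_on (by positivity)
    · exact (continuous_finsetSum _ fun k _ => (hcont k).const_mul _).intervalIntegrable _ _
    · exact continuous_const.intervalIntegrable _ _
    · intro θ _
      exact hD' _ (hre θ) (hnm θ) J
  rw [intervalIntegral.integral_const, smul_eq_mul, sub_zero] at h3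
  calc (2 * Real.pi)⁻¹ * ∫ θ in (0:ℝ)..(2 * Real.pi), ∑ k ∈ range J, WW c k *
        ‖HM c (lamH m) m α (circleMap 0 R θ + tau k * Complex.I)‖ ^ 2 ≤ (2 * Real.pi)⁻¹ * (2 * Real.pi * D') := by gcongr
    _ = D' := by field_simp

/-- **zeros in the discs around the nodes** -/
lemma disc_sum {v : ℕ → ℝ} (hm : 26100 ≤ m) (hc1 : c ≤ 1 / 10) (hν : 0 < ν) (hvv : ∀ k, |v k| = vv c ν k)
    (hO : OutR m c v α g D) {D' : ℝ}
    (hD' : ∀ z : ℂ, |z.re| < m - 5 → ‖z‖ ≤ 2 * m →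
      ∀ J : ℕ, ∑ k ∈ range J, WW c k * ‖HM c (lamH m) m α (z + tau k * Complex.I)‖ ^ 2 ≤ D')
    {K : ℕ} (hK : 1 ≤ K) (Z : ℕ → Finset ℂ) (hZ : ∀ k < K, ∀ ρ ∈ Z k, dist ρ (tau k * Complex.I) ≤ m - 26 / 5) :
    (∑ k ∈ range K, ∑ ρ ∈ Z k, (analyticOrderNatAt (HM c (lamH m) m α) ρ : ℝ)) * Real.log ((m - 51 / 10) / (m - 26 / 5)) ≤
      K * (D' / 2 - Real.log ν + Real.log (LL c K)) := by
  have hc := hO.hc
  have hmR : (26100:ℝ) ≤ m := by exact_mod_cast hm
  have hKR : (1:ℝ) ≤ K := by exact_mod_cast hK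
  have hW := fun j => WW_pos hc hc1 j
  have hL := fun k => LL_two hc hc1 k
  rw [sum_mul]
  have hone : ∀ k ∈ range K, (∑ ρ ∈ Z k, (analyticOrderNatAt (HM c (lamH m) m α) ρ : ℝ)) * Real.log ((m - 51 / 10) / (m - 26 / 5)) ≤
      K / 2 * (WW c k * Real.circleAverage (fun z => ‖HM c (lamH m) m α z‖ ^ 2) (tau k * Complex.I) (m - 51 / 10)) +
        (Real.log (LL c K) - Real.log ν) := by
    intro k hk
    rw [mem_range] at hk
    have hv := vv_pos hc hc1 hν k
    have hnode := HM_node hO k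
    have hball : closedBall ((tau k : ℂ) * Complex.I) ((m:ℝ) - 51 / 10) ⊆ {s : ℂ | |s.re| < m} := by
      intro s hs
      rw [mem_closedBall, dist_eq_norm] at hs
      have h1 := Complex.abs_re_le_norm (s - (tau k : ℂ) * Complex.I)
      have h2 : (s - (tau k : ℂ) * Complex.I).re = s.re := by simp
      rw [h2] at h1
      simp only [Set.mem_ofPred_eq]
      linarith
    have h1 := jensen_sq (f := HM c (lamH m) m α) (c := (tau k : ℂ) * Complex.I) (R1 := m - 26 / 5) (R := m - 51 / 10)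
      (a := 1 / (K * WW c k)) (by linarith) (by linarith) (by have := hW k; positivity)
      ((HM_ana (by omega) hO).mono hball) (by
        rw [hnode]
        have h0 : v k ≠ 0 := by
          rw [← abs_pos, hvv k]
          exact hv
        exact_mod_cast h0) (Z k) (hZ k hk)
    refine h1.trans ?_
    have e1 : 1 / (2 * (1 / (K * WW c k))) = K / 2 * WW c k := by
      have := (hW k).ne'
      field_simp
    rw [e1, hnode, Complex.norm_real, Real.norm_eq_abs, hvv k]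
    have hWk := hW k
    have hLk := hL k
    have hLk0 : 0 < LL c k := by linarith
    have e2 : Real.log (1 / (K * WW c k)) = -(Real.log K + (Real.log (1 + k) + 4 * Real.log (LL c k))) := by
      rw [one_div, Real.log_inv, Real.log_mul (by positivity) hWk.ne', WW_LL, Real.log_mul (by positivity) (by positivity),
        Real.log_pow]
      push_cast
      ring
    have e3 : Real.log (vv c ν k) = Real.log ν - (Real.log (1 + k) + 3 * Real.log (LL c k)) := by
      unfold vv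
      rw [Real.log_div hν.ne' (by positivity), Real.log_mul (by positivity) (by positivity), Real.log_pow]
      push_cast
      ring
    rw [e2, e3]
    have h4 : Real.log (1 + k) ≤ Real.log K := by
      apply Real.log_le_log (by positivity)
      have : ((k + 1 : ℕ) : ℝ) ≤ K := by exact_mod_cast hk
      push_cast at this
      linarith
    have h5 : Real.log (LL c k) ≤ Real.log (LL c K) := Real.log_le_log hLk0 (LL_mono hc hk.le)
    linarith
  refine (sum_le_sum hone).trans ?_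
  rw [sum_add_distrib, ← mul_sum, sum_const, card_range, nsmul_eq_mul]
  have h2 := avg_nodes (by omega) hO hD' (R := m - 51 / 10) (by linarith) (by linarith) K
  have h3 : (K:ℝ) / 2 * (∑ k ∈ range K, WW c k * Real.circleAverage (fun z => ‖HM c (lamH m) m α z‖ ^ 2) (tau k * Complex.I) (m - 51 / 10)) ≤
      K / 2 * D' := mul_le_mul_of_nonneg_left h2 (by positivity)
  linarith

/-- **few zeros in the middle of the strip** -/
theorem up_count {v : ℕ → ℝ} (hm : 26100 ≤ m) (hc1 : c ≤ 1 / 10) (hν : 0 < ν) (hvv : ∀ k, |v k| = vv c ν k)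
    (hJP : JP c C) (hC : 0 ≤ C) (hD : 0 ≤ D) (hO : OutR m c v α g D) : ∃ A Y₀ : ℝ, 0 < A ∧ ∀ Y : ℝ, Y₀ ≤ Y → ∀ Z : Finset ℂ,
      (∀ ρ ∈ Z, |ρ.re| ≤ m - 21 / 4 ∧ 0 < ρ.im ∧ ρ.im ≤ Y) →
      ∑ ρ ∈ Z, (analyticOrderNatAt (HM c (lamH m) m α) ρ : ℝ) ≤ A * (Y * Real.log (Real.log Y)) := by
  obtain ⟨D', hD'0, hD'⟩ := sq_nodes hc1 hJP hC hD hO (by omega)
  have hc := hO.hc
  have hmR : (26100:ℝ) ≤ m := by exact_mod_cast hm
  set q : ℝ := Real.log ((m - 51 / 10) / (m - 26 / 5)) with hq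
  have hq0 : 0 < q := by
    apply Real.log_pos
    rw [one_lt_div (by linarith)]
    linarith
  set B : ℝ := |D' / 2 - Real.log ν| + 1 with hB
  have hB0 : 0 < B := by positivity
  refine ⟨(B + 1) / q, max (2 / c) (Real.exp (Real.exp 1)), by positivity, fun Y hY Z hZ => ?_⟩
  have hY1 : 2 / c ≤ Y := (le_max_left _ _).trans hY
  have hY2 : Real.exp (Real.exp 1) ≤ Y := (le_max_right _ _).trans hY
  have hYc : 20 ≤ Y := by
    refine le_trans ?_ hY1
    rw [le_div_iff₀ hc]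
    linarith
  have hlogY : Real.exp 1 ≤ Real.log Y := by
    rwa [Real.le_log_iff_exp_le (by linarith)]
  have hloglog : 1 ≤ Real.log (Real.log Y) := by
    rw [Real.le_log_iff_exp_le (lt_of_lt_of_le (Real.exp_pos 1) hlogY)]
    exact hlogY
  obtain ⟨p1, p2⟩ := pi16
  have hp := Real.pi_pos
  set K : ℕ := ⌊Y / (16 * Real.pi)⌋₊ + 1 with hK
  have hK1 : 1 ≤ K := by omega
  have hKY : 1 + (K : ℝ) ≤ Y := by
    have h1 : (⌊Y / (16 * Real.pi)⌋₊ : ℝ) ≤ Y / (16 * Real.pi) := Nat.floor_le (by positivity)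
    have h2 : Y / (16 * Real.pi) ≤ Y / 50 := by
      apply div_le_div_of_nonneg_left (by linarith) (by norm_num) p2
    rw [hK]
    push_cast
    linarith
  set kk : ℂ → ℕ := fun ρ => ⌊ρ.im / (16 * Real.pi)⌋₊ with hkk
  have hmaps : ∀ ρ ∈ Z, kk ρ ∈ range K := by
    intro ρ hρ
    rw [mem_range, hK, Nat.lt_succ_iff]
    apply Nat.floor_le_floor
    have := (hZ ρ hρ).2.2
    gcongr
  rw [← sum_fiberwise_of_maps_to hmaps]
  have h1 := disc_sum hm hc1 hν hvv hO hD' hK1 (fun k => Z.filter (fun ρ => kk ρ = k)) (by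
    intro k _ ρ hρ
    rw [mem_filter] at hρ
    obtain ⟨hρZ, hρk⟩ := hρ
    obtain ⟨z1, z2, z3⟩ := hZ ρ hρZ
    have g1 : (k : ℝ) ≤ ρ.im / (16 * Real.pi) := by rw [← hρk]; exact Nat.floor_le (by positivity)
    have g2 : ρ.im / (16 * Real.pi) < k + 1 := by rw [← hρk]; exact Nat.lt_floor_add_one _
    rw [le_div_iff₀ (by positivity)] at g1
    rw [div_lt_iff₀ (by positivity)] at g2
    rw [dist_eq_norm]
    apply le_of_sq_le_sq _ (by linarith)
    rw [norm_sq_c]
    have e1 : (ρ - (tau k : ℂ) * Complex.I).re = ρ.re := by simp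
    have e2 : (ρ - (tau k : ℂ) * Complex.I).im = ρ.im - tau k := by simp
    rw [e1, e2]
    have e3 : ρ.re ^ 2 ≤ (m - 21 / 4) ^ 2 := by
      rw [← sq_abs]
      exact pow_le_pow_left₀ (abs_nonneg _) z1 2
    have e4 : (ρ.im - tau k) ^ 2 ≤ 51 ^ 2 := by
      rw [← sq_abs]
      apply pow_le_pow_left₀ (abs_nonneg _)
      unfold tau
      rw [abs_le]
      constructor <;> nlinarith
    nlinarith)
  rw [← hq] at h1
  have h2 : Real.log (LL c K) ≤ 1 + Real.log (Real.log Y) := by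
    have g1 : LL c K ≤ 2 * Real.log Y := by
      unfold LL
      have g2 : (1 + (K:ℝ)) / c ≤ Y * Y := by
        rw [div_le_iff₀ hc]
        rw [div_le_iff₀ hc] at hY1
        have g3 : (1:ℝ) ≤ Y * c := by linarith
        calc (1 + (K:ℝ)) ≤ Y * 1 := by linarith
          _ ≤ Y * (Y * c) := by gcongr
          _ = _ := by ring
      calc Real.log ((1 + (K:ℝ)) / c) ≤ Real.log (Y * Y) := Real.log_le_log (by positivity) g2
        _ = 2 * Real.log Y := by rw [Real.log_mul (by linarith) (by linarith)]; ring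
    have g4 := LL_two hc hc1 K
    have g5 : 0 < Real.log Y := lt_of_lt_of_le (Real.exp_pos 1) hlogY
    calc Real.log (LL c K) ≤ Real.log (2 * Real.log Y) := Real.log_le_log (by linarith) g1
      _ = Real.log 2 + Real.log (Real.log Y) := Real.log_mul (by norm_num) g5.ne'
      _ ≤ _ := by linarith [Real.log_two_lt_d9]
  have h3 : (K:ℝ) * (D' / 2 - Real.log ν + Real.log (LL c K)) ≤ Y * ((B + 1) * Real.log (Real.log Y)) := by
    have g1 : D' / 2 - Real.log ν + Real.log (LL c K) ≤ (B + 1) * Real.log (Real.log Y) := by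
      have := le_abs_self (D' / 2 - Real.log ν)
      have : D' / 2 - Real.log ν + 1 ≤ B := by rw [hB]; linarith
      nlinarith
    calc (K:ℝ) * (D' / 2 - Real.log ν + Real.log (LL c K)) ≤ K * ((B + 1) * Real.log (Real.log Y)) := by gcongr
      _ ≤ Y * ((B + 1) * Real.log (Real.log Y)) := by
          apply mul_le_mul_of_nonneg_right (by linarith)
          positivity
  have h4 := h1.trans h3
  rw [← le_div_iff₀ hq0] at h4
  refine h4.trans (le_of_eq ?_)
  ring

end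

section

variable {m : ℕ} {c D : ℝ} {v α g : ℕ → ℝ}

/-- the Dirichlet series in the variable of the boundary function -/
lemma GG_series2 (hO : OutR m c v α g D) {a : ℕ → ℂ} (hA : CoefA m α a) {F : ℂ → ℂ}
    (hs : ∀ s : ℂ, 1 < s.re → F s = LSeries a s) {z : ℂ} (hz : lamH m < z.re) :
    HasSum (fun n : ℕ => if n = 0 then 0 else
      ((α n : ℝ) : ℂ) * ((uu c (lamH m) n : ℝ) : ℂ) ^ (-z)) (GG m c F z) := by
  have hl := lam_pos m
  have hc := hO.hc
  have hlc : (lamH m : ℂ) ≠ 0 := by exact_mod_cast hl.ne'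
  obtain ⟨s, hsd⟩ : ∃ s : ℂ, s = (kap m : ℂ) + z / (lamH m : ℂ) := ⟨_, rfl⟩
  have hkap : 0 < kap m := by unfold kap; positivity
  have hre : s.re = kap m + z.re / lamH m := by
    rw [hsd, Complex.add_re, Complex.ofReal_re, Complex.div_ofReal_re]
  have hs1 : 1 < s.re := by
    rw [hre]
    have : 1 < z.re / lamH m := by rw [lt_div_iff₀ hl]; linarith
    linarith
  have hsum : LSeriesSummable a s := hA.sum s hs1
  have h1 : HasSum (fun n : ℕ => LSeries.term a s n) (LSeries a s) := hsum.hasSum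
  have h2 := h1.mul_left ((c : ℂ) ^ (-z))
  unfold GG
  rw [← hsd, hs s hs1]
  refine h2.congr_fun fun n => ?_
  rcases Nat.eq_zero_or_pos n with h0 | h0
  · subst h0
    simp [LSeries.term_zero]
  · rw [if_neg h0.ne', LSeries.term_of_ne_zero h0.ne']
    have hn : (0 : ℝ) < n := by exact_mod_cast h0
    have hnc : ((n : ℕ) : ℂ) ≠ 0 := by exact_mod_cast h0.ne'
    rw [hA.eq n h0]
    have hu := uu_pos (lam := lamH m) hc h0
    have e2 : (n : ℝ) ^ kap m = Real.exp (Real.log n * kap m) := Real.rpow_def_of_pos hn _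
    have e3 : ((n : ℕ) : ℂ) ^ s = Complex.exp ((Real.log n : ℂ) * s) := by
      rw [show ((n : ℕ) : ℂ) = ((n : ℝ) : ℂ) by push_cast; rfl]
      exact pow_eq_exp hn s
    have e5 : ∀ a y : ℂ, a / Complex.exp y = a * Complex.exp (-y) := by
      intro a y; rw [Complex.exp_neg, div_eq_mul_inv]
    rw [pow_eq_exp hu, uu_log hc h0, e2, e3, e5, pow_eq_exp hc, hsd]
    push_cast
    have e4 : ∀ a b c' d : ℂ, Complex.exp a * (b * Complex.exp c' * Complex.exp d) =
        b * Complex.exp (a + c' + d) := by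
      intro a b c' d
      rw [Complex.exp_add, Complex.exp_add]
      ring
    rw [e4]
    congr 2
    field_simp
    ring

/-- the Mellin transform in terms of the Dirichlet series -/
lemma HM_F (hm : 1 ≤ m) (hO : OutR m c v α g D) {a : ℕ → ℂ} (hA : CoefA m α a) {F : ℂ → ℂ} (hF : Differentiable ℂ F)
    (hser : ∀ s : ℂ, 1 < s.re → F s = LSeries a s) {s : ℂ} (hs : |s.re| < m) (hi : s.im ≠ 0) :
    HM c (lamH m) m α s = Uf m c s * F (1 / 2 + s / lamH m) := by
  have hc := hO.hc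
  have hl := lam_pos m
  have hlc : (lamH m : ℂ) ≠ 0 := by exact_mod_cast hl.ne'
  rw [abs_lt] at hs
  have hcon := connect (bd_of_outR hm hO) (GG_diff hF hc) (R := lamH m) (fun z hz => GG_series2 hO hA hser hz)
    (w := -(m : ℂ) + s) (by simp; linarith) (by simp; linarith)
  have hΓ : Complex.Gamma (-(m : ℂ) + s) ≠ 0 := Complex.Gamma_ne_zero (Uf_gam hi m)
  have h1 : HM c (lamH m) m α s = (Complex.Gamma (-(m : ℂ) + s) * Complex.cos (Real.pi * (-(m : ℂ) + s) / 2)) *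
      GG m c F (-(m : ℂ) + s) := by
    unfold HM
    rw [mul_assoc, ← hcon]
    field_simp
  rw [h1]
  unfold GG Uf
  have e1 : (kap m : ℂ) + (-(m : ℂ) + s) / (lamH m : ℂ) = 1 / 2 + s / lamH m := by
    unfold kap
    push_cast
    field_simp
    ring
  have e2 : -(-(m : ℂ) + s) = (m : ℂ) - s := by ring
  rw [e1, e2]
  ring

/-- zeros of the Dirichlet series and zeros of the Mellin transform -/
lemma ord_eq (hm : 1 ≤ m) (hO : OutR m c v α g D) {a : ℕ → ℂ} (hA : CoefA m α a) {F : ℂ → ℂ} (hF : Differentiable ℂ F)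
    (hser : ∀ s : ℂ, 1 < s.re → F s = LSeries a s) {s : ℂ} (hs : |s.re| < m) (hi : s.im ≠ 0) :
    analyticOrderNatAt (HM c (lamH m) m α) s = analyticOrderNatAt F (1 / 2 + s / lamH m) := by
  have hc := hO.hc
  have hl := lam_pos m
  have hlc : (lamH m : ℂ) ≠ 0 := by exact_mod_cast hl.ne'
  have ho1 : IsOpen {z : ℂ | |z.re| < m} := isOpen_lt (by fun_prop) continuous_const
  have ho2 : IsOpen {z : ℂ | z.im ≠ 0} := isOpen_ne_fun (by fun_prop) continuous_const
  have hev : HM c (lamH m) m α =ᶠ[nhds s] (Uf m c * (F ∘ fun z => 1 / 2 + z / lamH m)) := by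
    filter_upwards [ho1.mem_nhds hs, ho2.mem_nhds hi] with z hz1 hz2
    exact HM_F hm hO hA hF hser hz1 hz2
  have hφ : AnalyticAt ℂ (fun z : ℂ => 1 / 2 + z / (lamH m : ℂ)) s := by fun_prop
  have hφ' : deriv (fun z : ℂ => 1 / 2 + z / (lamH m : ℂ)) s ≠ 0 := by
    have : HasDerivAt (fun z : ℂ => 1 / 2 + z / (lamH m : ℂ)) (1 / (lamH m : ℂ)) s :=
      ((hasDerivAt_id s).div_const _).const_add _
    rw [this.deriv]
    exact one_div_ne_zero hlc
  have hFa : AnalyticAt ℂ (F ∘ fun z : ℂ => 1 / 2 + z / (lamH m : ℂ)) s :=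
    (hF.analyticAt _).comp hφ
  unfold analyticOrderNatAt
  rw [analyticOrderAt_congr hev, analyticOrderAt_mul (Uf_ana hc hi) hFa,
    (Uf_ana hc hi).analyticOrderAt_eq_zero.2 (Uf_ne hc hi), zero_add, analyticOrderAt_comp_of_deriv_ne_zero hφ hφ']

end

end Pool.Agent.Q127.ET
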