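import Mathlib
import Pool.Agent.Q127.ET.Zr

/-!
# Zeros of the members produced by the machine, second part
-/

set_option autoImplicit false

open Filter Topology MeasureTheory Set Complex

namespace Pool.Agent.Q127.ET

open Pool.Agent.H469R10.HO Pool.Agent.H13R3.EM
open Pool.Agent.Q127.EZ
open Pool.Agent.Q284.S (Bd Mm Mm_le gam_cos gam_cos_low strip order_pos right_bounds ord_shift pow_small)

section

variable {m : ℕ} {c D ν : ℝ} {v α g : ℕ → ℝ}

/-- polynomial growth for `Re s ≥ 1/2 - 1/lamH m` -/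
theorem growth2 (hm : 1 ≤ m) (hm2 : 2 ≤ m) (hO : OutR m c v α g D) {a₁ : ℕ → ℂ} (hA : CoefA m α a₁) (S : Sel) (h0 : S.m0 = 0)
    (hser : ∀ s : ℂ, 1 < s.re → S.G s = LSeries a₁ s) : ∃ K : ℝ, 0 < K ∧
      ∀ s : ℂ, 1 / 2 - 1 / lamH m ≤ s.re → ‖S.G s‖ ≤ K * ‖s + 1‖ ^ (m + 2) := by
  have hc := hO.hc
  have hl := lam_pos m
  have hlc : (lamH m : ℂ) ≠ 0 := by exact_mod_cast hl.ne'
  have hmR : (2 : ℝ) ≤ m := by exact_mod_cast hm2
  have hl1 : 2 ≤ lamH m := by unfold lamH; linarith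
  have hal : 1 / lamH m ≤ 1 / 2 := one_div_le_one_div_of_le (by norm_num) hl1
  have hal0 : 0 < 1 / lamH m := by positivity
  obtain ⟨a, ha⟩ : ∃ a : ℝ, a = 1 / 2 - 1 / lamH m := ⟨_, rfl⟩
  have ha0 : 0 ≤ a := by rw [ha]; linarith
  rw [← ha]
  have hn1 : ∀ z : ℂ, 0 ≤ z.re → 1 ≤ ‖z + 1‖ := by
    intro z hz
    refine le_trans ?_ (Complex.abs_re_le_norm _)
    rw [Complex.add_re, Complex.one_re, abs_of_nonneg (by linarith)]
    linarith
  obtain ⟨D0, hD, hR⟩ := right_bounds S h0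
  obtain ⟨B, hB0, hB⟩ := Mm_le (c := c) (lam := lamH m) (m := m) (α := α) (-1)
  obtain ⟨C, hC, hlow⟩ := gam_cos_low (m + 1)
  obtain ⟨K₁, hK₁⟩ := (isCompact_closedBall (0 : ℂ) 2).exists_bound_of_continuousOn S.diff.continuous.continuousOn
  obtain ⟨K₂, hK₂⟩ : ∃ K₂ : ℝ, K₂ = B / (C * c ^ ((m : ℝ) + 1)) * lamH m ^ (m + 2) := ⟨_, rfl⟩
  have hK₂0 : 0 < K₂ := by rw [hK₂]; positivity
  obtain ⟨K, hK⟩ : ∃ K : ℝ, K = |K₁| + K₂ + Real.exp D0 := ⟨_, rfl⟩
  have hK1 : |K₁| ≤ K := by rw [hK]; linarith [Real.exp_pos D0]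
  have hK2 : K₂ ≤ K := by rw [hK]; linarith [Real.exp_pos D0, abs_nonneg K₁]
  have hK3 : Real.exp D0 ≤ K := by rw [hK]; linarith [abs_nonneg K₁]
  have hK0 : 0 < K := lt_of_lt_of_le (Real.exp_pos D0) hK3
  -- the right half-plane
  have hright : ∀ s : ℂ, 3 / 2 ≤ s.re → ‖S.G s‖ ≤ K * ‖s + 1‖ ^ (m + 2) := by
    intro s hs
    have h1 : 1 ≤ ‖s + 1‖ ^ (m + 2) := one_le_pow₀ (hn1 s (by linarith))
    calc ‖S.G s‖ ≤ Real.exp D0 := (hR s hs).2
      _ ≤ K * 1 := by rw [mul_one]; exact hK3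
      _ ≤ _ := mul_le_mul_of_nonneg_left h1 hK0.le
  -- the line
  have hline : ∀ s : ℂ, s.re = a → ‖S.G s‖ ≤ K * ‖s + 1‖ ^ (m + 2) := by
    intro s hs
    have h1 : 1 ≤ ‖s + 1‖ := hn1 s (by linarith)
    have h1' : 1 ≤ ‖s + 1‖ ^ (m + 2) := one_le_pow₀ h1
    obtain ⟨y, hy⟩ : ∃ y : ℝ, y = lamH m * s.im := ⟨_, rfl⟩
    have hsy : s = 1 / 2 + (((-1 : ℝ) : ℂ) + y * I) / lamH m := by
      have e1 : y / lamH m = s.im := by rw [hy]; field_simp
      have e2 : (1 / 2 + (((-1 : ℝ) : ℂ) + y * I) / lamH m : ℂ) = ((1 / 2 - 1 / lamH m : ℝ) : ℂ) + ((y / lamH m : ℝ) : ℂ) * I := by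
        push_cast
        field_simp
        ring
      rw [e2, ← ha, e1, ← hs]
      exact (re_add_im s).symm
    rcases le_total |y| 1 with hy1 | hy1
    · have hs2 : s ∈ Metric.closedBall (0 : ℂ) 2 := by
        rw [mem_closedBall_zero_iff]
        have h2 := Complex.norm_le_abs_re_add_abs_im s
        have h3 : |s.im| ≤ 1 := by
          rw [hy, abs_mul, abs_of_pos hl] at hy1
          nlinarith [abs_nonneg s.im]
        have h4 : a ≤ 1 / 2 := by rw [ha]; linarith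
        rw [hs, abs_of_nonneg ha0] at h2
        linarith
      calc ‖S.G s‖ ≤ K₁ := hK₁ s hs2
        _ ≤ K * 1 := by rw [mul_one]; exact (le_abs_self _).trans hK1
        _ ≤ _ := mul_le_mul_of_nonneg_left h1' hK0.le
    · have hy0 : 0 < |y| := by linarith
      have hyne : y ≠ 0 := abs_pos.1 hy0
      have hHM := HM_F hm hO hA S.diff hser (s := ((-1 : ℝ) : ℂ) + y * I) (by simp; linarith) (by simpa using hyne)
      rw [← hsy, HM_Mm] at hHM
      have h5 := hB y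
      rw [hHM, norm_mul, Uf_line hc] at h5
      have h4 := hlow y hy1
      have e3 : (-((m + 1 : ℕ) : ℝ)) = -(m : ℝ) + -1 := by push_cast; ring
      rw [e3] at h4
      have e4 : (m : ℝ) - -1 = m + 1 := by ring
      rw [e4] at h5
      have hcm : 0 < c ^ ((m : ℝ) + 1) := Real.rpow_pos_of_pos hc _
      have h6 : C * |y| ^ (-(m : ℝ) + -1 - 1 / 2) * c ^ ((m : ℝ) + 1) * ‖S.G s‖ ≤ B :=
        (mul_le_mul_of_nonneg_right (mul_le_mul_of_nonneg_right h4 hcm.le) (norm_nonneg _)).trans h5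
      have h7 : |y| ^ (-(m : ℝ) + -1 - 1 / 2) = (|y| ^ ((m : ℝ) + 3 / 2))⁻¹ := by
        rw [← Real.rpow_neg hy0.le]
        congr 1
        ring
      have h8 : |y| ^ ((m : ℝ) + 3 / 2) ≤ (lamH m * ‖s + 1‖) ^ (m + 2) := by
        have e1 : |y| ≤ lamH m * ‖s + 1‖ := by
          rw [hy, abs_mul, abs_of_pos hl]
          refine mul_le_mul_of_nonneg_left ?_ hl.le
          have := Complex.abs_im_le_norm (s + 1)
          rwa [add_im, one_im, add_zero] at this
        calc |y| ^ ((m : ℝ) + 3 / 2) ≤ |y| ^ ((m + 2 : ℕ) : ℝ) :=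
              Real.rpow_le_rpow_of_exponent_le hy1 (by push_cast; linarith)
          _ = |y| ^ (m + 2) := Real.rpow_natCast _ _
          _ ≤ _ := pow_le_pow_left₀ hy0.le e1 _
      have h9 : ‖S.G s‖ ≤ B / (C * c ^ ((m : ℝ) + 1)) * |y| ^ ((m : ℝ) + 3 / 2) := by
        rw [h7] at h6
        have hp : 0 < |y| ^ ((m : ℝ) + 3 / 2) := Real.rpow_pos_of_pos hy0 _
        rw [div_mul_eq_mul_div, le_div_iff₀ (by positivity)]
        have h10 := mul_le_mul_of_nonneg_right h6 hp.le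
        calc ‖S.G s‖ * (C * c ^ ((m : ℝ) + 1)) =
            C * (|y| ^ ((m : ℝ) + 3 / 2))⁻¹ * c ^ ((m : ℝ) + 1) * ‖S.G s‖ * |y| ^ ((m : ℝ) + 3 / 2) := by
              field_simp
          _ ≤ _ := h10
      calc ‖S.G s‖ ≤ B / (C * c ^ ((m : ℝ) + 1)) * |y| ^ ((m : ℝ) + 3 / 2) := h9
        _ ≤ B / (C * c ^ ((m : ℝ) + 1)) * (lamH m * ‖s + 1‖) ^ (m + 2) := mul_le_mul_of_nonneg_left h8 (by positivity)
        _ = K₂ * ‖s + 1‖ ^ (m + 2) := by rw [hK₂, mul_pow]; ring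
        _ ≤ _ := mul_le_mul_of_nonneg_right hK2 (by positivity)
  refine ⟨K, hK0, fun s hs => ?_⟩
  rcases le_total (3 / 2) s.re with h | h
  · exact hright s h
  · obtain ⟨A', C', hA', hgr⟩ := order_pos S
    exact strip S.diff hA' hgr (a := a) (b := 3 / 2) (by rw [ha]; linarith) ha0 (m + 2) hline
      (fun z hz => hright z (by rw [hz])) hs h

/-- large values at the nodes -/
theorem big_values (hm : 100 ≤ m) (hν : 0 < ν) (hc1 : c ≤ 1 / 10) (hvv : ∀ k, |v k| = vv c ν k)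
    (hO : OutR m c v α g D) {a₁ : ℕ → ℂ} (hA : CoefA m α a₁) {F : ℂ → ℂ}
    (hF : Differentiable ℂ F) (hser : ∀ s : ℂ, 1 < s.re → F s = LSeries a₁ s) :
    ∀ᶠ T : ℝ in atTop, ∃ t : ℝ, T ≤ t ∧ t ≤ T + 1 ∧ T ^ (1 : ℝ) < ‖F (1 / 2 + t * I)‖ := by
  have hc := hO.hc
  have hl := lam_pos m
  have hlc : (lamH m : ℂ) ≠ 0 := by exact_mod_cast hl.ne'
  have hmR : (100 : ℝ) ≤ m := by exact_mod_cast hm
  have hl1 : 100 ≤ lamH m := by unfold lamH; linarith
  obtain ⟨C, hC, hup⟩ := gam_cos (-(m : ℝ))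
  obtain ⟨κ, hκ⟩ : ∃ κ : ℝ, κ = ν * c ^ 3 / (C * c ^ (m : ℝ)) := ⟨_, rfl⟩
  have hκ0 : 0 < κ := by rw [hκ]; positivity
  obtain ⟨p1, p2⟩ := pi16
  have hp := Real.pi_pos
  filter_upwards [eventually_ge_atTop (1 / κ + 1)] with T hT
  have hκi : 0 < 1 / κ := by positivity
  have hT1 : 1 ≤ T := by linarith
  have hT0 : 0 < T := by linarith
  obtain ⟨n, hn⟩ : ∃ n : ℕ, n = ⌈lamH m * T / (16 * Real.pi)⌉₊ := ⟨_, rfl⟩
  have hn0 : 0 < n := by
    rw [hn, Nat.ceil_pos]; positivity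
  obtain ⟨k, rfl⟩ : ∃ k, n = k + 1 := ⟨n - 1, by omega⟩
  have hk1 : lamH m * T / (16 * Real.pi) ≤ (k : ℝ) + 1 := by
    have := Nat.le_ceil (lamH m * T / (16 * Real.pi))
    rw [← hn] at this
    push_cast at this
    exact this
  have hk2 : (k : ℝ) + 1 < lamH m * T / (16 * Real.pi) + 1 := by
    have := Nat.ceil_lt_add_one (show 0 ≤ lamH m * T / (16 * Real.pi) by positivity)
    rw [← hn] at this
    push_cast at this
    exact this
  have ht1 : lamH m * T ≤ tau k := by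
    unfold tau
    rw [div_le_iff₀ (by positivity)] at hk1
    linarith
  have ht2 : tau k ≤ lamH m * (T + 1) := by
    unfold tau
    have h1 : 16 * Real.pi * ((k : ℝ) + 1) ≤ 16 * Real.pi * (lamH m * T / (16 * Real.pi) + 1) :=
      mul_le_mul_of_nonneg_left hk2.le (by positivity)
    have h2 : 16 * Real.pi * (lamH m * T / (16 * Real.pi) + 1) = lamH m * T + 16 * Real.pi := by
      field_simp
    linarith
  have hτT : T ≤ tau k := by nlinarith
  have hτ1 : 1 ≤ tau k := by linarith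
  have hτ0 : 0 < tau k := by linarith
  refine ⟨tau k / lamH m, by rwa [le_div_iff₀ hl, mul_comm], by rwa [div_le_iff₀ hl, mul_comm], ?_⟩
  rw [Real.rpow_one]
  have hHM := HM_F (by omega) hO hA hF hser (s := (tau k : ℂ) * I) (by simp; linarith) (by simpa using hτ0.ne')
  rw [HM_node hO k] at hHM
  have e1 : (1 / 2 + (tau k : ℂ) * I / lamH m : ℂ) = 1 / 2 + ((tau k / lamH m : ℝ) : ℂ) * I := by
    push_cast; ring
  rw [e1] at hHM
  have h1 := congrArg norm hHM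
  have hv := vv_pos hc hc1 hν k
  have e2 : (tau k : ℂ) * I = ((0 : ℝ) : ℂ) + (tau k : ℂ) * I := by push_cast; ring
  rw [norm_mul, Complex.norm_real, Real.norm_eq_abs, hvv k, e2, Uf_line hc, add_zero, sub_zero] at h1
  have h2 := hup (tau k) (by rw [abs_of_pos hτ0]; exact hτ1)
  rw [abs_of_pos hτ0] at h2
  have hcm : 0 < c ^ (m : ℝ) := Real.rpow_pos_of_pos hc _
  obtain ⟨X, hX⟩ : ∃ X : ℝ, X = ‖F (1 / 2 + ((tau k / lamH m : ℝ) : ℂ) * I)‖ := ⟨_, rfl⟩
  rw [← hX] at h1 ⊢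
  have hX0 : 0 ≤ X := by rw [hX]; exact norm_nonneg _
  have h3 : vv c ν k ≤ C * tau k ^ (-(m : ℝ) - 1 / 2) * c ^ (m : ℝ) * X := by
    rw [h1]
    exact mul_le_mul_of_nonneg_right (mul_le_mul_of_nonneg_right h2 hcm.le) hX0
  -- lower bound of the prescribed value
  have hLk := LL_two hc hc1 k
  have hL2 : LL c k ≤ tau k / c := by
    unfold LL
    have h4 : (1 + (k : ℝ)) / c ≤ tau k / c := by
      have := one_add_le_tau k
      gcongr
    have h5 := Real.log_le_sub_one_of_pos (show 0 < (1 + (k : ℝ)) / c by positivity)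
    linarith
  have h4 : ν * c ^ 3 / tau k ^ 4 ≤ vv c ν k := by
    unfold vv
    have h5 : (1 + (k : ℝ)) * LL c k ^ 3 ≤ tau k * (tau k / c) ^ 3 := by
      have := one_add_le_tau k
      have h6 : LL c k ^ 3 ≤ (tau k / c) ^ 3 := pow_le_pow_left₀ (by linarith) hL2 3
      have h7 : 0 ≤ LL c k ^ 3 := by positivity
      exact mul_le_mul this h6 h7 hτ0.le
    calc ν * c ^ 3 / tau k ^ 4 = ν / (tau k * (tau k / c) ^ 3) := by field_simp
      _ ≤ _ := div_le_div_of_nonneg_left hν.le (by positivity) h5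
  have h5 : κ * tau k ^ ((m : ℝ) - 7 / 2) ≤ X := by
    have h6 := h4.trans h3
    have h7 : tau k ^ (-(m : ℝ) - 1 / 2) = (tau k ^ ((m : ℝ) + 1 / 2))⁻¹ := by
      rw [← Real.rpow_neg hτ0.le]
      congr 1
      ring
    have h8 : tau k ^ ((m : ℝ) + 1 / 2) = tau k ^ ((m : ℝ) - 7 / 2) * tau k ^ 4 := by
      rw [← Real.rpow_natCast, ← Real.rpow_add hτ0]
      congr 1
      push_cast; ring
    rw [h7, h8, div_le_iff₀ (by positivity)] at h6
    have h9 : 0 < tau k ^ ((m : ℝ) - 7 / 2) := Real.rpow_pos_of_pos hτ0 _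
    rw [hκ, div_mul_eq_mul_div, div_le_iff₀ (by positivity)]
    have h10 := mul_le_mul_of_nonneg_right h6 h9.le
    calc ν * c ^ 3 * tau k ^ ((m : ℝ) - 7 / 2) ≤
        C * (tau k ^ ((m : ℝ) - 7 / 2) * tau k ^ 4)⁻¹ * c ^ (m : ℝ) * X * tau k ^ 4 * tau k ^ ((m : ℝ) - 7 / 2) := h10
      _ = X * (C * c ^ (m : ℝ)) := by field_simp
  have h6 : T * T ≤ tau k ^ ((m : ℝ) - 7 / 2) := by
    calc T * T ≤ tau k * tau k := mul_le_mul hτT hτT hT0.le hτ0.le
      _ = tau k ^ (2 : ℝ) := by rw [Real.rpow_two]; ring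
      _ ≤ _ := Real.rpow_le_rpow_of_exponent_le hτ1 (by linarith)
  have h7 : 1 < κ * T := by
    have h8 : 1 / κ < T := by linarith
    rwa [div_lt_iff₀' hκ0] at h8
  calc T = 1 * T := (one_mul _).symm
    _ < κ * T * T := mul_lt_mul_of_pos_right h7 hT0
    _ = κ * (T * T) := by ring
    _ ≤ κ * tau k ^ ((m : ℝ) - 7 / 2) := mul_le_mul_of_nonneg_left h6 hκ0.le
    _ ≤ X := h5

end


/-- zeros of the member: port of `EZ.edge_sg` -/
theorem edgeR {m : ℕ} {c C D ν : ℝ} {α g : ℕ → ℝ} {a₁ : ℕ → ℂ} (hm2 : 26100 ≤ m) (hc1 : c ≤ 1 / 10) (hν : 0 < ν)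
    (hC : 0 ≤ C) (hD : 0 ≤ D) (hJP : JP c C) {sg : ℕ → ℝ} (hsg : ∀ k, |sg k| = 1)
    (hO : OutR m c (fun k => sg k * vv c ν k) α g D) (hA1 : CoefA m α a₁) (S : Sel) (h0 : S.m0 = 0)
    (ha : ∀ n, S.a n = a₁ n) :
    (∃ H : ℝ → ℝ, Continuous H ∧ (∀ t : ℝ, t ≠ 0 → (S.G (1 / 2 + t * I) = 0 ↔ H t = 0)) ∧
      ∀ k : ℕ, 0 < sg k * H (32 * Real.pi * (k + 1) / (4 * m + 3))) ∧
    ∃ A δ : ℝ, 0 < A ∧ 0 < δ ∧
    (∀ᶠ T : ℝ in atTop, ∀ Z : Finset ℂ, (∀ ρ ∈ Z, |ρ.re - 1 / 2| ≤ 1 / 2 - 12 / (4 * m + 3) ∧ 0 < ρ.im ∧ ρ.im ≤ T) →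
      ∑ ρ ∈ Z, (analyticOrderNatAt S.G ρ : ℝ) ≤ A * (T * Real.log (Real.log T))) ∧
    (∀ᶠ T : ℝ in atTop, ∃ Z : Finset ℂ, (∀ ρ ∈ Z, 1 - 12 / (4 * m + 3) < ρ.re ∧ ρ.re ≤ 1 ∧ 0 < ρ.im ∧ ρ.im ≤ T) ∧
      δ * (T * Real.log T) ≤ ∑ ρ ∈ Z, (analyticOrderNatAt S.G ρ : ℝ)) := by
  have hc := hO.hc
  have hsq : ∀ k, sg k ^ 2 = 1 := fun k => by rw [← sq_abs, hsg k]; norm_num
  have hvv : ∀ k, |(fun k => sg k * vv c ν k) k| = vv c ν k := fun k => by
    simp only
    rw [abs_mul, hsg k, one_mul, abs_of_pos (vv_pos hc hc1 hν k)]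
  have hm1 : 1 ≤ m := by omega
  have hser : ∀ s : ℂ, 1 < s.re → S.G s = LSeries a₁ s := by
    intro s hs
    have h3 := S.cont s hs
    rw [h0, pow_zero, one_mul] at h3
    have h4 : S.a = a₁ := funext ha
    rw [h4] at h3
    exact h3
  refine ⟨?_, ?_⟩
  · have hl := lam_pos m
    have hlc : (lamH m : ℂ) ≠ 0 := by exact_mod_cast hl.ne'
    have hmR : (26100 : ℝ) ≤ m := by exact_mod_cast hm2
    have hre : ∀ y : ℝ, |((y : ℂ) * I).re| < m := fun y => by
      simp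
      linarith
    refine ⟨fun t => (HM c (lamH m) m α ((lamH m * t : ℝ) * I)).re, ?_, fun t ht => ?_, fun k => ?_⟩
    · rw [continuous_iff_continuousAt]
      intro t
      have h1 : ContinuousAt (HM c (lamH m) m α) ((lamH m * t : ℝ) * I) := (HM_diff hm1 hO (hre _)).continuousAt
      have h2 : ContinuousAt (fun t : ℝ => (((lamH m * t : ℝ) : ℂ) * I)) t := by fun_prop
      exact Complex.continuous_re.continuousAt.comp (ContinuousAt.comp (f := fun t : ℝ => (((lamH m * t : ℝ) : ℂ) * I)) h1 h2)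
    · have hi : (((lamH m * t : ℝ) : ℂ) * I).im ≠ 0 := by
        simp only [Complex.mul_im, Complex.ofReal_re, Complex.I_im, Complex.ofReal_im, Complex.I_re, mul_one, mul_zero, add_zero]
        exact mul_ne_zero hl.ne' ht
      have h1 := HM_F hm1 hO hA1 S.diff hser (hre (lamH m * t)) hi
      have h2 := Uf_ne (m := m) hc hi
      have e1 : (1 / 2 + (((lamH m * t : ℝ) : ℂ) * I) / lamH m : ℂ) = 1 / 2 + t * I := by
        push_cast
        field_simp
      rw [e1] at h1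
      have h3 : HM c (lamH m) m α ((lamH m * t : ℝ) * I) =
          (((∫ u : ℝ, Pool.Agent.Q284.S.gg c (lamH m) m α u * Real.cos ((lamH m * t) * u)) : ℝ) : ℂ) := by
        rw [← Mm_even (bd_of_outR hm1 hO), ← HM_Mm]
        simp
      constructor
      · intro h4
        rw [h4, mul_zero] at h1
        simp only
        rw [h1, Complex.zero_re]
      · intro h4
        simp only at h4
        rw [h3, Complex.ofReal_re] at h4
        rw [h3, h4, Complex.ofReal_zero] at h1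
        rcases mul_eq_zero.1 h1.symm with h5 | h5
        · exact absurd h5 h2
        · exact h5
    · have e1 : lamH m * (32 * Real.pi * (k + 1) / (4 * m + 3)) = tau k := by
        have : (0:ℝ) < 4 * m + 3 := by positivity
        unfold lamH tau
        field_simp
        ring
      simp only
      rw [e1, HM_node hO k, Complex.ofReal_re, ← mul_assoc, ← sq, hsq k, one_mul]
      exact vv_pos hc hc1 hν k
  have hl := lam_pos m
  have hlc : (lamH m : ℂ) ≠ 0 := by exact_mod_cast hl.ne'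
  have hmR : (26100 : ℝ) ≤ m := by exact_mod_cast hm2
  have hll : lamH m = (4 * m + 3) / 2 := by unfold lamH; ring
  have hdpos : (0:ℝ) < 4 * m + 3 := by positivity
  have hd12 : 12 / (4 * (m:ℝ) + 3) ≤ 1 / 4 := by
    rw [div_le_div_iff₀ hdpos (by norm_num)]; linarith
  have hd12' : 0 < 12 / (4 * (m:ℝ) + 3) := by positivity
  -- the upper bound
  obtain ⟨A, Y₀, hA, hup⟩ := up_count hm2 hc1 hν hvv hJP hC hD hO
  have hU : ∀ᶠ T : ℝ in atTop, ∀ Z : Finset ℂ, (∀ ρ ∈ Z, |ρ.re - 1 / 2| ≤ 1 / 2 - 12 / (4 * m + 3) ∧ 0 < ρ.im ∧ ρ.im ≤ T) →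
      ∑ ρ ∈ Z, (analyticOrderNatAt S.G ρ : ℝ) ≤ (2 * A * lamH m) * (T * Real.log (Real.log T)) := by
    filter_upwards [eventually_ge_atTop Y₀, eventually_ge_atTop (lamH m), eventually_ge_atTop (Real.exp (Real.exp 1)),
      eventually_ge_atTop 1] with T hT1 hT2 hT3 hT4 Z hZ
    have hl1 : 1 ≤ lamH m := by rw [hll]; linarith
    have hinj : Set.InjOn (fun ρ : ℂ => (lamH m : ℂ) * (ρ - 1 / 2)) Z := by
      intro x _ y _ h
      have := mul_left_cancel₀ hlc h
      linear_combination this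
    have h1 := hup (lamH m * T) (by nlinarith) (Z.image fun ρ : ℂ => (lamH m : ℂ) * (ρ - 1 / 2)) (by
      intro s hs
      rw [Finset.mem_image] at hs
      obtain ⟨ρ, hρ, rfl⟩ := hs
      obtain ⟨z1, z2, z3⟩ := hZ ρ hρ
      have e1 : ((lamH m : ℂ) * (ρ - 1 / 2)).re = lamH m * (ρ.re - 1 / 2) := by
        rw [Complex.re_ofReal_mul]; simp
      have e2 : ((lamH m : ℂ) * (ρ - 1 / 2)).im = lamH m * ρ.im := by
        rw [Complex.im_ofReal_mul]; simp
      rw [e1, e2, abs_mul, abs_of_pos hl]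
      refine ⟨?_, by positivity, by gcongr⟩
      have h2 := mul_le_mul_of_nonneg_left z1 hl.le
      refine h2.trans (le_of_eq ?_)
      rw [hll]
      field_simp
      ring)
    rw [Finset.sum_image hinj] at h1
    have h2 : ∑ ρ ∈ Z, (analyticOrderNatAt S.G ρ : ℝ) =
        ∑ ρ ∈ Z, (analyticOrderNatAt (HM c (lamH m) m α) ((lamH m : ℂ) * (ρ - 1 / 2)) : ℝ) := by
      refine Finset.sum_congr rfl fun ρ hρ => ?_
      obtain ⟨z1, z2, z3⟩ := hZ ρ hρ
      have e1 : ((lamH m : ℂ) * (ρ - 1 / 2)).re = lamH m * (ρ.re - 1 / 2) := by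
        rw [Complex.re_ofReal_mul]; simp
      have e2 : ((lamH m : ℂ) * (ρ - 1 / 2)).im = lamH m * ρ.im := by
        rw [Complex.im_ofReal_mul]; simp
      rw [ord_eq hm1 hO hA1 S.diff hser]
      · congr 2
        field_simp
        ring
      · rw [e1, abs_mul, abs_of_pos hl]
        have h2 := mul_le_mul_of_nonneg_left z1 hl.le
        have h3 : lamH m * (1 / 2 - 12 / (4 * m + 3)) = m - 21 / 4 := by
          rw [hll]
          field_simp
          ring
        linarith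
      · rw [e2]
        positivity
    rw [h2]
    refine h1.trans ?_
    have hlog : Real.exp 1 ≤ Real.log T := by
      rwa [Real.le_log_iff_exp_le (by linarith)]
    have hlog0 : 0 < Real.log T := lt_of_lt_of_le (Real.exp_pos 1) hlog
    have hll1 : 1 ≤ Real.log (Real.log T) := by
      rw [Real.le_log_iff_exp_le hlog0]
      exact hlog
    have h3 : Real.log (Real.log (lamH m * T)) ≤ 2 * Real.log (Real.log T) := by
      have h4 : Real.log (lamH m * T) ≤ 2 * Real.log T := by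
        rw [Real.log_mul hl.ne' (by linarith)]
        have := Real.log_le_log hl hT2
        linarith
      have h5 : 0 < Real.log (lamH m * T) := by
        apply Real.log_pos
        nlinarith [Real.add_one_le_exp (1:ℝ), Real.add_one_le_exp (Real.exp 1)]
      calc Real.log (Real.log (lamH m * T)) ≤ Real.log (2 * Real.log T) := Real.log_le_log h5 h4
        _ = Real.log 2 + Real.log (Real.log T) := Real.log_mul (by norm_num) hlog0.ne'
        _ ≤ _ := by linarith [Real.log_two_lt_d9]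
    calc A * (lamH m * T * Real.log (Real.log (lamH m * T))) ≤ A * (lamH m * T * (2 * Real.log (Real.log T))) := by
          gcongr
      _ = _ := by ring
  -- the lower bound
  obtain ⟨K, hK, hgr⟩ := growth2 hm1 (by omega) hO hA1 S h0 hser
  obtain ⟨D0, hD0, hR⟩ := right_bounds S h0
  have hbig := big_values (by omega) hν hc1 hvv hO hA1 S.diff hser
  have hlam : 1 / lamH m ≤ 1 / 4 := one_div_le_one_div_of_le (by norm_num) (by rw [hll]; linarith)
  have hlam0 : 0 < 1 / lamH m := by positivity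
  obtain ⟨ε, hε, hwin⟩ := zeros_window2 S.diff hK (by linarith) hgr hR one_pos hbig
  obtain ⟨δ, hδ, htot⟩ := zeros_total2 hε hwin
  refine ⟨2 * A * lamH m, δ / 2, by positivity, by positivity, hU, ?_⟩
  have hsmall : ∀ᶠ T : ℝ in atTop, (2 * A * lamH m) * Real.log (Real.log T) ≤ δ / 2 * Real.log T := by
    have h1 : Tendsto (fun x : ℝ => Real.log x / x) atTop (𝓝 0) := Real.isLittleO_log_id_atTop.tendsto_div_nhds_zero
    have h2 := (h1.comp Real.tendsto_log_atTop).const_mul (2 * A * lamH m)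
    rw [mul_zero] at h2
    filter_upwards [h2.eventually (gt_mem_nhds (show (0:ℝ) < δ / 2 by positivity)),
      Real.tendsto_log_atTop.eventually (eventually_gt_atTop 0)] with T hT1 hT2
    simp only [Function.comp_apply] at hT1
    rw [← mul_div_assoc, div_lt_iff₀ hT2] at hT1
    exact hT1.le
  filter_upwards [htot, hU, hsmall, eventually_ge_atTop 0] with T h1 h2 h3 hT0
  obtain ⟨Z, hZ, hsum⟩ := h1
  classical
  refine ⟨Z.filter (fun ρ => 1 - 12 / (4 * (m:ℝ) + 3) < ρ.re), fun ρ hρ => ?_, ?_⟩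
  · rw [Finset.mem_filter] at hρ
    obtain ⟨z0, z1, z2, z3⟩ := hZ ρ hρ.1
    refine ⟨hρ.2, ?_, z2, z3⟩
    by_contra hcon
    push Not at hcon
    have h4 := S.cont ρ hcon
    rw [h0, pow_zero, one_mul, (S.euler ρ hcon).2, z0] at h4
    exact Complex.exp_ne_zero _ h4.symm
  · have h4 := h2 (Z.filter (fun ρ => ¬ 1 - 12 / (4 * (m:ℝ) + 3) < ρ.re)) (fun ρ hρ => by
      rw [Finset.mem_filter, not_lt] at hρ
      obtain ⟨z0, z1, z2, z3⟩ := hZ ρ hρ.1
      refine ⟨?_, z2, z3⟩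
      rw [abs_le]
      constructor
      · linarith
      · linarith [hρ.2])
    have h5 := Finset.sum_filter_add_sum_filter_not Z (fun ρ => 1 - 12 / (4 * (m:ℝ) + 3) < ρ.re)
      (fun ρ => (analyticOrderNatAt S.G ρ : ℝ))
    have h6 := mul_le_mul_of_nonneg_left h3 hT0
    have h7 : T * (2 * A * lamH m * Real.log (Real.log T)) = 2 * A * lamH m * (T * Real.log (Real.log T)) := by ring
    have h8 : T * (δ / 2 * Real.log T) = δ / 2 * (T * Real.log T) := by ring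
    rw [h7, h8] at h6
    linarith


end Pool.Agent.Q127.ET
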