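import Mathlib
import Pool.Agent.Q127.ET.Zr2
import Pool.Agent.Q127.ET.Spec3

/-!
# Counting functions: final form for the members produced by the machine
-/

set_option autoImplicit false

open Filter Topology Complex Set

namespace Pool.Agent.Q127.ET

open Pool.Agent.H469R10.HO Pool.Agent.H13R3.EM Pool.Agent.Q127.EZ

/-- the main theorem in terms of counting functions -/
theorem edge2R {m : ℕ} {c C D ν : ℝ} {α g : ℕ → ℝ} {a₁ : ℕ → ℂ} (hm2 : 26100 ≤ m) (hc1 : c ≤ 1 / 10) (hν : 0 < ν)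
    (hC : 0 ≤ C) (hD : 0 ≤ D) (hJP : JP c C) {sg : ℕ → ℝ} (hsg : ∀ k, |sg k| = 1)
    (hO : OutR m c (fun k => sg k * vv c ν k) α g D) (hA1 : CoefA m α a₁) (S : Sel) (h0 : S.m0 = 0)
    (ha : ∀ n, S.a n = a₁ n)
    (hp : ∀ (j : Fin S.r) (n : ℕ) (s : ℂ), s.im ≠ 0 → (S.lam j : ℂ) * s + S.μ j ≠ -(n : ℂ)) :
    (∀ T : ℝ, {ρ : ℂ | S.G ρ = 0 ∧ 0 < ρ.im ∧ ρ.im ≤ T}.Finite) ∧
    (∀ ρ : ℂ, S.G ρ = 0 → 0 < ρ.im → 0 ≤ ρ.re ∧ ρ.re ≤ 1) ∧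
    (∃ H : ℝ → ℝ, Continuous H ∧ (∀ t : ℝ, t ≠ 0 → (S.G (1 / 2 + t * I) = 0 ↔ H t = 0)) ∧
      ∀ k : ℕ, 0 < sg k * H (32 * Real.pi * (k + 1) / (4 * m + 3))) ∧
    (∃ A δ T₀ : ℝ, 0 < A ∧ 0 < δ ∧ ∀ T : ℝ, T₀ ≤ T →
      δ * (T * Real.log T) ≤ NZ S.G univ T ∧
      NZ S.G (Icc (12 / (4 * m + 3)) (1 - 12 / (4 * m + 3))) T ≤ A * (T * Real.log (Real.log T)) ∧
      ∀ σ : ℝ, 12 / (4 * m + 3) ≤ σ → σ ≤ 1 - 12 / (4 * m + 3) →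
        |NZ S.G (Ioi σ) T - NZ S.G univ T / 2| ≤ A * (T * Real.log (Real.log T))) := by
  obtain ⟨hH, A, δ, hA, hδ, hU, hL⟩ := edgeR hm2 hc1 hν hC hD hJP hsg hO hA1 S h0 ha
  have hfin := zero_finite h0 hp
  refine ⟨hfin, fun ρ hρ him => zero_strip h0 hp him.ne' hρ, hH, A, δ, ?_⟩
  obtain ⟨T₀, hT₀⟩ := eventually_atTop.1 (hU.and hL)
  refine ⟨max T₀ 0, hA, hδ, fun T hT => ?_⟩
  obtain ⟨hU', Z, hZ, hZs⟩ := hT₀ T ((le_max_left _ _).trans hT)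
  have hW : ∀ ρ : ℂ, ρ ∈ (hfin T).toFinset ↔ S.G ρ = 0 ∧ 0 < ρ.im ∧ ρ.im ≤ T := by
    intro ρ
    rw [Set.Finite.mem_toFinset]
    rfl
  have hmid : NZ S.G (Icc (12 / (4 * m + 3)) (1 - 12 / (4 * m + 3))) T ≤ A * (T * Real.log (Real.log T)) := by
    apply NZ_le S.diff hW
    intro Z' hZ'
    apply hU'
    intro ρ hρ
    obtain ⟨⟨z1, z2⟩, z3⟩ := hZ' ρ hρ
    refine ⟨?_, z3⟩
    rw [abs_le]
    constructor <;> linarith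
  have hmid0 : 0 ≤ NZ S.G (Icc (12 / (4 * (m : ℝ) + 3)) (1 - 12 / (4 * m + 3))) T := by
    have := le_NZ S.diff hW (A := Icc (12 / (4 * (m : ℝ) + 3)) (1 - 12 / (4 * m + 3))) (Z := ∅) (by simp)
    simpa using this
  refine ⟨?_, hmid, fun σ h1 h2 => ?_⟩
  · exact hZs.trans (le_NZ S.diff hW fun ρ hρ => ⟨mem_univ _, (hZ ρ hρ).2.2⟩)
  · refine (NZ_half h0 hp hW h1 h2).trans ?_
    linarith

/-- polynomial growth to the right of the critical line -/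
theorem growthR {m : ℕ} {c D : ℝ} {v α g : ℕ → ℝ} {a₁ : ℕ → ℂ} (hm2 : 26100 ≤ m)
    (hO : OutR m c v α g D) (hA1 : CoefA m α a₁) (S : Sel) (h0 : S.m0 = 0)
    (ha : ∀ n, S.a n = a₁ n) : ∃ K : ℝ, ∀ s : ℂ, 1 / 2 ≤ s.re → ‖S.G s‖ ≤ K * ‖s + 1‖ ^ (m + 2) := by
  have hser : ∀ s : ℂ, 1 < s.re → S.G s = LSeries a₁ s := by
    intro s hs
    have h3 := S.cont s hs
    rw [h0, pow_zero, one_mul] at h3
    have h4 : S.a = a₁ := funext ha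
    rw [h4] at h3
    exact h3
  obtain ⟨K, -, hK⟩ := growth2 (by omega) (by omega) hO hA1 S h0 hser
  refine ⟨K, fun s hs => hK s ?_⟩
  have hl := lam_pos m
  have : 0 < 1 / lamH m := by positivity
  linarith

end Pool.Agent.Q127.ET
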