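import Mathlib
import Pool.Agent.Q127.ET.Fin
import Pool.Agent.Q237.ET.Sel
import Pool.Agent.Q178.ET.Gam

/-!
# L-functions in the axiomatic sense, with exactly `d` unitary local roots at every prime
-/

set_option autoImplicit false

open Filter Topology Complex Set

namespace Pool.Agent.Q127.ET

open Pool.Agent.H469R10.HO Pool.Agent.H13R3.EM Pool.Agent.Q127.EZ

/-- the completed function with conductor `q` and gamma factor `π^{-ds/2} ∏_{j<d} Γ((s + κ_j)/2)` -/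
noncomputable def Lam (q : ℕ) {d : ℕ} (κ : Fin d → ℝ) (L : ℂ → ℂ) (s : ℂ) : ℂ :=
  (q : ℂ) ^ (s / 2) * (Real.pi : ℂ) ^ (-(d * s / 2)) * (∏ j, Gamma ((s + κ j) / 2)) * L s

/-- L-function of degree `d` and conductor `q`, with real coefficients `a n`, local roots `α p j`, spectral parameters
`κ j` and root number `ε` -/
structure IsLFunction (d q : ℕ) (a : ℕ → ℝ) (α : ℕ → Fin d → ℂ) (κ : Fin d → ℝ) (ε : ℝ) (L : ℂ → ℂ) : Prop where
  one : a 1 = 1
  mult : ∀ m n : ℕ, Nat.Coprime m n → a (m * n) = a m * a n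
  unitary : ∀ p : ℕ, p.Prime → ∀ j, ‖α p j‖ = 1
  det_one : ∀ p : ℕ, p.Prime → ∏ j, α p j = 1
  selfdual : ∀ p : ℕ, p.Prime → ∀ z : ℂ, ∏ j, (1 - α p j * z) = ∏ j, (1 - starRingEnd ℂ (α p j) * z)
  loc : ∀ p : ℕ, p.Prime → ∀ z : ℂ, ‖z‖ < 1 →
    HasSum (fun k : ℕ => ((a (p ^ k) : ℝ) : ℂ) * z ^ k) (∏ j, (1 - α p j * z))⁻¹
  ramanujan : ∀ e : ℝ, 0 < e → ∃ C : ℝ, ∀ n : ℕ, 1 ≤ n → |a n| ≤ C * (n : ℝ) ^ e
  summable : ∀ s : ℂ, 1 < s.re → LSeriesSummable (fun n => ((a n : ℝ) : ℂ)) s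
  series : ∀ s : ℂ, 1 < s.re → L s = LSeries (fun n => ((a n : ℝ) : ℂ)) s
  euler : ∀ s : ℂ, 1 < s.re → HasProd (fun p : Nat.Primes => (∏ j, (1 - α p j * ((p : ℕ) : ℂ) ^ (-s)))⁻¹) (L s)
  entire : Differentiable ℂ L
  order_one : ∀ e : ℝ, 0 < e → ∃ C : ℝ, ∀ s : ℂ, ‖L s‖ ≤ C * Real.exp (‖s‖ ^ (1 + e))
  conductor : 1 ≤ q
  root : ε = 1 ∨ ε = -1
  kappa : ∀ j, 0 < κ j ∧ κ j < 2
  functional : ∀ s : ℂ, (∀ (j : Fin d) (n : ℕ), s + κ j ≠ -(2 * (n : ℂ))) →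
    (∀ (j : Fin d) (n : ℕ), 1 - s + κ j ≠ -(2 * (n : ℂ))) → Lam q κ L s = ε * Lam q κ L (1 - s)

/-- local roots -/
noncomputable def rt (m : ℕ) (x : ℕ → ℝ) (p : ℕ) : Fin (4 * m + 3) → ℂ := by
  classical exact if h : |x p| ≤ 1 then Classical.choose (Pool.Agent.Q237.ET.loc2 m (x p) h) else fun _ => 0

lemma rt_spec {m : ℕ} {x : ℕ → ℝ} (hx : ∀ p, |x p| ≤ 1) (p : ℕ) : (∀ j, ‖rt m x p j‖ = 1) ∧ ∏ j, rt m x p j = 1 ∧
    (∀ z : ℂ, ∏ j, (1 - rt m x p j * z) = ∏ j, (1 - starRingEnd ℂ (rt m x p j) * z)) ∧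
    ∀ z : ℂ, ‖z‖ < 1 → HasSum (fun k : ℕ => ((Al m (x p) k : ℝ) : ℂ) * z ^ k) (∏ j, (1 - rt m x p j * z))⁻¹ := by
  unfold rt
  rw [dif_pos (hx p)]
  exact Classical.choose_spec (Pool.Agent.Q237.ET.loc2 m (x p) (hx p))

/-- spectral parameters -/
noncomputable def kp (d : ℕ) (j : Fin d) : ℝ := (4 * (j : ℕ) + 1) / (2 * d)

lemma kp_range {d : ℕ} (j : Fin d) : 0 < kp d j ∧ kp d j < 2 := by
  have hd : 0 < d := j.pos
  have hdR : (0:ℝ) < d := by exact_mod_cast hd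
  have hj : ((j : ℕ) : ℝ) + 1 ≤ d := by exact_mod_cast j.2
  unfold kp
  refine ⟨by positivity, ?_⟩
  rw [div_lt_iff₀ (by positivity)]
  linarith

/-- Euler product over the local roots -/
lemma euler_rt {m : ℕ} {x : ℕ → ℝ} (hx : ∀ p, |x p| ≤ 1) {s : ℂ} (hs : 1 < s.re) :
    HasProd (fun p : Nat.Primes => (∏ j, (1 - rt m x p j * ((p : ℕ) : ℂ) ^ (-s)))⁻¹)
      (LSeries (fun n => ((atc m x n : ℝ) : ℂ)) s) := by
  have hsum : LSeriesSummable (fun n => ((atc m x n : ℝ) : ℂ)) s := Pool.Agent.Q237.ET.fa_summable hx hs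
  set g : ℕ → ℂ := LSeries.term (fun n => ((atc m x n : ℝ) : ℂ)) s with hg
  have hg0 : g 0 = 0 := by rw [hg]; exact LSeries.term_zero _ _
  have hg1 : g 1 = 1 := by
    rw [hg, LSeries.term_of_ne_zero one_ne_zero, Pool.Agent.Q237.ET.atc_one]
    simp
  have hgm : ∀ {a b : ℕ}, Nat.Coprime a b → g (a * b) = g a * g b := by
    intro a b hab
    rcases Nat.eq_zero_or_pos a with ha | ha
    · subst ha; rw [zero_mul, hg0, zero_mul]
    rcases Nat.eq_zero_or_pos b with hb | hb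
    · subst hb; rw [mul_zero, hg0, mul_zero]
    rw [hg, LSeries.term_of_ne_zero (Nat.mul_pos ha hb).ne', LSeries.term_of_ne_zero ha.ne',
      LSeries.term_of_ne_zero hb.ne', Pool.Agent.Q237.ET.atc_mul hab]
    push_cast
    rw [Complex.natCast_mul_natCast_cpow]
    ring
  have hE := EulerProduct.eulerProduct_hasProd hg1 hgm (by exact hsum.norm) hg0
  have hL : (∑' n, g n) = LSeries (fun n => ((atc m x n : ℝ) : ℂ)) s := rfl
  rw [hL] at hE
  convert hE using 1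
  funext p
  have hp := p.2
  have hpos : (0 : ℝ) < (p : ℕ) := by exact_mod_cast hp.pos
  have hz : ‖((p : ℕ) : ℂ) ^ (-s)‖ < 1 := by
    rw [show ((p : ℕ) : ℂ) = (((p : ℕ) : ℝ) : ℂ) by push_cast; rfl,
      Complex.norm_cpow_eq_rpow_re_of_pos hpos, Complex.neg_re]
    exact Real.rpow_lt_one_of_one_lt_of_neg (by exact_mod_cast hp.one_lt) (by linarith)
  rw [← ((rt_spec (m := m) hx p).2.2.2 _ hz).tsum_eq]
  refine tsum_congr fun k => ?_
  rw [hg, LSeries.term_of_ne_zero (pow_ne_zero _ hp.ne_zero), Pool.Agent.Q237.ET.atc_prime_pow hp,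
    Complex.cpow_neg, div_eq_mul_inv, inv_pow]
  congr 2
  rw [Nat.cast_pow, ← Complex.natCast_cpow_natCast_mul, Complex.cpow_nat_mul]

/-- real coefficients: `G (conj s) = conj (G s)` -/
lemma G_conj (S : Sel) (h0 : S.m0 = 0) (hr : ∀ n, (S.a n).im = 0) (s : ℂ) :
    S.G (starRingEnd ℂ s) = starRingEnd ℂ (S.G s) := by
  have hd : Differentiable ℂ fun s => starRingEnd ℂ (S.G (starRingEnd ℂ s)) := by
    intro z
    have h := (S.diff (starRingEnd ℂ z)).conj_conj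
    rw [Complex.conj_conj] at h
    exact h
  have h1 : AnalyticOnNhd ℂ S.G univ := S.diff.differentiableOn.analyticOnNhd isOpen_univ
  have h2 : AnalyticOnNhd ℂ (fun s => starRingEnd ℂ (S.G (starRingEnd ℂ s))) univ :=
    hd.differentiableOn.analyticOnNhd isOpen_univ
  have h3 : S.G =ᶠ[𝓝 (2 : ℂ)] fun s => starRingEnd ℂ (S.G (starRingEnd ℂ s)) := by
    have ho : IsOpen {z : ℂ | 1 < z.re} := isOpen_lt continuous_const Complex.continuous_re
    filter_upwards [ho.mem_nhds (show (2 : ℂ) ∈ {z : ℂ | 1 < z.re} by simp)] with z hz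
    have hz' : 1 < (starRingEnd ℂ z).re := by rw [Complex.conj_re]; exact hz
    rw [S.cont z hz, S.cont _ hz', h0, pow_zero, pow_zero, one_mul, one_mul]
    unfold LSeries
    rw [Complex.conj_tsum]
    refine tsum_congr fun n => ?_
    rcases Nat.eq_zero_or_pos n with hn | hn
    · subst hn; simp [LSeries.term_zero]
    · rw [LSeries.term_of_ne_zero hn.ne', LSeries.term_of_ne_zero hn.ne', map_div₀]
      have e1 : starRingEnd ℂ (S.a n) = S.a n := Complex.conj_eq_iff_im.2 (hr n)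
      rw [e1]
      congr 1
      rw [Complex.cpow_conj _ _ (by rw [Complex.natCast_arg]; exact Real.pi_pos.ne), Complex.conj_natCast, Complex.conj_conj]
  have h4 := h1.eqOn_of_preconnected_of_eventuallyEq h2 isPreconnected_univ (mem_univ _) h3
  have h5 := h4 (mem_univ (starRingEnd ℂ s))
  rw [h5]
  simp

end Pool.Agent.Q127.ET
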