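import Mathlib
import Pool.Agent.Q127.ET.IK

/-!
# The functional equation with integer conductor
-/

set_option autoImplicit false

open Filter Topology Complex Set

namespace Pool.Agent.Q127.ET

open Pool.Agent.H469R10.HO Pool.Agent.H13R3.EM Pool.Agent.Q127.EZ

/-- the value of `c` for conductor `q` -/
noncomputable def cq (d q : ℕ) : ℝ := Real.pi * d / (q : ℝ) ^ (1 / (d : ℝ))

lemma cq_pos {d q : ℕ} (hd : 1 ≤ d) (hq : 1 ≤ q) : 0 < cq d q := by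
  have : (0:ℝ) < d := by exact_mod_cast hd
  have : (0:ℝ) < q := by exact_mod_cast hq
  have := Real.pi_pos
  unfold cq
  positivity

lemma cq_small (d : ℕ) (hd : 1 ≤ d) {ε : ℝ} (hε : 0 < ε) : ∃ q₀ : ℕ, 1 ≤ q₀ ∧ ∀ q : ℕ, q₀ ≤ q → cq d q ≤ ε := by
  have hdR : (0:ℝ) < d := by exact_mod_cast hd
  have h1 : Tendsto (fun q : ℕ => (q : ℝ) ^ (1 / (d : ℝ))) atTop atTop :=
    (tendsto_rpow_atTop (by positivity)).comp tendsto_natCast_atTop_atTop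
  obtain ⟨q₀, hq₀⟩ := eventually_atTop.1 (h1.eventually (eventually_ge_atTop (Real.pi * d / ε)))
  refine ⟨max q₀ 1, le_max_right _ _, fun q hq => ?_⟩
  have h2 := hq₀ q ((le_max_left _ _).trans hq)
  have hq1 : (0:ℝ) < q := by exact_mod_cast (le_max_right _ _).trans hq
  unfold cq
  rw [div_le_iff₀ (by positivity)]
  rw [div_le_iff₀ hε] at h2
  linarith

lemma ofReal_cpow_exp {x : ℝ} (hx : 0 < x) (s : ℂ) : (x : ℂ) ^ s = exp ((Real.log x : ℂ) * s) := by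
  rw [cpow_def_of_ne_zero (by exact_mod_cast hx.ne'), ofReal_log hx.le]

lemma natCast_cpow_exp {n : ℕ} (hn : 1 ≤ n) (s : ℂ) : (n : ℂ) ^ s = exp ((Real.log n : ℂ) * s) := by
  have : (0:ℝ) < n := by exact_mod_cast hn
  rw [← ofReal_cpow_exp this]
  norm_cast

lemma pow_id {m q : ℕ} (hq : 1 ≤ q) (s : ℂ) :
    (q : ℂ) ^ (s / 2) * (Real.pi : ℂ) ^ (-(((4 * m + 3 : ℕ) : ℂ) * s / 2)) *
      ((4 * m + 3 : ℕ) : ℂ) ^ (-(((4 * m + 3 : ℕ) : ℂ) / 2 * s)) =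
      ((Real.exp (-(lamH m * Real.log (cq (4 * m + 3) q))) : ℝ) : ℂ) ^ s := by
  have hq0 : (0:ℝ) < q := by exact_mod_cast hq
  have hd0 : (0:ℝ) < ((4 * m + 3 : ℕ) : ℝ) := by positivity
  rw [natCast_cpow_exp hq, ofReal_cpow_exp Real.pi_pos, natCast_cpow_exp (by omega), ofReal_cpow_exp (Real.exp_pos _),
    ← exp_add, ← exp_add]
  congr 1
  have h1 : Real.log (cq (4 * m + 3) q) = Real.log Real.pi + Real.log ((4 * m + 3 : ℕ) : ℝ) -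
      1 / ((4 * m + 3 : ℕ) : ℝ) * Real.log q := by
    unfold cq
    rw [Real.log_div (by have := Real.pi_pos; positivity) (by positivity), Real.log_mul Real.pi_ne_zero hd0.ne',
      Real.log_rpow hq0]
  have h2 : lamH m = ((4 * m + 3 : ℕ) : ℝ) / 2 := by
    unfold lamH; push_cast; ring
  rw [Real.log_exp, h1, h2]
  have hdc : ((4 * m + 3 : ℕ) : ℂ) ≠ 0 := by exact_mod_cast (by omega : 4 * m + 3 ≠ 0)
  rw [show ((-(((4 * m + 3 : ℕ) : ℝ) / 2 * (Real.log Real.pi + Real.log ((4 * m + 3 : ℕ) : ℝ) -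
      1 / ((4 * m + 3 : ℕ) : ℝ) * Real.log q)) : ℝ) : ℂ) =
      -(((4 * m + 3 : ℕ) : ℂ) / 2 * ((Real.log Real.pi : ℂ) + (Real.log ((4 * m + 3 : ℕ) : ℝ) : ℂ) -
      1 / ((4 * m + 3 : ℕ) : ℂ) * (Real.log q : ℂ))) by push_cast; ring]
  field_simp
  ring

/-- the completed function in the two normalizations -/
lemma Lam_eq {m q : ℕ} (hq : 1 ≤ q) : ∃ C₀ : ℝ, 0 < C₀ ∧ ∀ (L : ℂ → ℂ) (s : ℂ),
    (∀ (j : Fin (4 * m + 3)) (n : ℕ), s + kp (4 * m + 3) j ≠ -(2 * (n : ℂ))) →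
    (∀ n : ℕ, (lamH m : ℂ) * s + 1 / 4 ≠ -(n : ℂ)) ∧
    Lam q (kp (4 * m + 3)) L s = C₀ * (((Real.exp (-(lamH m * Real.log (cq (4 * m + 3) q))) : ℝ) : ℂ) ^ s *
      Gamma ((lamH m : ℂ) * s + 1 / 4) * L s) := by
  obtain ⟨C₀, hC₀, hG⟩ := Pool.Agent.Q178.ET.gam (4 * m + 3) (by omega)
  refine ⟨C₀, hC₀, fun L s hs => ?_⟩
  have hl : ((((4 * m + 3 : ℕ) : ℝ) : ℂ) / 2 : ℂ) = (lamH m : ℂ) := by
    unfold lamH; push_cast; ring
  have hpole : ∀ n : ℕ, (lamH m : ℂ) * s + 1 / 4 ≠ -(n : ℂ) := by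
    intro n hn
    obtain ⟨k, hk⟩ : ∃ k, k = n % (4 * m + 3) := ⟨_, rfl⟩
    have hk1 : k < 4 * m + 3 := by rw [hk]; exact Nat.mod_lt _ (by omega)
    have hk2 : n = (4 * m + 3) * (n / (4 * m + 3)) + k := by rw [hk]; exact (Nat.div_add_mod _ _).symm
    apply hs ⟨k, hk1⟩ (n / (4 * m + 3))
    have hd0 : ((4 * m + 3 : ℕ) : ℂ) ≠ 0 := by exact_mod_cast (by omega : 4 * m + 3 ≠ 0)
    have e1 : (n : ℂ) = ((4 * m + 3 : ℕ) : ℂ) * ((n / (4 * m + 3) : ℕ) : ℂ) + (k : ℂ) := by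
      exact_mod_cast hk2
    rw [e1, ← hl] at hn
    unfold kp
    push_cast at hn hd0 ⊢
    field_simp at hn ⊢
    linear_combination (1 / 2) * hn
  refine ⟨hpole, ?_⟩
  have h1 := hG s (by
    intro n
    rw [hl]
    exact hpole n)
  rw [hl] at h1
  have h2 : ∏ j : Fin (4 * m + 3), Gamma ((s + kp (4 * m + 3) j) / 2) =
      ∏ j ∈ Finset.range (4 * m + 3), Gamma ((s + (((4 * j + 1 : ℝ) / (2 * ((4 * m + 3 : ℕ) : ℝ)) : ℝ) : ℂ)) / 2) := by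
    rw [← Fin.prod_univ_eq_prod_range (fun j => Gamma ((s + (((4 * j + 1 : ℝ) / (2 * ((4 * m + 3 : ℕ) : ℝ)) : ℝ) : ℂ)) / 2))]
    rfl
  unfold Lam
  rw [h2, h1, ← pow_id hq]
  ring

lemma ev_ne {z0 : ℂ} (h : ∀ n : ℕ, z0 ≠ -(n : ℂ)) : ∀ᶠ z in 𝓝 z0, ∀ n : ℕ, z ≠ -(n : ℂ) := by
  have h1 : ContinuousAt (fun z : ℂ => (Gamma z)⁻¹) z0 := differentiable_one_div_Gamma.continuous.continuousAt
  have h2 : (Gamma z0)⁻¹ ≠ 0 := inv_ne_zero (Gamma_ne_zero h)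
  filter_upwards [h1.eventually_ne h2] with z hz n hn
  apply hz
  rw [hn, Gamma_neg_nat_eq_zero, inv_zero]

lemma ev_ne2 (w c : ℂ) : ∀ᶠ z in 𝓝[≠] w, z ≠ c := by
  by_cases h : w = c
  · subst h
    exact eventually_mem_nhdsWithin
  · exact (isOpen_ne.mem_nhds h : {z : ℂ | z ≠ c} ∈ 𝓝 w) |> fun h => mem_nhdsWithin_of_mem_nhds h

/-- the functional equation of the member -/
lemma fe_mem {m q : ℕ} (hq : 1 ≤ q) (S : Sel) (h0 : S.m0 = 0) (hre : ∀ n, (S.a n).im = 0) (hr : S.r = 1)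
    (hQ : S.Q = Real.exp (-(lamH m * Real.log (cq (4 * m + 3) q)))) (hω : S.ω = (-1) ^ (m + 1))
    (hlm : ∀ j, S.lam j = lamH m ∧ S.μ j = 1 / 4) (s : ℂ)
    (hs : ∀ (j : Fin (4 * m + 3)) (n : ℕ), s + kp (4 * m + 3) j ≠ -(2 * (n : ℂ)))
    (hs' : ∀ (j : Fin (4 * m + 3)) (n : ℕ), 1 - s + kp (4 * m + 3) j ≠ -(2 * (n : ℂ))) :
    Lam q (kp (4 * m + 3)) S.G s = ((-1 : ℝ) ^ (m + 1) : ℝ) * Lam q (kp (4 * m + 3)) S.G (1 - s) := by
  obtain ⟨C₀, hC₀, hL⟩ := Lam_eq (m := m) hq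
  obtain ⟨Q, hQd⟩ : ∃ Q : ℝ, Q = Real.exp (-(lamH m * Real.log (cq (4 * m + 3) q))) := ⟨_, rfl⟩
  have hQ0 : 0 < Q := by rw [hQd]; exact Real.exp_pos _
  rw [← hQd] at hQ hL
  have hprod : ∀ w : ℂ, ∏ j, Gamma ((S.lam j : ℂ) * w + S.μ j) = Gamma ((lamH m : ℂ) * w + 1 / 4) := by
    intro w
    have : ∀ j ∈ Finset.univ, Gamma ((S.lam j : ℂ) * w + S.μ j) = Gamma ((lamH m : ℂ) * w + 1 / 4) := fun j _ => by
      rw [(hlm j).1, (hlm j).2]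
    rw [Finset.prod_congr rfl this, Finset.prod_const, Finset.card_univ, Fintype.card_fin, hr, pow_one]
  -- off `0` and `1`
  have key : ∀ w : ℂ, w ≠ 0 → w ≠ 1 → (∀ n : ℕ, (lamH m : ℂ) * w + 1 / 4 ≠ -(n : ℂ)) →
      (∀ n : ℕ, (lamH m : ℂ) * (1 - w) + 1 / 4 ≠ -(n : ℂ)) →
      (Q : ℂ) ^ w * Gamma ((lamH m : ℂ) * w + 1 / 4) * S.G w =
        (-1) ^ (m + 1) * ((Q : ℂ) ^ (1 - w) * Gamma ((lamH m : ℂ) * (1 - w) + 1 / 4) * S.G (1 - w)) := by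
    intro w hw0 hw1 hp1 hp2
    have hc1 : (starRingEnd ℂ) (1 / 4 : ℂ) = 1 / 4 := by
      rw [map_div₀, map_one, Complex.conj_ofNat]
    have h1 := S.fe w hw0 hw1 (fun j n => by rw [(hlm j).1, (hlm j).2]; exact hp1 n) (fun j n => by
      rw [(hlm j).1, (hlm j).2]
      intro h
      apply hp2 n
      have h2 := congrArg (starRingEnd ℂ) h
      simp only [map_add, map_mul, map_sub, map_one, map_neg, Complex.conj_conj, Complex.conj_ofReal, Complex.conj_natCast,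
        hc1] at h2
      exact h2)
    rw [hprod, hprod, h0, pow_zero, pow_zero, div_one, div_one, hQ, hω] at h1
    rw [h1]
    congr 1
    rw [map_mul, map_mul, ← Complex.Gamma_conj, ← G_conj S h0 hre]
    have e1 : starRingEnd ℂ ((Q : ℂ) ^ (1 - starRingEnd ℂ w)) = (Q : ℂ) ^ (1 - w) := by
      rw [ofReal_cpow_exp hQ0, ofReal_cpow_exp hQ0, ← Complex.exp_conj]
      congr 1
      simp
    have e2 : starRingEnd ℂ ((lamH m : ℂ) * (1 - starRingEnd ℂ w) + 1 / 4) = (lamH m : ℂ) * (1 - w) + 1 / 4 := by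
      simp only [map_add, map_mul, map_sub, map_one, Complex.conj_conj, Complex.conj_ofReal, hc1]
    have e3 : starRingEnd ℂ (1 - starRingEnd ℂ w) = 1 - w := by simp
    rw [e1, e2, e3]
  have hall : ∀ w : ℂ, (∀ n : ℕ, (lamH m : ℂ) * w + 1 / 4 ≠ -(n : ℂ)) →
      (∀ n : ℕ, (lamH m : ℂ) * (1 - w) + 1 / 4 ≠ -(n : ℂ)) →
      (Q : ℂ) ^ w * Gamma ((lamH m : ℂ) * w + 1 / 4) * S.G w =
        (-1) ^ (m + 1) * ((Q : ℂ) ^ (1 - w) * Gamma ((lamH m : ℂ) * (1 - w) + 1 / 4) * S.G (1 - w)) := by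
    intro w hp1 hp2
    have hQc : (Q : ℂ) ≠ 0 := by exact_mod_cast hQ0.ne'
    have c1 : ContinuousAt (fun w : ℂ => (Q : ℂ) ^ w * Gamma ((lamH m : ℂ) * w + 1 / 4) * S.G w) w := by
      have g1 : ContinuousAt Gamma ((lamH m : ℂ) * w + 1 / 4) := (differentiableAt_Gamma _ hp1).continuousAt
      have g2 : ContinuousAt (fun w : ℂ => Gamma ((lamH m : ℂ) * w + 1 / 4)) w :=
        ContinuousAt.comp (g := Gamma) (f := fun w : ℂ => (lamH m : ℂ) * w + 1 / 4) g1 (by fun_prop)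
      have g3 : ContinuousAt (fun w : ℂ => (Q : ℂ) ^ w) w := (continuousAt_const_cpow hQc)
      exact (g3.mul g2).mul S.diff.continuous.continuousAt
    have c2 : ContinuousAt (fun w : ℂ => (-1) ^ (m + 1) * ((Q : ℂ) ^ (1 - w) * Gamma ((lamH m : ℂ) * (1 - w) + 1 / 4) * S.G (1 - w))) w := by
      have g1 : ContinuousAt Gamma ((lamH m : ℂ) * (1 - w) + 1 / 4) := (differentiableAt_Gamma _ hp2).continuousAt
      have g2 : ContinuousAt (fun w : ℂ => Gamma ((lamH m : ℂ) * (1 - w) + 1 / 4)) w :=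
        ContinuousAt.comp (g := Gamma) (f := fun w : ℂ => (lamH m : ℂ) * (1 - w) + 1 / 4) g1 (by fun_prop)
      have g3 : ContinuousAt (fun w : ℂ => (Q : ℂ) ^ (1 - w)) w := by
        have : ContinuousAt (fun w : ℂ => (Q : ℂ) ^ w) (1 - w) := continuousAt_const_cpow hQc
        exact ContinuousAt.comp (g := fun w : ℂ => (Q : ℂ) ^ w) (f := fun w : ℂ => 1 - w) this (by fun_prop)
      have g4 : ContinuousAt (fun w : ℂ => S.G (1 - w)) w :=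
        (S.diff.continuous.comp (continuous_const.sub continuous_id)).continuousAt
      exact continuousAt_const.mul ((g3.mul g2).mul g4)
    -- the poles are discrete
    have hl := lam_pos m
    have hlc : (lamH m : ℂ) ≠ 0 := by exact_mod_cast hl.ne'
    have hopen1 : ∀ᶠ z in 𝓝 w, ∀ n : ℕ, (lamH m : ℂ) * z + 1 / 4 ≠ -(n : ℂ) := by
      have g1 : ∀ᶠ z in 𝓝 ((lamH m : ℂ) * w + 1 / 4), ∀ n : ℕ, z ≠ -(n : ℂ) := ev_ne hp1
      have g2 : ContinuousAt (fun z : ℂ => (lamH m : ℂ) * z + 1 / 4) w := by fun_prop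
      exact g2.eventually g1
    have hopen2 : ∀ᶠ z in 𝓝 w, ∀ n : ℕ, (lamH m : ℂ) * (1 - z) + 1 / 4 ≠ -(n : ℂ) := by
      have g1 : ∀ᶠ z in 𝓝 ((lamH m : ℂ) * (1 - w) + 1 / 4), ∀ n : ℕ, z ≠ -(n : ℂ) := ev_ne hp2
      have g2 : ContinuousAt (fun z : ℂ => (lamH m : ℂ) * (1 - z) + 1 / 4) w := by fun_prop
      exact g2.eventually g1
    have hev : (fun w : ℂ => (Q : ℂ) ^ w * Gamma ((lamH m : ℂ) * w + 1 / 4) * S.G w) =ᶠ[𝓝[≠] w]
        (fun w : ℂ => (-1) ^ (m + 1) * ((Q : ℂ) ^ (1 - w) * Gamma ((lamH m : ℂ) * (1 - w) + 1 / 4) * S.G (1 - w))) := by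
      have g0 : ∀ᶠ z in 𝓝[≠] w, z ≠ 0 := ev_ne2 w 0
      have g1 : ∀ᶠ z in 𝓝[≠] w, z ≠ 1 := ev_ne2 w 1
      filter_upwards [g0, g1, hopen1.filter_mono nhdsWithin_le_nhds, hopen2.filter_mono nhdsWithin_le_nhds] with z z1 z2 z3 z4
      exact key z z1 z2 z3 z4
    have t1 := c1.tendsto.mono_left (nhdsWithin_le_nhds (s := {w}ᶜ))
    have t2 := c2.tendsto.mono_left (nhdsWithin_le_nhds (s := {w}ᶜ))
    exact tendsto_nhds_unique (t1.congr' hev) t2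
  obtain ⟨p1, e1⟩ := hL S.G s hs
  obtain ⟨p2, e2⟩ := hL S.G (1 - s) hs'
  rw [e1, e2, hall s p1 p2]
  push_cast
  ring

end Pool.Agent.Q127.ET
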