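import Mathlib
import Pool.Agent.Q127.ET.IK2

/-!
# Signs of the Hardy function at the nodes
-/

set_option autoImplicit false

open Filter Topology Complex Set

namespace Pool.Agent.Q127.ET

open Pool.Agent.H469R10.HO Pool.Agent.H13R3.EM Pool.Agent.Q127.EZ

lemma csin_sub_nat_mul_pi (z : ℂ) (l : ℕ) : Complex.sin (z - (l : ℂ) * Real.pi) = (-1) ^ l * Complex.sin z := by
  induction l with
  | zero => simp
  | succ l ih =>
    have e : z - ((l + 1 : ℕ) : ℂ) * Real.pi = (z - (l : ℂ) * Real.pi) - Real.pi := by push_cast; ring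
    rw [e, Complex.sin_sub_pi, ih, pow_succ]
    ring

/-- the unit `sin (π (iτ - m)/2) / (positive number)` in the form `re + im` -/
lemma sin_unit (m : ℕ) : ∃ σ : ℝ, |σ| = 1 ∧ ∀ τ : ℝ, 0 < τ → ∃ r : ℝ, 0 < r ∧
    ((m % 2 = 0 ∧ Complex.sin (Real.pi * (-(m : ℂ) + τ * I) / 2) = ((σ * r : ℝ) : ℂ) * I) ∨
      (m % 2 = 1 ∧ Complex.sin (Real.pi * (-(m : ℂ) + τ * I) / 2) = ((σ * r : ℝ) : ℂ))) := by
  rcases Nat.even_or_odd' m with ⟨l, hl | hl⟩
  · refine ⟨(-1) ^ l, by simp, fun τ hτ => ⟨Real.sinh (Real.pi * τ / 2), ?_, Or.inl ⟨by omega, ?_⟩⟩⟩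
    · rw [Real.sinh_pos_iff]; have := Real.pi_pos; positivity
    · have e1 : (Real.pi : ℂ) * (-(m : ℂ) + τ * I) / 2 = ((Real.pi * τ / 2 : ℝ) : ℂ) * I - (l : ℂ) * Real.pi := by
        rw [hl]; push_cast; ring
      rw [e1, csin_sub_nat_mul_pi, Complex.sin_mul_I]
      push_cast
      ring
  · refine ⟨(-1) ^ (l + 1), by simp, fun τ hτ => ⟨Real.cosh (Real.pi * τ / 2), Real.cosh_pos _, Or.inr ⟨by omega, ?_⟩⟩⟩
    have e1 : (Real.pi : ℂ) * (-(m : ℂ) + τ * I) / 2 = (((Real.pi * τ / 2 : ℝ) : ℂ) * I - (Real.pi : ℂ) / 2) - (l : ℂ) * Real.pi := by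
      rw [hl]; push_cast; ring
    rw [e1, csin_sub_nat_mul_pi, Complex.sin_sub_pi_div_two, Complex.cos_mul_I]
    push_cast
    ring

/-- `Λ(1/2 + i t)` at the nodes -/
lemma hardy_sign {m q : ℕ} (hq : 1 ≤ q) (hm : 1 ≤ m) : ∃ σ : ℝ, |σ| = 1 ∧ ∀ (v α g : ℕ → ℝ) (D : ℝ) (a₁ : ℕ → ℂ) (L : ℂ → ℂ),
    OutR m (cq (4 * m + 3) q) v α g D → CoefA m α a₁ → Differentiable ℂ L → (∀ s : ℂ, 1 < s.re → L s = LSeries a₁ s) →
    ∀ k : ℕ, ∃ r : ℝ, 0 < r ∧
      (Lam q (kp (4 * m + 3)) L (1 / 2 + (32 * Real.pi * (k + 1) / (4 * m + 3) : ℝ) * I)).re +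
      (Lam q (kp (4 * m + 3)) L (1 / 2 + (32 * Real.pi * (k + 1) / (4 * m + 3) : ℝ) * I)).im = σ * r * v k := by
  obtain ⟨σ, hσ, hsin⟩ := sin_unit m
  obtain ⟨C₀, hC₀, hLam⟩ := Lam_eq (m := m) hq
  refine ⟨σ, hσ, fun v α g D a₁ L hO hA hL hser k => ?_⟩
  obtain ⟨c, hcd⟩ : ∃ c : ℝ, c = cq (4 * m + 3) q := ⟨_, rfl⟩
  rw [← hcd] at hO hLam
  have hc := hO.hc
  have hl := lam_pos m
  have hlc : (lamH m : ℂ) ≠ 0 := by exact_mod_cast hl.ne'
  have hτ0 : 0 < tau k := by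
    unfold tau
    have := Real.pi_pos
    positivity
  obtain ⟨t, ht⟩ : ∃ t : ℝ, t = 32 * Real.pi * (k + 1) / (4 * m + 3) := ⟨_, rfl⟩
  have htau : lamH m * t = tau k := by
    rw [ht]
    have : (0:ℝ) < 4 * m + 3 := by positivity
    unfold lamH tau
    field_simp
    ring
  rw [← ht]
  have ht0 : 0 < t := by
    have h := hτ0
    rw [← htau] at h
    exact (mul_pos_iff_of_pos_left hl).1 h
  have hHM := HM_F hm hO hA hL hser (s := (tau k : ℂ) * I) (by simp; omega) (by simpa using hτ0.ne')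
  rw [HM_node hO k] at hHM
  have e1 : (1 / 2 + (tau k : ℂ) * I / lamH m : ℂ) = 1 / 2 + (t : ℂ) * I := by
    rw [← htau]
    push_cast
    field_simp
  rw [e1] at hHM
  obtain ⟨w, hw⟩ : ∃ w : ℂ, w = 1 / 2 + (t : ℂ) * I := ⟨_, rfl⟩
  rw [← hw] at hHM ⊢
  have hwim : w.im = t := by rw [hw]; simp
  obtain ⟨-, hΛ⟩ := hLam L w (by
    intro j n h
    have h2 := congrArg Complex.im h
    simp [hwim] at h2
    exact ht0.ne' h2)
  obtain ⟨r, hr, hsn⟩ := hsin (tau k) hτ0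
  -- the gamma factors
  have hΓ1 : Gamma (-(m : ℂ) + (tau k : ℂ) * I) ≠ 0 := Gamma_ne_zero (Uf_gam (by simpa using hτ0.ne') m)
  have hrefl := Complex.Gamma_mul_Gamma_one_sub (-(m : ℂ) + (tau k : ℂ) * I)
  have e2 : (1 : ℂ) - (-(m : ℂ) + (tau k : ℂ) * I) = starRingEnd ℂ ((m : ℂ) + 1 + (tau k : ℂ) * I) := by
    simp only [map_add, map_natCast, map_one, map_mul, Complex.conj_ofReal, Complex.conj_I]
    ring
  rw [e2, Complex.Gamma_conj] at hrefl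
  have e3 : (lamH m : ℂ) * w + 1 / 4 = (m : ℂ) + 1 + (tau k : ℂ) * I := by
    rw [hw, ← htau]
    unfold lamH
    push_cast
    ring
  rw [e3] at hΛ
  obtain ⟨G1, hG1⟩ : ∃ G1 : ℂ, G1 = Gamma ((m : ℂ) + 1 + (tau k : ℂ) * I) := ⟨_, rfl⟩
  have hG1ne : G1 ≠ 0 := by
    rw [hG1]
    apply Gamma_ne_zero
    intro n h
    have h2 := congrArg Complex.im h
    simp at h2
    exact hτ0.ne' h2
  rw [← hG1] at hrefl hΛ
  have hsin2 : Complex.sin (Real.pi * (-(m : ℂ) + (tau k : ℂ) * I)) =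
      2 * Complex.sin (Real.pi * (-(m : ℂ) + (tau k : ℂ) * I) / 2) * Complex.cos (Real.pi * (-(m : ℂ) + (tau k : ℂ) * I) / 2) := by
    rw [← Complex.sin_two_mul]
    congr 1
    ring
  have hsne : Complex.sin (Real.pi * (-(m : ℂ) + (tau k : ℂ) * I)) ≠ 0 := by
    intro h
    rw [h, div_zero] at hrefl
    rcases mul_eq_zero.1 hrefl with h1 | h1
    · exact hΓ1 h1
    · exact hG1ne ((map_eq_zero _).1 h1)
  have hcne : Complex.cos (Real.pi * (-(m : ℂ) + (tau k : ℂ) * I) / 2) ≠ 0 := by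
    intro h
    apply hsne
    rw [hsin2, h, mul_zero]
  have hsne' : Complex.sin (Real.pi * (-(m : ℂ) + (tau k : ℂ) * I) / 2) ≠ 0 := by
    intro h
    apply hsne
    rw [hsin2, h]
    ring
  -- powers
  have hpow : ((Real.exp (-(lamH m * Real.log c)) : ℝ) : ℂ) ^ w =
      ((Real.exp (-(lamH m * Real.log c) / 2) * c ^ (-(m : ℝ)) : ℝ) : ℂ) * (c : ℂ) ^ ((m : ℂ) - (tau k : ℂ) * I) := by
    rw [ofReal_cpow_exp (Real.exp_pos _), ofReal_cpow_exp hc, Real.log_exp, Real.rpow_def_of_pos hc, ← Real.exp_add,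
      Complex.ofReal_exp, ← Complex.exp_add]
    congr 1
    rw [hw, ← htau]
    push_cast
    ring
  obtain ⟨R1, hR1⟩ : ∃ R1 : ℝ, R1 = Real.exp (-(lamH m * Real.log c) / 2) * c ^ (-(m : ℝ)) := ⟨_, rfl⟩
  have hR10 : 0 < R1 := by rw [hR1]; have := Real.rpow_pos_of_pos hc (-(m : ℝ)); positivity
  rw [← hR1] at hpow
  -- the main identity
  have hmain : Lam q (kp (4 * m + 3)) L w =
      ((C₀ * R1 * (2 / Real.pi) * Complex.normSq G1 : ℝ) : ℂ) * Complex.sin (Real.pi * (-(m : ℂ) + (tau k : ℂ) * I) / 2) * v k := by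
    rw [hΛ, hpow]
    unfold Uf at hHM
    have hπ : (Real.pi : ℂ) ≠ 0 := by exact_mod_cast Real.pi_ne_zero
    have h5 : Gamma (-(m : ℂ) + (tau k : ℂ) * I) * starRingEnd ℂ G1 *
        (2 * Complex.sin (Real.pi * (-(m : ℂ) + (tau k : ℂ) * I) / 2) * Complex.cos (Real.pi * (-(m : ℂ) + (tau k : ℂ) * I) / 2)) =
        Real.pi := by
      rw [hrefl, ← hsin2]
      field_simp
    have h6 : ((Complex.normSq G1 : ℝ) : ℂ) = starRingEnd ℂ G1 * G1 := by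
      rw [Complex.normSq_eq_conj_mul_self]
    push_cast
    rw [h6, hHM]
    generalize (starRingEnd ℂ) G1 = G2 at h5 ⊢
    generalize Gamma (-(m : ℂ) + (tau k : ℂ) * I) = G3 at h5 ⊢
    generalize Complex.sin (Real.pi * (-(m : ℂ) + (tau k : ℂ) * I) / 2) = S1 at h5 ⊢
    generalize Complex.cos (Real.pi * (-(m : ℂ) + (tau k : ℂ) * I) / 2) = S2 at h5 ⊢
    generalize (c : ℂ) ^ ((m : ℂ) - (tau k : ℂ) * I) = P at *
    field_simp
    linear_combination (-(C₀ : ℂ) * (R1 : ℂ) * P * L w) * h5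
  refine ⟨C₀ * R1 * (2 / Real.pi) * Complex.normSq G1 * r, ?_, ?_⟩
  · have : 0 < Complex.normSq G1 := Complex.normSq_pos.2 hG1ne
    have := Real.pi_pos
    positivity
  · rcases hsn with ⟨-, hsn⟩ | ⟨-, hsn⟩
    · rw [hmain, hsn]
      have e4 : ((C₀ * R1 * (2 / Real.pi) * Complex.normSq G1 : ℝ) : ℂ) * (((σ * r : ℝ) : ℂ) * I) * (v k : ℂ) =
          ((C₀ * R1 * (2 / Real.pi) * Complex.normSq G1 * (σ * r) * v k : ℝ) : ℂ) * I := by push_cast; ring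
      rw [e4, Complex.re_ofReal_mul, Complex.im_ofReal_mul, Complex.I_re, Complex.I_im]
      ring
    · rw [hmain, hsn]
      have e4 : ((C₀ * R1 * (2 / Real.pi) * Complex.normSq G1 : ℝ) : ℂ) * ((σ * r : ℝ) : ℂ) * (v k : ℂ) =
          ((C₀ * R1 * (2 / Real.pi) * Complex.normSq G1 * (σ * r) * v k : ℝ) : ℂ) := by push_cast; ring
      rw [e4, Complex.ofReal_re, Complex.ofReal_im]
      ring

end Pool.Agent.Q127.ET
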