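import Mathlib
import Pool.Agent.Q127.ET.IK3
import Pool.Agent.Q127.ET.CoreT
import Pool.Agent.Q128.ET.Fix
import Pool.Agent.Q128.ET.Src
import Pool.Agent.Q144.ET.Rel
import Pool.Agent.Q144.ET.Scale
import Pool.Agent.Q251.ET.Loc
import Pool.Agent.Q251.ET.Base
import Pool.Agent.Q254.ET.Pow

/-!
# Project ET: the final theorem of the machine
-/

set_option autoImplicit false

open Filter Topology Complex Set

namespace Pool.Agent.Q127.ET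

open Pool.Agent.H469R10.HO Pool.Agent.H13R3.EM Pool.Agent.Q127.EZ

theorem core : S_Core :=
  coreT Pool.Agent.Q251.ET.t_Loc1 Pool.Agent.Q128.ET.src Pool.Agent.Q128.ET.fix Pool.Agent.Q144.ET.rel
    (ex_main Pool.Agent.Q251.ET.t_Loc1 Pool.Agent.Q144.ET.scale Pool.Agent.Q254.ET.pow1 Pool.Agent.Q254.ET.pow2)
    Pool.Agent.Q251.ET.t_Base

/-- the theorem with the Hardy function -/
theorem finalH (hOrd : S_Ord) : ∃ m₀ : ℕ, 26100 ≤ m₀ ∧ ∀ m : ℕ, m₀ ≤ m → ∃ q₀ : ℕ, 1 ≤ q₀ ∧ ∀ q : ℕ, q₀ ≤ q →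
    ∀ sg : ℕ → ℝ, (∀ k, |sg k| = 1) → ∃ (x : ℕ → ℝ) (L : ℂ → ℂ),
    IsLFunction (4 * m + 3) q (atc m x) (rt m x) (kp (4 * m + 3)) ((-1) ^ (m + 1)) L ∧
    (∀ T : ℝ, {ρ : ℂ | L ρ = 0 ∧ 0 < ρ.im ∧ ρ.im ≤ T}.Finite) ∧
    (∀ ρ : ℂ, L ρ = 0 → 0 < ρ.im → 0 ≤ ρ.re ∧ ρ.re ≤ 1) ∧
    (∀ k : ℕ, 0 < sg k * ((Lam q (kp (4 * m + 3)) L (1 / 2 + (32 * Real.pi * (k + 1) / (4 * m + 3) : ℝ) * I)).re +
      (Lam q (kp (4 * m + 3)) L (1 / 2 + (32 * Real.pi * (k + 1) / (4 * m + 3) : ℝ) * I)).im)) ∧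
    (∃ (σ : ℝ) (H : ℝ → ℝ), |σ| = 1 ∧ Continuous H ∧ (∀ t : ℝ, t ≠ 0 → (L (1 / 2 + t * I) = 0 ↔ H t = 0)) ∧
      ∀ k : ℕ, 0 < σ * sg k * H (32 * Real.pi * (k + 1) / (4 * m + 3))) ∧
    (∃ A δ T₀ : ℝ, 0 < A ∧ 0 < δ ∧ ∀ T : ℝ, T₀ ≤ T →
      δ * (T * Real.log T) ≤ NZ L univ T ∧
      NZ L (Icc (12 / (4 * m + 3)) (1 - 12 / (4 * m + 3))) T ≤ A * (T * Real.log (Real.log T)) ∧
      ∀ σ : ℝ, 12 / (4 * m + 3) ≤ σ → σ ≤ 1 - 12 / (4 * m + 3) →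
        |NZ L (Ioi σ) T - NZ L univ T / 2| ≤ A * (T * Real.log (Real.log T))) := by
  obtain ⟨m₁, hm₁, hcore⟩ := core
  refine ⟨max m₁ 26100, le_max_right _ _, fun m hm => ?_⟩
  have hm1 : m₁ ≤ m := (le_max_left _ _).trans hm
  have hm2 : 26100 ≤ m := (le_max_right _ _).trans hm
  obtain ⟨c₀, ν, C, hc₀, hc₀1, hν, hC, hc⟩ := hcore m hm1
  obtain ⟨q₀, hq₀1, hq₀⟩ := cq_small (4 * m + 3) (by omega) hc₀
  refine ⟨q₀, hq₀1, fun q hq sg₀ hsg₀ => ?_⟩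
  have hq1 : 1 ≤ q := hq₀1.trans hq
  obtain ⟨σ, hσ, hsign⟩ := hardy_sign (m := m) hq1 (by omega)
  obtain ⟨sg, hsgd⟩ : ∃ sg : ℕ → ℝ, sg = fun k => σ * sg₀ k := ⟨_, rfl⟩
  have hsg : ∀ k, |sg k| = 1 := fun k => by rw [hsgd]; simp only; rw [abs_mul, hσ, hsg₀ k, one_mul]
  obtain ⟨c, hcd⟩ : ∃ c : ℝ, c = cq (4 * m + 3) q := ⟨_, rfl⟩
  have hcpos : 0 < c := by rw [hcd]; exact cq_pos (by omega) hq1
  have hcc : c ≤ c₀ := by rw [hcd]; exact hq₀ q hq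
  have hc1 : c ≤ 1 / 10 := hcc.trans hc₀1
  obtain ⟨hJP, D, hD, hv⟩ := hc c hcpos hcc
  have hsq : ∀ k, sg k ^ 2 = 1 := fun k => by rw [← sq_abs, hsg k]; norm_num
  have hsg1 : ∀ J : ℕ, ∑ k ∈ Finset.range J, WW c k * (sg k * vv c ν k) ^ 2 ≤ ν ^ 2 := fun J => by
    refine le_trans (le_of_eq ?_) (vv_sum hcpos hc1 J)
    refine Finset.sum_congr rfl fun k _ => ?_
    rw [mul_pow, hsq k, one_mul]
  obtain ⟨x, α, g, hO⟩ := hv (fun k => sg k * vv c ν k) hsg1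
  obtain ⟨S, h0, hdeg, ha, hp, hr, hQ, hω, hlm⟩ := Pool.Agent.Q237.ET.sel m c x α (by omega) hcpos hO.hx hO.hα hO.hsum hO.hrel
  have hA1 : CoefA m α (fun n => ((atc m x n : ℝ) : ℂ)) :=
    { eq := fun n hn => by
        have hn0 : (0:ℝ) < n := by exact_mod_cast hn
        rw [hO.hα n hn, mul_assoc, ← Real.rpow_add hn0, neg_add_cancel, Real.rpow_zero, mul_one]
      sum := fun s hs => Pool.Agent.Q237.ET.fa_summable hO.hx hs }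
  have hre : ∀ n, (S.a n).im = 0 := fun n => by rw [ha n, ofReal_im]
  obtain ⟨K, hK⟩ := growthR hm2 hO.toR hA1 S h0 ha
  have hSa : S.a = fun n => ((atc m x n : ℝ) : ℂ) := funext ha
  have hser : ∀ s : ℂ, 1 < s.re → S.G s = LSeries (fun n => ((atc m x n : ℝ) : ℂ)) s := by
    intro s hs
    have h3 := S.cont s hs
    rw [h0, pow_zero, one_mul, hSa] at h3
    exact h3
  obtain ⟨r1, r2, ⟨Hf, g1, g2, g3⟩, r3⟩ := edge2R hm2 hc1 hν hC hD hJP hsg hO.toR hA1 S h0 ha hp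
  refine ⟨x, S.G, ?_, r1, r2, fun k => ?_, ⟨σ, Hf, hσ, g1, g2, fun k => by
    have h := g3 k
    rw [hsgd] at h
    exact h⟩, r3⟩
  swap
  · rw [hcd] at hO
    obtain ⟨r, hr0, hr1⟩ := hsign _ _ _ _ _ S.G hO.toR hA1 S.diff hser k
    rw [hr1, hsgd, ← hcd]
    have hvp := vv_pos hcpos hc1 hν k
    have h1 : σ ^ 2 = 1 := by rw [← sq_abs, hσ]; norm_num
    have h2 : sg₀ k ^ 2 = 1 := by rw [← sq_abs, hsg₀ k]; norm_num
    have e : sg₀ k * (σ * r * (σ * sg₀ k * vv c ν k)) = (σ ^ 2) * (sg₀ k ^ 2) * (r * vv c ν k) := by ring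
    simp only
    rw [e, h1, h2]
    positivity
  exact
    { one := Pool.Agent.Q237.ET.atc_one
      mult := fun a b hab => Pool.Agent.Q237.ET.atc_mul hab
      unitary := fun p _ => (rt_spec hO.hx p).1
      det_one := fun p _ => (rt_spec hO.hx p).2.1
      selfdual := fun p _ => (rt_spec hO.hx p).2.2.1
      loc := fun p hp z hz => by
        have h := (rt_spec (m := m) hO.hx p).2.2.2 z hz
        simp_rw [Pool.Agent.Q237.ET.atc_prime_pow hp]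
        exact h
      ramanujan := fun e he => by
        obtain ⟨C', -, hC'⟩ := Pool.Agent.Q237.ET.fa_ram (m := m) hO.hx he
        refine ⟨C', fun n hn => ?_⟩
        have h := hC' n hn
        unfold Pool.Agent.Q237.ET.fa at h
        rwa [Complex.norm_real, Real.norm_eq_abs] at h
      summable := fun s hs => Pool.Agent.Q237.ET.fa_summable hO.hx hs
      series := hser
      euler := fun s hs => by
        rw [hser s hs]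
        exact euler_rt hO.hx hs
      entire := S.diff
      order_one := fun e he => hOrd m S K (by omega) h0 hr hlm hK e he
      conductor := hq1
      root := neg_one_pow_eq_or ℝ (m + 1)
      kappa := fun j => kp_range j
      functional := fun s hs hs' => fe_mem hq1 S h0 hre hr (by rw [hQ, hcd]) hω hlm s hs hs' }

/-- **the theorem** -/
theorem final (hOrd : S_Ord) : ∃ m₀ : ℕ, 26100 ≤ m₀ ∧ ∀ m : ℕ, m₀ ≤ m → ∃ q₀ : ℕ, 1 ≤ q₀ ∧ ∀ q : ℕ, q₀ ≤ q →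
    ∀ sg : ℕ → ℝ, (∀ k, |sg k| = 1) → ∃ (x : ℕ → ℝ) (L : ℂ → ℂ),
    IsLFunction (4 * m + 3) q (atc m x) (rt m x) (kp (4 * m + 3)) ((-1) ^ (m + 1)) L ∧
    (∀ T : ℝ, {ρ : ℂ | L ρ = 0 ∧ 0 < ρ.im ∧ ρ.im ≤ T}.Finite) ∧
    (∀ ρ : ℂ, L ρ = 0 → 0 < ρ.im → 0 ≤ ρ.re ∧ ρ.re ≤ 1) ∧
    (∀ k : ℕ, 0 < sg k * ((Lam q (kp (4 * m + 3)) L (1 / 2 + (32 * Real.pi * (k + 1) / (4 * m + 3) : ℝ) * I)).re +
      (Lam q (kp (4 * m + 3)) L (1 / 2 + (32 * Real.pi * (k + 1) / (4 * m + 3) : ℝ) * I)).im)) ∧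
    (∃ A δ T₀ : ℝ, 0 < A ∧ 0 < δ ∧ ∀ T : ℝ, T₀ ≤ T →
      δ * (T * Real.log T) ≤ NZ L univ T ∧
      NZ L (Icc (12 / (4 * m + 3)) (1 - 12 / (4 * m + 3))) T ≤ A * (T * Real.log (Real.log T)) ∧
      ∀ σ : ℝ, 12 / (4 * m + 3) ≤ σ → σ ≤ 1 - 12 / (4 * m + 3) →
        |NZ L (Ioi σ) T - NZ L univ T / 2| ≤ A * (T * Real.log (Real.log T))) := by
  obtain ⟨m₀, hm₀, H⟩ := finalH hOrd
  refine ⟨m₀, hm₀, fun m hm => ?_⟩
  obtain ⟨q₀, hq₀, Hq⟩ := H m hm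
  refine ⟨q₀, hq₀, fun q hq sg hsg => ?_⟩
  obtain ⟨x, L, h1, h2, h3, h4, -, h5⟩ := Hq q hq sg hsg
  exact ⟨x, L, h1, h2, h3, h4, h5⟩

end Pool.Agent.Q127.ET
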