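import Mathlib
import Pool.Agent.Q127.ET.Final
import Pool.Agent.Q127.EZ.Val
import Pool.Agent.Q199.ET.Ord

/-!
# Project ET: prescribed values on an arithmetic progression of the critical line
-/

set_option autoImplicit false

open Filter Topology Complex Set

namespace Pool.Agent.Q127.ET

open Pool.Agent.H469R10.HO Pool.Agent.H13R3.EM Pool.Agent.Q127.EZ
open Pool.Agent.Q284.S (gam_cos)

lemma cq_pow {m q : ℕ} (hq : 1 ≤ q) : cq (4 * m + 3) q ^ (m : ℝ) =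
    (Real.pi * ((4 * m + 3 : ℕ) : ℝ)) ^ (m : ℝ) / (q : ℝ) ^ ((1 : ℝ) / 4 - 3 / (4 * (4 * m + 3))) := by
  have hq0 : (0:ℝ) < q := by exact_mod_cast hq
  have hp := Real.pi_pos
  unfold cq
  rw [Real.div_rpow (by positivity) (by positivity), ← Real.rpow_mul hq0.le]
  congr 2
  push_cast
  field_simp
  ring

lemma LL_le {m q : ℕ} (hq : 1 ≤ q) (k : ℕ) : LL (cq (4 * m + 3) q) k ≤ Real.log (q * (k + 2)) := by
  have hq0 : (1:ℝ) ≤ q := by exact_mod_cast hq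
  have hp := Real.pi_gt_three
  have hc : 0 < cq (4 * m + 3) q := cq_pos (by omega) hq
  have hk : (0:ℝ) ≤ k := Nat.cast_nonneg k
  unfold LL
  apply Real.log_le_log (by positivity)
  rw [div_le_iff₀ hc]
  have h1 : (q : ℝ) ^ (1 / ((4 * m + 3 : ℕ) : ℝ)) ≤ q := by
    calc (q : ℝ) ^ (1 / ((4 * m + 3 : ℕ) : ℝ)) ≤ (q : ℝ) ^ (1 : ℝ) := by
          apply Real.rpow_le_rpow_of_exponent_le hq0
          rw [div_le_one (by positivity)]
          push_cast
          have : (0:ℝ) ≤ m := Nat.cast_nonneg m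
          linarith
      _ = q := Real.rpow_one _
  have h2 : 0 < (q : ℝ) ^ (1 / ((4 * m + 3 : ℕ) : ℝ)) := by positivity
  have h3 : 1 ≤ q * cq (4 * m + 3) q := by
    unfold cq
    rw [mul_div_assoc', le_div_iff₀ h2, one_mul]
    refine h1.trans ?_
    have h4 : (1:ℝ) ≤ Real.pi * ((4 * m + 3 : ℕ) : ℝ) := by
      push_cast
      have : (0:ℝ) ≤ m := Nat.cast_nonneg m
      nlinarith
    nlinarith
  nlinarith

/-- **prescribed values** -/
theorem prescribeT : ∃ m₀ : ℕ, 100 ≤ m₀ ∧ ∀ m : ℕ, m₀ ≤ m → ∃ (q₀ : ℕ) (κ : ℝ), 2 ≤ q₀ ∧ 0 < κ ∧ ∀ q : ℕ, q₀ ≤ q →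
    ∃ u : ℕ → ℂ, (∀ k, ‖u k‖ = 1) ∧ ∀ r : ℕ → ℝ,
    (∀ k, |r k| ≤ κ * (q : ℝ) ^ ((1 : ℝ) / 4 - 3 / (4 * (4 * m + 3))) * ((k : ℝ) + 1) ^ ((m : ℝ) - 1 / 2) /
      Real.log (q * (k + 2)) ^ 3) →
    ∃ (x : ℕ → ℝ) (L : ℂ → ℂ),
      IsLFunction (4 * m + 3) q (atc m x) (rt m x) (kp (4 * m + 3)) ((-1) ^ (m + 1)) L ∧
      ∀ k : ℕ, L (1 / 2 + ((32 * Real.pi * (k + 1) / (4 * m + 3) : ℝ) : ℂ) * I) = r k * u k := by
  obtain ⟨m₁, hm₁, hcore⟩ := core
  refine ⟨max m₁ 26100, le_trans (by norm_num) (le_max_right _ _), fun m hm => ?_⟩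
  have hm1' : m₁ ≤ m := (le_max_left _ _).trans hm
  have hm2 : 26100 ≤ m := (le_max_right _ _).trans hm
  obtain ⟨c₀, ν, C, hc₀, hc₀1, hν, hC, hc'⟩ := hcore m hm1'
  obtain ⟨q₀, hq₀1, hq₀⟩ := cq_small (4 * m + 3) (by omega) hc₀
  obtain ⟨C₁, hC₁, hup⟩ := gam_cos (-(m : ℝ))
  have hm1 : 1 ≤ m := by omega
  have hl := lam_pos m
  have hlc : (lamH m : ℂ) ≠ 0 := by exact_mod_cast hl.ne'
  have hmR : (26100 : ℝ) ≤ m := by exact_mod_cast hm2
  have hpi := Real.pi_pos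
  obtain ⟨P, hP⟩ : ∃ P : ℝ, P = (Real.pi * ((4 * m + 3 : ℕ) : ℝ)) ^ (m : ℝ) := ⟨_, rfl⟩
  have hP0 : 0 < P := by rw [hP]; positivity
  refine ⟨max q₀ 2, ν / (C₁ * P), le_max_right _ _, by positivity, fun q hq => ?_⟩
  have hqq : q₀ ≤ q := (le_max_left _ _).trans hq
  have hq1 : 1 ≤ q := hq₀1.trans hqq
  have hq0 : (0:ℝ) < q := by exact_mod_cast hq1
  have hqR : (1:ℝ) ≤ q := by exact_mod_cast hq1
  have hcm' := cq_pow (m := m) hq1
  have hLL := LL_le (m := m) hq1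
  obtain ⟨c, hcd⟩ : ∃ c : ℝ, c = cq (4 * m + 3) q := ⟨_, rfl⟩
  have hc : 0 < c := by rw [hcd]; exact cq_pos (by omega) hq1
  have hcc : c ≤ c₀ := by rw [hcd]; exact hq₀ q hqq
  have hc1 : c ≤ 1 / 10 := hcc.trans hc₀1
  rw [← hcd, ← hP] at hcm'
  rw [← hcd] at hLL
  obtain ⟨hJP, D, hD, hv⟩ := hc' c hc hcc
  obtain ⟨E, hE⟩ : ∃ E : ℝ, E = (q : ℝ) ^ ((1 : ℝ) / 4 - 3 / (4 * (4 * m + 3))) := ⟨_, rfl⟩
  have hE0 : 0 < E := by rw [hE]; positivity
  rw [← hE] at hcm'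
  have hcm : 0 < c ^ (m : ℝ) := Real.rpow_pos_of_pos hc _
  have hτ1 : ∀ k, 1 ≤ tau k := fun k => by
    have := one_add_le_tau k
    have : (0:ℝ) ≤ k := Nat.cast_nonneg k
    linarith
  have hne : ∀ k, Uf m c ((tau k : ℂ) * I) ≠ 0 := fun k => Uf_ne hc (by
    have := hτ1 k
    simp only [Complex.mul_im, Complex.ofReal_re, Complex.I_im, Complex.ofReal_im, Complex.I_re, mul_one, mul_zero, add_zero]
    linarith)
  refine ⟨fun k => (‖Uf m c ((tau k : ℂ) * I)‖ : ℂ) / Uf m c ((tau k : ℂ) * I), fun k => ?_, fun r hr => ?_⟩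
  · rw [norm_div, Complex.norm_real, norm_norm, div_self (norm_ne_zero_iff.2 (hne k))]
  -- the values of the Mellin transform
  rw [← hE] at hr
  obtain ⟨v, hvd⟩ : ∃ v : ℕ → ℝ, v = fun k => ‖Uf m c ((tau k : ℂ) * I)‖ * r k := ⟨_, rfl⟩
  have hvle : ∀ k, |v k| ≤ vv c ν k := by
    intro k
    have hk0 : (0:ℝ) ≤ k := Nat.cast_nonneg k
    have hk1 : (0:ℝ) < (k:ℝ) + 1 := by linarith
    have hτ0 : 0 < tau k := by linarith [hτ1 k]
    have hLk := LL_two hc hc1 k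
    have hLk0 : 0 < LL c k := by linarith
    have hLg : LL c k ≤ Real.log (q * (k + 2)) := hLL k
    have hLg0 : 0 < Real.log (q * (k + 2)) := by linarith
    have e2 : (tau k : ℂ) * I = ((0 : ℝ) : ℂ) + (tau k : ℂ) * I := by push_cast; ring
    have h1 : ‖Uf m c ((tau k : ℂ) * I)‖ ≤ C₁ * tau k ^ (-(m : ℝ) - 1 / 2) * c ^ (m : ℝ) := by
      rw [e2, Uf_line hc, add_zero, sub_zero]
      have h2 := hup (tau k) (by rw [abs_of_pos hτ0]; exact hτ1 k)
      rw [abs_of_pos hτ0] at h2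
      exact mul_le_mul_of_nonneg_right h2 hcm.le
    have h2 : tau k ^ (-(m : ℝ) - 1 / 2) ≤ ((k:ℝ) + 1) ^ (-(m : ℝ) - 1 / 2) := by
      apply Real.rpow_le_rpow_of_nonpos hk1 _ (by linarith)
      have := one_add_le_tau k
      linarith
    have h3 : |v k| ≤ (C₁ * ((k:ℝ) + 1) ^ (-(m : ℝ) - 1 / 2) * (P / E)) *
        (ν / (C₁ * P) * E * ((k : ℝ) + 1) ^ ((m : ℝ) - 1 / 2) / Real.log (q * (k + 2)) ^ 3) := by
      rw [hvd]
      simp only
      rw [abs_mul, abs_norm]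
      refine mul_le_mul (h1.trans ?_) (hr k) (abs_nonneg _) (by positivity)
      rw [hcm']
      gcongr
    refine h3.trans ?_
    have h4 : ((k:ℝ) + 1) ^ (-(m : ℝ) - 1 / 2) * ((k : ℝ) + 1) ^ ((m : ℝ) - 1 / 2) = ((k:ℝ) + 1)⁻¹ := by
      rw [← Real.rpow_add hk1, ← Real.rpow_neg_one]
      congr 1
      ring
    have h5 : (C₁ * ((k:ℝ) + 1) ^ (-(m : ℝ) - 1 / 2) * (P / E)) *
        (ν / (C₁ * P) * E * ((k : ℝ) + 1) ^ ((m : ℝ) - 1 / 2) / Real.log (q * (k + 2)) ^ 3) =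
        ν / (((k:ℝ) + 1) * Real.log (q * (k + 2)) ^ 3) := by
      calc (C₁ * ((k:ℝ) + 1) ^ (-(m : ℝ) - 1 / 2) * (P / E)) *
        (ν / (C₁ * P) * E * ((k : ℝ) + 1) ^ ((m : ℝ) - 1 / 2) / Real.log (q * (k + 2)) ^ 3) =
          (((k:ℝ) + 1) ^ (-(m : ℝ) - 1 / 2) * ((k : ℝ) + 1) ^ ((m : ℝ) - 1 / 2)) *
            (C₁ * (P / E) * (ν / (C₁ * P) * E) / Real.log (q * (k + 2)) ^ 3) := by ring
        _ = _ := by
          rw [h4]
          field_simp
    rw [h5]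
    unfold vv
    rw [add_comm (k:ℝ) 1]
    gcongr
  have hsum : ∀ J : ℕ, ∑ k ∈ Finset.range J, WW c k * v k ^ 2 ≤ ν ^ 2 := fun J => by
    refine le_trans (Finset.sum_le_sum fun k _ => ?_) (vv_sum hc hc1 J)
    apply mul_le_mul_of_nonneg_left _ (WW_pos hc hc1 k).le
    rw [← sq_abs (v k)]
    exact pow_le_pow_left₀ (abs_nonneg _) (hvle k) 2
  obtain ⟨x, α, g, hO⟩ := hv v hsum
  obtain ⟨S, h0, hdeg, ha, hp, hr', hQ, hω, hlm⟩ := Pool.Agent.Q237.ET.sel m c x α (by omega) hc hO.hx hO.hα hO.hsum hO.hrel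
  have hA1 : CoefA m α (fun n => ((atc m x n : ℝ) : ℂ)) :=
    { eq := fun n hn => by
        have hn0 : (0:ℝ) < n := by exact_mod_cast hn
        rw [hO.hα n hn, mul_assoc, ← Real.rpow_add hn0, neg_add_cancel, Real.rpow_zero, mul_one]
      sum := fun s hs => Pool.Agent.Q237.ET.fa_summable hO.hx hs }
  have hre : ∀ n, (S.a n).im = 0 := fun n => by rw [ha n, ofReal_im]
  obtain ⟨K, hK⟩ := growthR hm2 hO.toR hA1 S h0 ha
  have hSa : S.a = fun n => ((atc m x n : ℝ) : ℂ) := funext ha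
  have hser : ∀ s : ℂ, 1 < s.re → S.G s = LSeries (fun n => ((atc m x n : ℝ) : ℂ)) s := by
    intro s hs
    have h3 := S.cont s hs
    rw [h0, pow_zero, one_mul, hSa] at h3
    exact h3
  refine ⟨x, S.G, ?_, fun k => ?_⟩
  · exact
      { one := Pool.Agent.Q237.ET.atc_one
        mult := fun a b hab => Pool.Agent.Q237.ET.atc_mul hab
        unitary := fun p _ => (rt_spec hO.hx p).1
        det_one := fun p _ => (rt_spec hO.hx p).2.1
        selfdual := fun p _ => (rt_spec hO.hx p).2.2.1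
        loc := fun p hp z hz => by
          have h := (rt_spec (m := m) hO.hx p).2.2.2 z hz
          simp_rw [Pool.Agent.Q237.ET.atc_prime_pow hp]
          exact h
        ramanujan := fun e he => by
          obtain ⟨C', -, hC'⟩ := Pool.Agent.Q237.ET.fa_ram (m := m) hO.hx he
          refine ⟨C', fun n hn => ?_⟩
          have h := hC' n hn
          unfold Pool.Agent.Q237.ET.fa at h
          rwa [Complex.norm_real, Real.norm_eq_abs] at h
        summable := fun s hs => Pool.Agent.Q237.ET.fa_summable hO.hx hs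
        series := hser
        euler := fun s hs => by
          rw [hser s hs]
          exact euler_rt hO.hx hs
        entire := S.diff
        order_one := fun e he => Pool.Agent.Q199.ET.ord m S K (by omega) h0 hr' hlm hK e he
        conductor := hq1
        root := neg_one_pow_eq_or ℝ (m + 1)
        kappa := fun j => kp_range j
        functional := fun s hs hs' => fe_mem hq1 S h0 hre hr' (by rw [hQ, hcd]) hω hlm s hs hs' }
  · have hτ0 : 0 < tau k := by linarith [hτ1 k]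
    have hHM := HM_F hm1 hO.toR hA1 S.diff hser (s := (tau k : ℂ) * I) (by simp; linarith) (by simpa using hτ0.ne')
    rw [HM_node hO.toR k] at hHM
    have e1 : (1 / 2 + (tau k : ℂ) * I / lamH m : ℂ) = 1 / 2 + ((32 * Real.pi * (k + 1) / (4 * m + 3) : ℝ) : ℂ) * I := by
      have e2 : (32 * Real.pi * (k + 1) / (4 * m + 3) : ℝ) = tau k / lamH m := by
        have : (0:ℝ) < 4 * m + 3 := by positivity
        unfold lamH tau
        field_simp
        ring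
      rw [e2]
      push_cast; ring
    rw [e1] at hHM
    have h2 : S.G (1 / 2 + ((32 * Real.pi * (k + 1) / (4 * m + 3) : ℝ) : ℂ) * I) = ((v k : ℝ) : ℂ) / Uf m c ((tau k : ℂ) * I) := by
      rw [hHM, mul_div_cancel_left₀ _ (hne k)]
    rw [h2, hvd]
    push_cast
    ring

end Pool.Agent.Q127.ET
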